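import Pool.Agent.RR.Stable

/-!
# Conjugates of locally nilpotent derivations by exponentials
-/

set_option autoImplicit false

open Polynomial

namespace Pool.Agent.RR

variable {A : Type*} [CommRing A] [Algebra ℂ A]

namespace LND

variable (E : LND A)

/-- the exponential endomorphism -/
noncomputable def expHom (t : ℂ) : A →ₐ[ℂ] A :=
  ((Polynomial.aeval (algebraMap ℂ A t) : A[X] →ₐ[A] A).restrictScalars ℂ).comp E.psi

lemma expHom_apply (t : ℂ) (a : A) : E.expHom t a = (E.psi a).eval (algebraMap ℂ A t) := by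
  simp [expHom, Polynomial.aeval_def, eval₂_eq_eval_map]

lemma expHom_eq_sum (t : ℂ) (a : A) {m : ℕ} (hm : (E.psi a).natDegree < m) :
    E.expHom t a = ∑ j ∈ Finset.range m, t ^ j • E.c a j := by
  rw [expHom_apply, eval_eq_sum_range' hm]
  refine Finset.sum_congr rfl fun j _ => ?_
  rw [coeff_psi, Algebra.smul_def, _root_.map_pow, mul_comm]

lemma apply_expHom (t : ℂ) (χ : A →ₐ[ℂ] ℂ) (a : A) : χ (E.expHom t a) = E.flow t χ a := by
  rw [expHom_apply, flow_apply, orb, AlgHom.comp_apply]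
  have h := Polynomial.hom_eval₂ (E.psi a) (RingHom.id A) (χ : A →+* ℂ) (algebraMap ℂ A t)
  have h1 : (χ : A →+* ℂ) (algebraMap ℂ A t) = t := χ.commutes t
  rw [h1] at h
  have h2 : Polynomial.eval₂ (RingHom.id A) (algebraMap ℂ A t) (E.psi a) =
      (E.psi a).eval (algebraMap ℂ A t) := rfl
  rw [h2] at h
  change (χ : A →+* ℂ) _ = _
  rw [h, RingHom.comp_id, eval₂_eq_eval_map]
  rfl

lemma flow_eq_comp (t : ℂ) (χ : A →ₐ[ℂ] ℂ) : E.flow t χ = χ.comp (E.expHom t) := by
  ext a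
  rw [AlgHom.comp_apply, apply_expHom]

end LND

section Domain

variable [IsDomain A] [Algebra.FiniteType ℂ A]

lemma eq_of_points {a b : A} (h : ∀ χ : A →ₐ[ℂ] ℂ, χ a = χ b) : a = b := by
  by_contra hne
  obtain ⟨χ, hχ⟩ := exists_point_ne_zero (sub_ne_zero.2 hne)
  apply hχ
  rw [_root_.map_sub, h, sub_self]

lemma LND.expHom_comp (E : LND A) (s t : ℂ) (a : A) :
    E.expHom t (E.expHom s a) = E.expHom (s + t) a := by
  apply eq_of_points
  intro χ
  rw [E.apply_expHom t χ, E.apply_expHom s, E.flow_flow, ← E.apply_expHom]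

lemma LND.expHom_zero (E : LND A) (a : A) : E.expHom 0 a = a := by
  apply eq_of_points
  intro χ
  rw [E.apply_expHom, E.flow_zero]

/-- the exponential automorphism -/
noncomputable def LND.expEquiv (E : LND A) (t : ℂ) : A ≃ₐ[ℂ] A :=
  AlgEquiv.ofAlgHom (E.expHom t) (E.expHom (-t))
    (by
      ext a
      rw [AlgHom.comp_apply, E.expHom_comp, neg_add_cancel, E.expHom_zero, AlgHom.id_apply])
    (by
      ext a
      rw [AlgHom.comp_apply, E.expHom_comp, add_neg_cancel, E.expHom_zero, AlgHom.id_apply])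

lemma LND.expEquiv_apply (E : LND A) (t : ℂ) (a : A) : E.expEquiv t a = E.expHom t a := rfl

lemma LND.expEquiv_symm_apply (E : LND A) (t : ℂ) (a : A) :
    (E.expEquiv t).symm a = E.expHom (-t) a := rfl

end Domain

/-- conjugate of a derivation by an automorphism -/
def conjD (φ : A ≃ₐ[ℂ] A) (δ : Derivation ℂ A A) : Derivation ℂ A A :=
  Derivation.mk' ((φ : A →ₐ[ℂ] A).toLinearMap ∘ₗ (δ : A →ₗ[ℂ] A) ∘ₗ
    (φ.symm : A →ₐ[ℂ] A).toLinearMap) (fun a b => by simp [Derivation.leibniz])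

lemma conjD_apply (φ : A ≃ₐ[ℂ] A) (δ : Derivation ℂ A A) (b : A) :
    conjD φ δ b = φ (δ (φ.symm b)) := rfl

lemma conjD_iter (φ : A ≃ₐ[ℂ] A) (δ : Derivation ℂ A A) (b : A) (n : ℕ) :
    (⇑(conjD φ δ))^[n] b = φ ((⇑δ)^[n] (φ.symm b)) := by
  induction n with
  | zero => simp
  | succ n ih => rw [Function.iterate_succ_apply', ih, Function.iterate_succ_apply', conjD_apply,
      φ.symm_apply_apply]

lemma conjD_trans (φ ψ : A ≃ₐ[ℂ] A) (δ : Derivation ℂ A A) :
    conjD (φ.trans ψ) δ = conjD ψ (conjD φ δ) := by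
  ext b
  rfl

lemma conjD_refl (δ : Derivation ℂ A A) : conjD AlgEquiv.refl δ = δ := by
  ext b
  rfl

/-- conjugate of an LND by an automorphism -/
def LND.conj (φ : A ≃ₐ[ℂ] A) (E : LND A) : LND A where
  D := conjD φ E.D
  nil b := by
    obtain ⟨n, hn⟩ := E.nil (φ.symm b)
    exact ⟨n, by rw [conjD_iter, hn, _root_.map_zero]⟩

lemma LND.conj_D (φ : A ≃ₐ[ℂ] A) (E : LND A) : (E.conj φ).D = conjD φ E.D := rfl

lemma conjD_ne_zero {φ : A ≃ₐ[ℂ] A} {δ : Derivation ℂ A A} (h : δ ≠ 0) : conjD φ δ ≠ 0 := by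
  intro h0
  apply h
  ext b
  have := congrArg (fun d : Derivation ℂ A A => φ.symm (d (φ b))) h0
  simpa [conjD_apply] using this

/-! ### Polynomial curves -/

/-- polynomial curves in `A` -/
def PolyCurve (F : ℂ → A) : Prop := ∃ P : A[X], ∀ t, F t = P.eval (algebraMap ℂ A t)

lemma polyCurve_const (a : A) : PolyCurve fun _ => a := ⟨C a, fun t => by simp⟩

lemma PolyCurve.add {F G : ℂ → A} (hF : PolyCurve F) (hG : PolyCurve G) :
    PolyCurve fun t => F t + G t := by
  obtain ⟨P, hP⟩ := hF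
  obtain ⟨Q, hQ⟩ := hG
  exact ⟨P + Q, fun t => by simp only [eval_add, hP, hQ]⟩

lemma PolyCurve.mul {F G : ℂ → A} (hF : PolyCurve F) (hG : PolyCurve G) :
    PolyCurve fun t => F t * G t := by
  obtain ⟨P, hP⟩ := hF
  obtain ⟨Q, hQ⟩ := hG
  exact ⟨P * Q, fun t => by simp only [eval_mul, hP, hQ]⟩

lemma PolyCurve.sum {ι : Type*} (s : Finset ι) {F : ι → ℂ → A} (hF : ∀ i ∈ s, PolyCurve (F i)) :
    PolyCurve fun t => ∑ i ∈ s, F i t := by
  classical
  induction s using Finset.induction_on with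
  | empty => simpa using polyCurve_const (0 : A)
  | insert i s hi ih =>
    simp only [Finset.sum_insert hi]
    exact (hF i (Finset.mem_insert_self i s)).add
      (ih fun j hj => hF j (Finset.mem_insert_of_mem hj))

lemma polyCurve_pow_smul (j : ℕ) (a : A) : PolyCurve fun t : ℂ => t ^ j • a :=
  ⟨C a * X ^ j, fun t => by
    simp only [eval_mul, eval_C, eval_pow, eval_X, Algebra.smul_def, _root_.map_pow, mul_comm]⟩

/-- curves of the form `∑ t^j • a_j` -/
lemma PolyCurve.exists_sum {F : ℂ → A} (hF : PolyCurve F) :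
    ∃ (m : ℕ) (a : ℕ → A), ∀ t, F t = ∑ j ∈ Finset.range m, t ^ j • a j := by
  obtain ⟨P, hP⟩ := hF
  refine ⟨P.natDegree + 1, P.coeff, fun t => ?_⟩
  rw [hP, eval_eq_sum_range]
  refine Finset.sum_congr rfl fun j _ => ?_
  rw [Algebra.smul_def, _root_.map_pow, mul_comm]

lemma polyCurve_of_sum {F : ℂ → A} (m : ℕ) (a : ℕ → A)
    (h : ∀ t, F t = ∑ j ∈ Finset.range m, t ^ j • a j) : PolyCurve F := by
  have : F = fun t => ∑ j ∈ Finset.range m, t ^ j • a j := funext h
  rw [this]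
  exact PolyCurve.sum _ fun j _ => polyCurve_pow_smul j (a j)

lemma PolyCurve.linear {F : ℂ → A} (hF : PolyCurve F) (θ : A →ₗ[ℂ] A) :
    PolyCurve fun t => θ (F t) := by
  obtain ⟨m, a, h⟩ := hF.exists_sum
  refine polyCurve_of_sum m (fun j => θ (a j)) fun t => ?_
  rw [h, _root_.map_sum]
  simp

lemma polyCurve_expHom (E : LND A) (a : A) : PolyCurve fun t => E.expHom t a :=
  ⟨E.psi a, fun t => E.expHom_apply t a⟩

lemma PolyCurve.expHom {F : ℂ → A} (hF : PolyCurve F) (E : LND A) :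
    PolyCurve fun t => E.expHom t (F t) := by
  obtain ⟨m, a, h⟩ := hF.exists_sum
  have : (fun t => E.expHom t (F t)) = fun t => ∑ j ∈ Finset.range m, t ^ j • E.expHom t (a j) := by
    funext t
    rw [h, _root_.map_sum]
    simp
  rw [this]
  refine PolyCurve.sum _ fun j _ => ?_
  have h2 : (fun t : ℂ => t ^ j • E.expHom t (a j)) =
      fun t => (t ^ j • (1 : A)) * E.expHom t (a j) := by
    funext t
    rw [smul_mul_assoc, one_mul]
  rw [h2]
  exact (polyCurve_pow_smul j 1).mul (polyCurve_expHom E _)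

lemma PolyCurve.comp_mul {F : ℂ → A} (hF : PolyCurve F) (z : ℂ) : PolyCurve fun t => F (z * t) := by
  obtain ⟨m, a, h⟩ := hF.exists_sum
  refine polyCurve_of_sum m (fun j => z ^ j • a j) fun t => ?_
  rw [h]
  refine Finset.sum_congr rfl fun j _ => ?_
  rw [mul_pow, smul_smul, mul_comm]

lemma PolyCurve.expHom_mul {F : ℂ → A} (hF : PolyCurve F) (E : LND A) (z : ℂ) :
    PolyCurve fun t => E.expHom (z * t) (F t) := by
  obtain ⟨m, a, h⟩ := hF.exists_sum
  have : (fun t => E.expHom (z * t) (F t)) =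
      fun t => ∑ j ∈ Finset.range m, t ^ j • E.expHom (z * t) (a j) := by
    funext t
    rw [h, _root_.map_sum]
    simp
  rw [this]
  refine PolyCurve.sum _ fun j _ => ?_
  have h2 : (fun t : ℂ => t ^ j • E.expHom (z * t) (a j)) =
      fun t => (t ^ j • (1 : A)) * E.expHom (z * t) (a j) := by
    funext t
    rw [smul_mul_assoc, one_mul]
  rw [h2]
  exact (polyCurve_pow_smul j 1).mul ((polyCurve_expHom E _).comp_mul z)

/-- evaluating a linear functional along a polynomial curve gives a polynomial -/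
lemma PolyCurve.functional {F : ℂ → A} (hF : PolyCurve F) (θ : A →ₗ[ℂ] ℂ) :
    ∃ P : ℂ[X], ∀ t, θ (F t) = P.eval t := by
  obtain ⟨m, a, h⟩ := hF.exists_sum
  refine ⟨∑ j ∈ Finset.range m, C (θ (a j)) * X ^ j, fun t => ?_⟩
  rw [h, _root_.map_sum, eval_finsetSum]
  refine Finset.sum_congr rfl fun j _ => ?_
  rw [map_smul, eval_mul, eval_C, eval_pow, eval_X, smul_eq_mul, mul_comm]

end Pool.Agent.RR
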