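import Mathlib

/-!
# Affine varieties, flexibility, holomorphic maps, RR-spaces

Definitions used in the statements about RR-spaces.
-/

set_option autoImplicit false

open Topology

namespace Pool.Agent.RR

variable {N : ℕ}

/-- The closed subset of `ℂ^N` defined by an ideal of polynomials. -/
def variety (I : Ideal (MvPolynomial (Fin N) ℂ)) : Set (Fin N → ℂ) :=
  {x | ∀ p ∈ I, MvPolynomial.eval x p = 0}

/-- The ring `ℂ[x₁, …, x_N] / I`; it is the coordinate ring of `variety I` when `I` is prime. -/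
abbrev CoordRing (I : Ideal (MvPolynomial (Fin N) ℂ)) : Type := MvPolynomial (Fin N) ℂ ⧸ I

/-- The value at a point `x` of `variety I` of an element of the coordinate ring. -/
noncomputable def evalAt (I : Ideal (MvPolynomial (Fin N) ℂ)) (x : variety I) :
    CoordRing I →ₐ[ℂ] ℂ :=
  Ideal.Quotient.liftₐ I (MvPolynomial.aeval (x : Fin N → ℂ)) (fun p hp => x.2 p hp)

/-- The Zariski tangent space of `variety I` at `x`, as a subspace of `ℂ^N`: the vectors `v` with
`∑ v_i ∂p/∂x_i (x) = 0` for all `p ∈ I`. -/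
noncomputable def tangentSpace (I : Ideal (MvPolynomial (Fin N) ℂ)) (x : variety I) :
    Submodule ℂ (Fin N → ℂ) where
  carrier := {v | ∀ p ∈ I, ∑ i, v i * MvPolynomial.eval (x : Fin N → ℂ)
    (MvPolynomial.pderiv i p) = 0}
  add_mem' {v w} hv hw p hp := by
    have h1 := hv p hp
    have h2 := hw p hp
    simp only [Pi.add_apply, add_mul, Finset.sum_add_distrib, h1, h2, add_zero]
  zero_mem' p _ := by simp
  smul_mem' c v hv p hp := by
    have h1 := hv p hp
    simp only [Pi.smul_apply, smul_eq_mul, mul_assoc, ← Finset.mul_sum, h1, mul_zero]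

/-- `variety I` is smooth of dimension `n`: the coordinate ring has transcendence degree `n` over
`ℂ` and each Zariski tangent space has dimension `n`. -/
def IsSmoothOfDim (I : Ideal (MvPolynomial (Fin N) ℂ)) (n : ℕ) : Prop :=
  Algebra.trdeg ℂ (CoordRing I) = n ∧
    ∀ x : variety I, Module.finrank ℂ (tangentSpace I x) = n

/-- Locally nilpotent derivations of the coordinate ring. -/
def IsLND (I : Ideal (MvPolynomial (Fin N) ℂ))
    (D : Derivation ℂ (CoordRing I) (CoordRing I)) : Prop :=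
  ∀ f : CoordRing I, ∃ n : ℕ, (⇑D)^[n] f = 0

/-- The value of a derivation of the coordinate ring at a point, as a vector in `ℂ^N`: its
`i`-th entry is the value at `x` of `D x_i`. -/
noncomputable def valueAt (I : Ideal (MvPolynomial (Fin N) ℂ))
    (D : Derivation ℂ (CoordRing I) (CoordRing I)) (x : variety I) : Fin N → ℂ :=
  fun i => evalAt I x (D (Ideal.Quotient.mk I (MvPolynomial.X i)))

/-- `variety I` is flexible: each tangent space is spanned by the values of the locally nilpotent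
derivations. -/
def IsFlexible (I : Ideal (MvPolynomial (Fin N) ℂ)) : Prop :=
  ∀ x : variety I,
    Submodule.span ℂ {v : Fin N → ℂ | ∃ D, IsLND I D ∧ v = valueAt I D x} = tangentSpace I x

/-- Holomorphic maps from a subset `X` of `ℂ^N` (in the applications a closed complex submanifold)
to a complex normed space: near each point of `X` the map is the restriction of an analytic map
defined on a neighbourhood in `ℂ^N`. -/
def IsHolo (X : Set (Fin N → ℂ)) {E : Type} [NormedAddCommGroup E] [NormedSpace ℂ E]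
    (f : X → E) : Prop :=
  ∀ x : X, ∃ F : (Fin N → ℂ) → E, AnalyticAt ℂ F (x : Fin N → ℂ) ∧
    ∀ᶠ y in 𝓝 (x : Fin N → ℂ), ∀ hy : y ∈ X, f ⟨y, hy⟩ = F y

/-- Holomorphic automorphisms of `X`: bijections of `X` which are holomorphic together with their
inverse. -/
def IsHoloAut (X : Set (Fin N → ℂ)) (φ : Equiv.Perm X) : Prop :=
  IsHolo X (fun x => (φ x : Fin N → ℂ)) ∧ IsHolo X (fun x => (φ.symm x : Fin N → ℂ))

/-- Exhaustion functions: continuous, nonnegative, with compact sublevel sets. -/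
def IsExhaustion (X : Set (Fin N → ℂ)) (ρ : X → ℝ) : Prop :=
  Continuous ρ ∧ (∀ x, 0 ≤ ρ x) ∧ ∀ c : ℝ, IsCompact {x | ρ x ≤ c}

/-- Complete holomorphic vector fields on `X`, given by their values in `ℂ^N`: through each point
passes an entire integral curve contained in `X`. -/
def IsCompleteField (X : Set (Fin N → ℂ)) (v : X → Fin N → ℂ) : Prop :=
  IsHolo X v ∧ ∀ x : X, ∃ γ : ℂ → Fin N → ℂ, γ 0 = x ∧ (∀ t, γ t ∈ X) ∧
    ∀ t, ∀ h : γ t ∈ X, HasDerivAt γ (v ⟨γ t, h⟩) t

/-- The holomorphic function `f` satisfies `v(f) = 0`: the derivative of each local holomorphic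
extension of `f` vanishes in the direction of `v`. -/
def KilledBy (X : Set (Fin N → ℂ)) (v : X → Fin N → ℂ) (f : X → ℂ) : Prop :=
  ∀ x : X, ∀ F : (Fin N → ℂ) → ℂ, AnalyticAt ℂ F (x : Fin N → ℂ) →
    (∀ᶠ y in 𝓝 (x : Fin N → ℂ), ∀ hy : y ∈ X, f ⟨y, hy⟩ = F y) →
    fderiv ℂ F (x : Fin N → ℂ) (v x) = 0

/-- `RR`-spaces. The members of `T` are the tame sets. -/
def IsRRSpace (X : Set (Fin N → ℂ)) : Prop :=
  ∃ T : Set (Set X),
    (∀ D ∈ T, D.Infinite ∧ IsClosed D ∧ DiscreteTopology D) ∧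
    -- (RR1)
    (∀ D ∈ T, ∀ D' ∈ T, ∀ f : D → D', Function.Injective f →
      ∃ φ : Equiv.Perm X, IsHoloAut X φ ∧ ∀ x : D, φ x = f x) ∧
    -- (RR2)
    (∃ (ρ : X → ℝ) (R : ℕ → ℝ), IsExhaustion X ρ ∧ (∀ n, 0 < R n) ∧
      ¬ BddAbove (Set.range R) ∧
      ∀ D : Set X, D.Infinite → (∀ n : ℕ, 1 ≤ n → {x ∈ D | ρ x ≤ R n}.encard ≤ n) → D ∈ T) ∧
    -- (RR3)
    (∀ D ∈ T, ∀ φ : Equiv.Perm X, IsHoloAut X φ → φ '' D ∈ T) ∧
    -- (RR4)
    (∃ (v : X → Fin N → ℂ) (f : X → ℂ), IsCompleteField X v ∧ (∃ x, v x ≠ 0) ∧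
      IsHolo X f ∧ (∃ x y, f x ≠ f y) ∧ KilledBy X v f)

end Pool.Agent.RR
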