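import Mathlib

/-!
# Integrality from two coprime denominators
-/

set_option autoImplicit false

open Polynomial

namespace Pool.Agent.RR

/-- If `p • b` and `q • b` are integral over a UFD `R`, with `p`, `q` coprime, then so is `b`. -/
theorem isIntegral_of_relPrime {R A : Type*} [CommRing R] [IsDomain R]
    [UniqueFactorizationMonoid R] [IsIntegrallyClosed R]
    [CommRing A] [IsDomain A] [Algebra R A] [Module.IsTorsionFree R A] {p q : R} {b : A}
    (hp : p ≠ 0) (hq : q ≠ 0) (hpq : IsRelPrime p q)
    (h1 : IsIntegral R (p • b)) (h2 : IsIntegral R (q • b)) : IsIntegral R b := by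
  have e : (minpoly R (p • b)).scaleRoots q = (minpoly R (q • b)).scaleRoots p := by
    rw [← IsIntegrallyClosed.minpoly_smul hq h1, ← IsIntegrallyClosed.minpoly_smul hp h2,
      smul_smul, smul_smul, mul_comm]
  set P := minpoly R (p • b) with hP
  set Q := minpoly R (q • b) with hQ
  have hPm : P.Monic := minpoly.monic h1
  have hQm : Q.Monic := minpoly.monic h2
  have hdeg : P.natDegree = Q.natDegree := by
    have := congrArg Polynomial.natDegree e
    rwa [natDegree_scaleRoots, natDegree_scaleRoots] at this
  have hdvd : ∀ i, ∃ c : R, P.coeff i = p ^ (P.natDegree - i) * c := by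
    intro i
    have h := congrArg (fun f => Polynomial.coeff f i) e
    simp only [coeff_scaleRoots] at h
    have hrel : IsRelPrime (p ^ (P.natDegree - i)) (q ^ (P.natDegree - i)) := hpq.pow
    have : p ^ (P.natDegree - i) ∣ P.coeff i * q ^ (P.natDegree - i) := by
      rw [h, ← hdeg]; exact dvd_mul_left _ _
    exact hrel.dvd_of_dvd_mul_right this
  choose c hc using hdvd
  -- the candidate monic polynomial for `b`
  let F : R[X] := ∑ i ∈ Finset.range P.natDegree, C (c i) * X ^ i + X ^ P.natDegree
  have hlow : (∑ i ∈ Finset.range P.natDegree, C (c i) * X ^ i : R[X]).degree <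
      (P.natDegree : WithBot ℕ) := by
    refine lt_of_le_of_lt (Polynomial.degree_sum_le _ _) ?_
    rw [Finset.sup_lt_iff (WithBot.bot_lt_coe _)]
    intro i hi
    refine lt_of_le_of_lt (degree_C_mul_X_pow_le _ _) ?_
    exact_mod_cast Finset.mem_range.1 hi
  have hFm : F.Monic := by
    have : F = X ^ P.natDegree + ∑ i ∈ Finset.range P.natDegree, C (c i) * X ^ i := add_comm _ _
    rw [this]
    exact monic_X_pow_add hlow
  refine ⟨F, hFm, ?_⟩
  have hpA : algebraMap R A p ≠ 0 := by
    intro h
    exact hp ((FaithfulSMul.algebraMap_injective R A) (by rw [h, map_zero]))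
  have hP0 : aeval (p • b) P = 0 := minpoly.aeval _ _
  have key : aeval (p • b) P = algebraMap R A p ^ P.natDegree * eval₂ (algebraMap R A) b F := by
    rw [aeval_eq_sum_range, Finset.sum_range_succ]
    simp only [F, eval₂_add, eval₂_finsetSum, eval₂_mul, eval₂_C, eval₂_X_pow, mul_add,
      Finset.mul_sum]
    congr 1
    · refine Finset.sum_congr rfl fun i hi => ?_
      have hi' : i < P.natDegree := Finset.mem_range.1 hi
      have hsplit : algebraMap R A p ^ P.natDegree =
          algebraMap R A p ^ (P.natDegree - i) * algebraMap R A p ^ i := by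
        rw [← pow_add]; congr 1; omega
      rw [hc i, Algebra.smul_def, Algebra.smul_def, mul_pow, map_mul, map_pow, hsplit]
      ring
    · have : P.coeff P.natDegree = 1 := hPm
      rw [this, one_smul, Algebra.smul_def, mul_pow]
  rw [key] at hP0
  rcases mul_eq_zero.1 hP0 with h | h
  · exact absurd h (pow_ne_zero _ hpA)
  · exact h

/-- A polynomial in the first variable and a polynomial in the second variable are coprime. -/
theorem relPrime_C_map {c d : ℂ[X]} (hc : c ≠ 0) (hd : d ≠ 0) :
    IsRelPrime (C c : ℂ[X][X]) (d.map C) := by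
  intro f hf1 hf2
  have hf0 : f ≠ 0 := by
    rintro rfl
    exact hc (by simpa using zero_dvd_iff.1 hf1)
  have hdeg : f.natDegree = 0 := by
    have := Polynomial.natDegree_le_of_dvd hf1 (by simpa using hc)
    simpa using this
  rw [eq_C_of_natDegree_eq_zero hdeg] at hf2 hf0 ⊢
  set g := f.coeff 0
  have hg0 : g ≠ 0 := by simpa using hf0
  rw [Polynomial.C_dvd_iff_dvd_coeff] at hf2
  have hlead := hf2 d.natDegree
  rw [coeff_map, coeff_natDegree] at hlead
  have hunit : IsUnit (C d.leadingCoeff : ℂ[X]) :=
    Polynomial.isUnit_C.2 (isUnit_iff_ne_zero.2 (by simpa using hd))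
  exact Polynomial.isUnit_C.2 (isUnit_of_dvd_unit hlead hunit)

end Pool.Agent.RR
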