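import Pool.Agent.RR.LND
import Pool.Agent.RR.Integ

/-!
# Transcendence degree two: kernels of locally nilpotent derivations
-/

set_option autoImplicit false

open Polynomial

namespace Pool.Agent.RR

variable {A : Type*} [CommRing A] [IsDomain A] [Algebra ℂ A]

/-- In transcendence degree two, `a` transcendental and `b` transcendental over `ℂ[a]`
make everything algebraic over `ℂ[a,b]`. -/
lemma isAlgebraic_of_trdeg_two (htr : Algebra.trdeg ℂ A = 2) {a b : A}
    (ha : Transcendental ℂ a) (hb : Transcendental (Algebra.adjoin ℂ {a}) b) (c : A) :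
    IsAlgebraic (Algebra.adjoin ℂ {a, b}) c := by
  have h1 : AlgebraicIndependent ℂ (fun _ : Unit => a) :=
    (algebraicIndependent_unique_type_iff (R := ℂ) (x := fun _ : Unit => a)).2 ha
  have hr : Set.range (fun _ : Unit => a) = {a} := Set.range_const
  have h2 : AlgebraicIndependent ℂ (fun o : Option Unit => o.elim b (fun _ => a)) := by
    rw [h1.option_iff_transcendental, hr]
    exact hb
  have h3 : IsTranscendenceBasis ℂ (fun o : Option Unit => o.elim b (fun _ => a)) := by
    refine h2.isTranscendenceBasis_of_lift_trdeg_le_of_finite ?_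
    rw [htr]
    simp
  have h4 := h3.isAlgebraic
  have hr2 : Set.range (fun o : Option Unit => o.elim b (fun _ => a)) = {a, b} := by
    ext x
    constructor
    · rintro ⟨o, rfl⟩
      cases o <;> simp
    · rintro (rfl | rfl)
      · exact ⟨some (), rfl⟩
      · exact ⟨none, rfl⟩
  rw [hr2] at h4
  exact h4.1 c

/-- change of the base subalgebra in `IsAlgebraic` -/
lemma isAlgebraic_of_le {S T : Subalgebra ℂ A} (h : S ≤ T) {c : A} (hc : IsAlgebraic S c) :
    IsAlgebraic T c := by
  obtain ⟨p, hp0, hp⟩ := hc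
  refine ⟨p.map (Subalgebra.inclusion h).toRingHom, ?_, ?_⟩
  · intro h0
    exact hp0 ((Polynomial.map_eq_zero_iff (Subalgebra.inclusion_injective h)).1 h0)
  · rw [aeval_def, eval₂_map]
    exact hp

lemma isIntegral_of_le {S T : Subalgebra ℂ A} (h : S ≤ T) {c : A} (hc : IsIntegral S c) :
    IsIntegral T c := by
  obtain ⟨p, hpm, hp⟩ := hc
  refine ⟨p.map (Subalgebra.inclusion h).toRingHom, hpm.map _, ?_⟩
  rw [eval₂_map]
  exact hp

namespace LND

variable (E E' : LND A)

/-- In transcendence degree two the kernel of a nonzero LND is algebraic over `ℂ[a]`, for any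
non-constant `a` in the kernel. -/
lemma ker_algebraic (htr : Algebra.trdeg ℂ A = 2) (hE : E.D ≠ 0) {a b : A}
    (ha : Transcendental ℂ a) (haE : E.D a = 0) (hbE : E.D b = 0) :
    IsAlgebraic (Algebra.adjoin ℂ {a}) b := by
  by_contra hb
  apply hE
  ext c
  simp only [Derivation.coe_zero, Pi.zero_apply]
  apply E.mem_ker_of_isAlgebraic
  refine isAlgebraic_of_le ?_ (isAlgebraic_of_trdeg_two htr ha hb c)
  rw [Algebra.adjoin_le_iff]
  rintro x (rfl | rfl)
  · exact haE
  · exact hbE

/-- `κ` is injective on elements algebraic over `ℂ[a]` if `κ a` is nonconstant. -/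
lemma eq_zero_of_map_eq_zero {a b : A} (κ : A →ₐ[ℂ] ℂ[X]) (hκ : 0 < (κ a).natDegree)
    (hb : IsAlgebraic (Algebra.adjoin ℂ {a}) b) (h0 : κ b = 0) : b = 0 := by
  by_contra hb0
  obtain ⟨r, hr0, s, hs⟩ := hb.exists_nonzero_dvd (mem_nonZeroDivisors_of_ne_zero hb0)
  have hr : κ (r : A) = 0 := by
    have : algebraMap (Algebra.adjoin ℂ {a}) A r = (r : A) := rfl
    rw [← this, hs, map_mul, h0, zero_mul]
  obtain ⟨p, hp⟩ := (Algebra.adjoin_singleton_eq_range_aeval ℂ a ▸ r.2 :
    (r : A) ∈ (aeval a : ℂ[X] →ₐ[ℂ] A).range)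
  have hp' : aeval (κ a) p = 0 := by
    have h1 : κ (aeval a p) = 0 := by
      have : (aeval a p : A) = r := hp
      rw [this, hr]
    rwa [← aeval_algHom_apply] at h1
  have hp0 : p = 0 := by
    rw [← Polynomial.comp_eq_aeval] at hp'
    rcases Polynomial.comp_eq_zero_iff.1 hp' with h | h
    · exact h
    · rw [h.2, natDegree_C] at hκ
      exact absurd hκ (lt_irrefl _)
  apply hr0
  apply Subtype.ext
  have : (aeval a p : A) = r := hp
  rw [← this, hp0, map_zero]
  rfl

/-- every polynomial is integral over `ℂ[g]` for a nonconstant polynomial `g` -/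
lemma isIntegral_poly {g : ℂ[X]} (hg : 0 < g.natDegree) (q : ℂ[X]) :
    IsIntegral (Algebra.adjoin ℂ {g}) q := by
  set S := Algebra.adjoin ℂ {g}
  have hX : IsIntegral S (X : ℂ[X]) := by
    -- the monic polynomial `lc⁻¹ (g(Y) - g)`
    let gS : S := ⟨g, Algebra.subset_adjoin rfl⟩
    have hlc : g.leadingCoeff ≠ 0 := by
      rw [Ne, leadingCoeff_eq_zero]; rintro rfl; simp at hg
    let P : S[X] := C (algebraMap ℂ S g.leadingCoeff⁻¹) * (g.map (algebraMap ℂ S) - C gS)
    have hinj : Function.Injective (algebraMap ℂ S) := FaithfulSMul.algebraMap_injective ℂ S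
    have hdeg : (g.map (algebraMap ℂ S)).natDegree = g.natDegree :=
      Polynomial.natDegree_map_eq_of_injective hinj g
    have hlead : (g.map (algebraMap ℂ S) - C gS).leadingCoeff = algebraMap ℂ S g.leadingCoeff := by
      rw [Polynomial.leadingCoeff_sub_of_degree_lt, Polynomial.leadingCoeff_map_of_injective hinj]
      refine lt_of_le_of_lt degree_C_le ?_
      rw [← natDegree_pos_iff_degree_pos, hdeg]
      exact hg
    refine ⟨P, ?_, ?_⟩
    · rw [Monic, leadingCoeff_mul, leadingCoeff_C, hlead, ← map_mul,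
        inv_mul_cancel₀ hlc, map_one]
    · simp only [P, eval₂_mul, eval₂_sub, eval₂_C, eval₂_map]
      have h1 : eval₂ ((algebraMap S ℂ[X]).comp (algebraMap ℂ S)) X g = g := by
        have : (algebraMap S ℂ[X]).comp (algebraMap ℂ S) = algebraMap ℂ ℂ[X] := rfl
        rw [this]
        exact Polynomial.aeval_X_left_apply g
      rw [h1]
      have : algebraMap S ℂ[X] gS = g := rfl
      rw [this, sub_self, mul_zero]
  have : q ∈ (integralClosure S ℂ[X]) := by
    rw [← Polynomial.aeval_X_left_apply q]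
    rw [Polynomial.aeval_eq_sum_range]
    refine Subalgebra.sum_mem _ fun i _ => ?_
    rw [Algebra.smul_def]
    refine Subalgebra.mul_mem _ ?_ (Subalgebra.pow_mem _ hX i)
    exact (integralClosure S ℂ[X]).algebraMap_mem (algebraMap ℂ S (q.coeff i))
  exact this

/-- In transcendence degree two, the kernel is integral over `ℂ[a]`. -/
lemma ker_integral (htr : Algebra.trdeg ℂ A = 2) (hE : E.D ≠ 0) {a b : A}
    (ha : Transcendental ℂ a) (haE : E.D a = 0) (hbE : E.D b = 0)
    (κ : A →ₐ[ℂ] ℂ[X]) (hκ : 0 < (κ a).natDegree) :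
    IsIntegral (Algebra.adjoin ℂ {a}) b := by
  obtain ⟨P, hPm, hP⟩ := isIntegral_poly hκ (κ b)
  -- lift the coefficients
  have hlift : ∀ s : Algebra.adjoin ℂ {κ a}, ∃ t : Algebra.adjoin ℂ {a}, κ t = s := by
    intro s
    obtain ⟨p, hp⟩ := (Algebra.adjoin_singleton_eq_range_aeval ℂ (κ a) ▸ s.2 :
      (s : ℂ[X]) ∈ (aeval (κ a) : ℂ[X] →ₐ[ℂ] ℂ[X]).range)
    refine ⟨⟨aeval a p, ?_⟩, ?_⟩
    · rw [Algebra.adjoin_singleton_eq_range_aeval]; exact ⟨p, rfl⟩
    · change κ (aeval a p) = s
      rw [← aeval_algHom_apply]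
      exact hp
  let φ : Algebra.adjoin ℂ {a} →+* Algebra.adjoin ℂ {κ a} :=
    { toFun := fun t => ⟨κ t, by
        obtain ⟨p, hp⟩ := (Algebra.adjoin_singleton_eq_range_aeval ℂ a ▸ t.2 :
          (t : A) ∈ (aeval a : ℂ[X] →ₐ[ℂ] A).range)
        have hp' : (aeval a p : A) = t := hp
        rw [← hp', ← aeval_algHom_apply, Algebra.adjoin_singleton_eq_range_aeval]
        exact ⟨p, rfl⟩⟩
      map_one' := by ext; simp
      map_mul' := by intro x y; ext; simp
      map_zero' := by ext; simp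
      map_add' := by intro x y; ext; simp }
  have hφ : Function.Surjective φ := by
    intro s
    obtain ⟨t, ht⟩ := hlift s
    exact ⟨t, Subtype.ext ht⟩
  have hlifts : P ∈ Polynomial.lifts φ := by
    rw [Polynomial.lifts_iff_coeff_lifts]
    intro n
    obtain ⟨t, ht⟩ := hφ (P.coeff n)
    exact ⟨t, ht⟩
  obtain ⟨Q, hQ, -, hQm⟩ := Polynomial.lifts_and_natDegree_eq_and_monic hlifts hPm
  refine ⟨Q, hQm, ?_⟩
  set v := eval₂ (algebraMap (Algebra.adjoin ℂ {a}) A) b Q with hv
  have hle : Algebra.adjoin ℂ {a} ≤ E.ker := by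
    rw [Algebra.adjoin_le_iff]
    rintro x rfl
    exact haE
  have hvker : E.D v = 0 := by
    rw [← mem_ker, hv, eval₂_eq_sum_range]
    refine Subalgebra.sum_mem _ fun i _ => Subalgebra.mul_mem _ (hle (Q.coeff i).2)
      (Subalgebra.pow_mem _ hbE i)
  refine eq_zero_of_map_eq_zero κ hκ (E.ker_algebraic htr hE ha haE hvker) ?_
  have : κ v = eval₂ (algebraMap (Algebra.adjoin ℂ {κ a}) ℂ[X]) (κ b) P := by
    rw [hv, ← hQ, eval₂_map]
    change (κ : A →+* ℂ[X]) _ = _
    rw [hom_eval₂]
    rfl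
  rw [this]
  exact hP

end LND

end Pool.Agent.RR
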