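import Pool.Agent.RR.Dim2

/-!
# Transcendence degree two: integrality over two kernel elements, intersections of orbits
-/

set_option autoImplicit false

open Polynomial

namespace Pool.Agent.RR

variable {A : Type*} [CommRing A] [IsDomain A] [Algebra ℂ A]

lemma isIntegral_trans_sub {S : Subalgebra ℂ A} {O : Subalgebra ℂ A}
    (hO : ∀ x ∈ O, IsIntegral S x) {c : A} (hc : IsIntegral O c) : IsIntegral S c := by
  -- coefficients in `O` lie in the integral closure of `S`
  obtain ⟨p, hpm, hp⟩ := hc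
  let ι : O →+* integralClosure S A :=
    { toFun := fun x => ⟨x, hO x x.2⟩
      map_one' := rfl
      map_mul' := fun _ _ => rfl
      map_zero' := rfl
      map_add' := fun _ _ => rfl }
  have h1 : IsIntegral (integralClosure S A) c := by
    refine ⟨p.map ι, hpm.map _, ?_⟩
    rw [eval₂_map]
    exact hp
  exact isIntegral_trans (A := integralClosure S A) c h1

namespace LND

variable (E E' : LND A)

/-- For a subalgebra `S` over which the kernel is integral and containing an element `a₂` outside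
of the kernel, every element of `A` becomes integral over `S` after multiplication by a nonzero
kernel element. -/
lemma exists_ker_mul_integral {S : Subalgebra ℂ A} (hS : ∀ x, E.D x = 0 → IsIntegral S x)
    {a₂ : A} (ha₂S : IsIntegral S a₂) (ha₂ : E.D a₂ ≠ 0) (b : A) :
    ∃ e : A, e ≠ 0 ∧ E.D e = 0 ∧ IsIntegral S (e * b) := by
  obtain ⟨n, hn1, hn2⟩ := E.exists_local_slice ha₂
  set r := (⇑E.D)^[n] a₂
  set u := E.D r with hu
  obtain ⟨m₂, hm₂⟩ := E.nil a₂
  obtain ⟨m, hm⟩ := E.nil b
  obtain ⟨M₂, q, hq⟩ := E.exists_slice_repr hu.symm hn2 m₂ a₂ hm₂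
  obtain ⟨M, p, hp⟩ := E.exists_slice_repr hu.symm hn2 m b hm
  have hupow : ∀ k, E.D (u ^ k) = 0 := fun k => by
    rw [Derivation.leibniz_pow, hn2]; simp
  have hinj : Function.Injective (algebraMap E.ker A) := Subtype.coe_injective
  -- the degree of `q` is positive
  have hqdeg : 0 < q.natDegree := by
    by_contra h0
    have h0' : q.natDegree = 0 := by omega
    rw [eq_C_of_natDegree_eq_zero h0', aeval_C] at hq
    have hz : E.D (u ^ M₂ * a₂) = 0 := by
      rw [← hq]; exact (q.coeff 0).2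
    have hne : u ^ M₂ * a₂ ≠ 0 := by
      refine mul_ne_zero (pow_ne_zero _ hn1) ?_
      rintro rfl
      simp at ha₂
    exact ha₂ (E.ker_of_mul hne hz).2
  set ε : A := ((q.leadingCoeff : E.ker) : A) with hε
  have hε0 : ε ≠ 0 := by
    intro h
    have : q.leadingCoeff = 0 := Subtype.ext h
    rw [leadingCoeff_eq_zero] at this
    rw [this] at hqdeg
    simp at hqdeg
  have hεker : E.D ε = 0 := q.leadingCoeff.2
  -- `ε * r` is integral
  have hr : IsIntegral S (ε * r) := by
    let ι : E.ker →+* integralClosure S A :=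
      { toFun := fun x => ⟨x, hS x x.2⟩
        map_one' := rfl
        map_mul' := fun _ _ => rfl
        map_zero' := rfl
        map_add' := fun _ _ => rfl }
    have hι : Function.Injective ι := by
      intro x y h
      exact Subtype.ext (congrArg (fun z : integralClosure S A => (z : A)) h)
    let w : integralClosure S A :=
      ⟨u ^ M₂ * a₂, (integralClosure S A).mul_mem (hS _ (hupow M₂)) ha₂S⟩
    let P : (integralClosure S A)[X] := q.map ι - C w
    have hdeg : (q.map ι).natDegree = q.natDegree := natDegree_map_eq_of_injective hι q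
    have hlead : P.leadingCoeff = ι q.leadingCoeff := by
      rw [Polynomial.leadingCoeff_sub_of_degree_lt, Polynomial.leadingCoeff_map_of_injective hι]
      refine lt_of_le_of_lt degree_C_le ?_
      rw [← natDegree_pos_iff_degree_pos, hdeg]
      exact hqdeg
    have hroot : aeval r P = 0 := by
      have h1 : aeval r (q.map ι) = aeval r q := by
        rw [aeval_def, eval₂_map]; rfl
      have h2 : aeval r (C w) = u ^ M₂ * a₂ := by
        rw [aeval_C]; rfl
      have h3 : aeval r P = aeval r (q.map ι) - aeval r (C w) := by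
        simp only [P, aeval_def, eval₂_sub]
      rw [h3, h1, h2, hq, sub_self]
    have h := isIntegral_leadingCoeff_smul P r hroot
    rw [hlead] at h
    have h2 : (ι q.leadingCoeff) • r = ε * r := rfl
    rw [h2] at h
    exact isIntegral_trans (A := integralClosure S A) _ h
  refine ⟨ε ^ p.natDegree * u ^ M, ?_, ?_, ?_⟩
  · exact mul_ne_zero (pow_ne_zero _ hε0) (pow_ne_zero _ hn1)
  · have : E.D (ε ^ p.natDegree) = 0 := by rw [Derivation.leibniz_pow, hεker]; simp
    rw [Derivation.leibniz, this, hupow]; simp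
  · rw [mul_assoc, ← hp, aeval_eq_sum_range, Finset.mul_sum]
    change _ ∈ integralClosure S A
    refine Subalgebra.sum_mem _ fun i hi => ?_
    have hi' : i ≤ p.natDegree := by
      have := Finset.mem_range.1 hi; omega
    have : ε ^ p.natDegree * (p.coeff i • r ^ i) =
        ((p.coeff i : E.ker) : A) * ε ^ (p.natDegree - i) * (ε * r) ^ i := by
      have h1 : p.coeff i • r ^ i = ((p.coeff i : E.ker) : A) * r ^ i := rfl
      have h2 : ε ^ p.natDegree = ε ^ (p.natDegree - i) * ε ^ i := by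
        rw [← pow_add]; congr 1; omega
      rw [h1, h2, mul_pow]
      ring
    rw [this]
    exact Subalgebra.mul_mem _ (Subalgebra.mul_mem _ (hS _ (p.coeff i).2)
      (Subalgebra.pow_mem _ (hS _ hεker) _)) (Subalgebra.pow_mem _ hr _)

/-- A nonzero kernel element divides a nonzero polynomial in `a` (with quotient in the kernel). -/
lemma exists_ker_mul_eq_poly (htr : Algebra.trdeg ℂ A = 2) (hE : E.D ≠ 0) {a e : A}
    (ha : Transcendental ℂ a) (haE : E.D a = 0) (heE : E.D e = 0) (he : e ≠ 0) :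
    ∃ (e' : A) (c : ℂ[X]), c ≠ 0 ∧ E.D e' = 0 ∧ e' * e = aeval a c := by
  obtain ⟨s, hs0, e', hs⟩ := (E.ker_algebraic htr hE ha haE heE).exists_nonzero_dvd
    (mem_nonZeroDivisors_of_ne_zero he)
  obtain ⟨c, hc⟩ := (Algebra.adjoin_singleton_eq_range_aeval ℂ a ▸ s.2 :
      (s : A) ∈ (aeval a : ℂ[X] →ₐ[ℂ] A).range)
  have hc' : aeval a c = (s : A) := hc
  have hs' : (s : A) = e * e' := hs
  have hsne : (s : A) ≠ 0 := fun h => hs0 (Subtype.ext h)
  have hle : Algebra.adjoin ℂ {a} ≤ E.ker := by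
    rw [Algebra.adjoin_le_iff]
    rintro x rfl
    exact haE
  have hsker : E.D (s : A) = 0 := hle s.2
  refine ⟨e', c, ?_, ?_, ?_⟩
  · rintro rfl
    rw [map_zero] at hc'
    exact hsne hc'.symm
  · exact (E.ker_of_mul (a := e) (b := e') (hs' ▸ hsne) (hs' ▸ hsker)).2
  · rw [hc', hs', mul_comm]

end LND

/-- Data of two LNDs with algebraically independent kernel elements. -/
structure TwoLND (A : Type*) [CommRing A] [IsDomain A] [Algebra ℂ A] where
  /-- first derivation -/
  E₁ : LND A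
  /-- second derivation -/
  E₂ : LND A
  /-- kernel element of the first -/
  a₁ : A
  /-- kernel element of the second -/
  a₂ : A
  htr : Algebra.trdeg ℂ A = 2
  h₁ : Transcendental ℂ a₁
  h₂ : Transcendental ℂ a₂
  k₁ : E₁.D a₁ = 0
  k₂ : E₂.D a₂ = 0
  n₁ : E₁.D a₂ ≠ 0
  n₂ : E₂.D a₁ ≠ 0
  /-- a complex point at which things are nondegenerate -/
  χ₁ : A →ₐ[ℂ] ℂ
  /-- a complex point at which things are nondegenerate -/
  χ₂ : A →ₐ[ℂ] ℂ
  /-- `a₂` is nonconstant along the `E₁`-orbit of `χ₁` -/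
  o₁ : 0 < (E₁.orb χ₁ a₂).natDegree
  /-- `a₁` is nonconstant along the `E₂`-orbit of `χ₂` -/
  o₂ : 0 < (E₂.orb χ₂ a₁).natDegree

namespace TwoLND

variable (T : TwoLND A)

lemma E₁_ne : T.E₁.D ≠ 0 := fun h => T.n₁ (by rw [h]; rfl)
lemma E₂_ne : T.E₂.D ≠ 0 := fun h => T.n₂ (by rw [h]; rfl)

/-- swap the roles -/
def swap : TwoLND A where
  E₁ := T.E₂
  E₂ := T.E₁
  a₁ := T.a₂
  a₂ := T.a₁
  htr := T.htr
  h₁ := T.h₂
  h₂ := T.h₁
  k₁ := T.k₂
  k₂ := T.k₁
  n₁ := T.n₂
  n₂ := T.n₁
  χ₁ := T.χ₂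
  χ₂ := T.χ₁
  o₁ := T.o₂
  o₂ := T.o₁

lemma ker₁_integral {b : A} (hb : T.E₁.D b = 0) : IsIntegral (Algebra.adjoin ℂ {T.a₁}) b :=
  T.E₁.ker_integral T.htr T.E₁_ne T.h₁ T.k₁ hb (T.E₂.orb T.χ₂) T.o₂

lemma mul_integral (b : A) :
    ∃ c : ℂ[X], c ≠ 0 ∧ IsIntegral (Algebra.adjoin ℂ {T.a₁, T.a₂}) (aeval T.a₁ c * b) := by
  have hS : ∀ x, T.E₁.D x = 0 → IsIntegral (Algebra.adjoin ℂ {T.a₁, T.a₂}) x := fun x hx =>
    isIntegral_of_le (Algebra.adjoin_mono (by simp)) (T.ker₁_integral hx)
  have ha₂ : IsIntegral (Algebra.adjoin ℂ {T.a₁, T.a₂}) T.a₂ :=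
    isIntegral_algebraMap (x := (⟨T.a₂, Algebra.subset_adjoin (by simp)⟩ :
      Algebra.adjoin ℂ {T.a₁, T.a₂}))
  obtain ⟨e, he0, heker, he⟩ := T.E₁.exists_ker_mul_integral hS ha₂ T.n₁ b
  obtain ⟨e', c, hc0, he'ker, hec⟩ :=
    T.E₁.exists_ker_mul_eq_poly T.htr T.E₁_ne T.h₁ T.k₁ heker he0
  refine ⟨c, hc0, ?_⟩
  rw [← hec, mul_assoc]
  exact (hS e' he'ker).mul he

/-- the ring homomorphism `ℂ[X][Y] → A`, `X ↦ a₁`, `Y ↦ a₂` -/
noncomputable def f : ℂ[X][X] →+* A := eval₂RingHom (aeval T.a₁ : ℂ[X] →ₐ[ℂ] A).toRingHom T.a₂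

lemma f_C (c : ℂ[X]) : T.f (C c) = aeval T.a₁ c := by
  simp [f]

lemma f_map_C (c : ℂ[X]) : T.f (c.map C) = aeval T.a₂ c := by
  simp only [f, coe_eval₂RingHom, eval₂_map, aeval_def]
  congr 1
  ext z
  simp

lemma f_injective : Function.Injective T.f := by
  rw [injective_iff_map_eq_zero]
  intro P hP
  -- `a₂` is transcendental over `ℂ[a₁]`
  have ht : Transcendental (Algebra.adjoin ℂ {T.a₁}) T.a₂ := by
    intro halg
    apply T.n₁
    apply T.E₁.mem_ker_of_isAlgebraic
    refine isAlgebraic_of_le ?_ halg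
    rw [Algebra.adjoin_le_iff]
    rintro x rfl
    exact T.k₁
  by_contra hP0
  apply ht
  let φ : ℂ[X] →+* Algebra.adjoin ℂ {T.a₁} :=
    { toFun := fun c => ⟨aeval T.a₁ c, by
        rw [Algebra.adjoin_singleton_eq_range_aeval]; exact ⟨c, rfl⟩⟩
      map_one' := by ext; simp
      map_mul' := by intro x y; ext; simp
      map_zero' := by ext; simp
      map_add' := by intro x y; ext; simp }
  have hφ : Function.Injective φ := by
    rw [injective_iff_map_eq_zero]
    intro c hc
    have : aeval T.a₁ c = 0 := congrArg (fun z : Algebra.adjoin ℂ {T.a₁} => (z : A)) hc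
    by_contra hc0
    exact T.h₁ ⟨c, hc0, this⟩
  refine ⟨P.map φ, ?_, ?_⟩
  · intro h
    exact hP0 ((Polynomial.map_eq_zero_iff hφ).1 h)
  · rw [aeval_def, eval₂_map]
    exact hP

/-- **Key integrality**: `A` is integral over `ℂ[a₁, a₂]`. -/
theorem integral (b : A) : IsIntegral (Algebra.adjoin ℂ {T.a₁, T.a₂}) b := by
  obtain ⟨c, hc0, hc⟩ := T.mul_integral b
  obtain ⟨d, hd0, hd⟩ := T.swap.mul_integral b
  have hset : ({T.swap.a₁, T.swap.a₂} : Set A) = {T.a₁, T.a₂} := by
    ext x; simp [swap, or_comm]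
  rw [hset] at hd
  set S := Algebra.adjoin ℂ {T.a₁, T.a₂} with hS
  letI : Algebra ℂ[X][X] A := T.f.toAlgebra
  have hmap : ∀ P : ℂ[X][X], algebraMap ℂ[X][X] A P = T.f P := fun _ => rfl
  haveI : FaithfulSMul ℂ[X][X] A := (faithfulSMul_iff_algebraMap_injective _ _).2 T.f_injective
  haveI : Module.IsTorsionFree ℂ[X][X] A := by infer_instance
  -- `S` is contained in the range of `f`, hence integral over it
  have hSf : ∀ x ∈ S, ∃ P, T.f P = x := by
    intro x hx
    have : S ≤ { T.f.range with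
        algebraMap_mem' := fun z => ⟨C (C z), by
          rw [T.f_C, aeval_C]⟩ } := by
      rw [hS, Algebra.adjoin_le_iff]
      rintro y (rfl | rfl)
      · exact ⟨C X, by rw [T.f_C, aeval_X]⟩
      · exact ⟨X, by simp [f]⟩
    exact this hx
  have htrans : ∀ x : A, IsIntegral S x → IsIntegral ℂ[X][X] x := by
    rintro x ⟨p, hpm, hp⟩
    choose g hg using hSf
    have hsurj : ∀ s : S, ∃ P, T.f P = s := fun s => ⟨g s s.2, hg s s.2⟩
    -- the map `ℂ[X][Y] → S`
    let φ : ℂ[X][X] →+* S :=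
      { toFun := fun P => ⟨T.f P, by
          -- `T.f P ∈ S`
          rw [f, coe_eval₂RingHom, eval₂_eq_sum_range]
          refine Subalgebra.sum_mem _ fun i _ => Subalgebra.mul_mem _ ?_
            (Subalgebra.pow_mem _ (Algebra.subset_adjoin (by simp)) _)
          have hle : Algebra.adjoin ℂ {T.a₁} ≤ S := Algebra.adjoin_mono (by simp)
          apply hle
          rw [Algebra.adjoin_singleton_eq_range_aeval]
          exact ⟨P.coeff i, rfl⟩⟩
        map_one' := by ext; simp
        map_mul' := by intro x y; ext; simp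
        map_zero' := by ext; simp
        map_add' := by intro x y; ext; simp }
    have hφ : Function.Surjective φ := by
      intro s
      obtain ⟨P, hP⟩ := hsurj s
      exact ⟨P, Subtype.ext hP⟩
    have hlifts : p ∈ Polynomial.lifts φ := by
      rw [Polynomial.lifts_iff_coeff_lifts]
      intro n
      exact hφ (p.coeff n)
    obtain ⟨Q, hQ, -, hQm⟩ := Polynomial.lifts_and_natDegree_eq_and_monic hlifts hpm
    refine ⟨Q, hQm, ?_⟩
    rw [← hQ, eval₂_map] at hp
    exact hp
  have hc' : IsIntegral ℂ[X][X] ((C c : ℂ[X][X]) • b) := by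
    rw [Algebra.smul_def, hmap, T.f_C]
    exact htrans _ hc
  have hd' : IsIntegral ℂ[X][X] ((d.map C : ℂ[X][X]) • b) := by
    rw [Algebra.smul_def, hmap, T.f_map_C]
    exact htrans _ hd
  have hb : IsIntegral ℂ[X][X] b :=
    isIntegral_of_relPrime (by simpa using hc0)
      (by
        rw [Ne, Polynomial.map_eq_zero_iff (Polynomial.C_injective)]
        exact hd0)
      (relPrime_C_map hc0 hd0) hc' hd'
  obtain ⟨p, hpm, hp⟩ := hb
  -- push the coefficients to `S`
  have hfS : ∀ P : ℂ[X][X], T.f P ∈ S := by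
    intro P
    rw [f, coe_eval₂RingHom, eval₂_eq_sum_range]
    refine Subalgebra.sum_mem _ fun i _ => Subalgebra.mul_mem _ ?_
      (Subalgebra.pow_mem _ (Algebra.subset_adjoin (by simp)) _)
    have hle : Algebra.adjoin ℂ {T.a₁} ≤ S := Algebra.adjoin_mono (by simp)
    apply hle
    rw [Algebra.adjoin_singleton_eq_range_aeval]
    exact ⟨P.coeff i, rfl⟩
  let φ : ℂ[X][X] →+* S :=
    { toFun := fun P => ⟨T.f P, hfS P⟩
      map_one' := by ext; simp
      map_mul' := by intro x y; ext; simp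
      map_zero' := by ext; simp
      map_add' := by intro x y; ext; simp }
  refine ⟨p.map φ, hpm.map _, ?_⟩
  rw [eval₂_map]
  exact hp

end TwoLND

end Pool.Agent.RR
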