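import Pool.Agent.RR.Span

/-!
# The kernels generate: stability under all LNDs, and dimension two
-/

set_option autoImplicit false

open Polynomial

namespace Pool.Agent.RR

variable {A : Type*} [CommRing A] [IsDomain A] [Algebra ℂ A]

omit [IsDomain A] in
lemma mem_HD_of_ker {E : LND A} (hE : E.D ≠ 0) {f : A} (hf : E.D f = 0) : f ∈ HD A :=
  Algebra.subset_adjoin ⟨E, hE, hf⟩

omit [IsDomain A] in
/-- a polynomial curve in a subspace has its coefficients in the subspace -/
lemma PC.mem_of_forall {F : ℂ → A} {a b : A} (hF : PC F a b) {V : Submodule ℂ A}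
    (h : ∀ t, F t ∈ V) : b ∈ V := by
  by_contra hb
  obtain ⟨θ, hθ, hV⟩ := Submodule.exists_le_ker_of_notMem hb
  obtain ⟨P, hP, -, hP1⟩ := hF.functional θ
  have hP0 : P = 0 := poly_eq_zero_of_forall fun t => by
    rw [← hP]
    exact LinearMap.mem_ker.1 (hV (h t))
  apply hθ
  rw [← hP1, hP0, coeff_zero]

omit [IsDomain A] in
lemma pc_const (a : A) : PC (fun _ => a) a 0 := ⟨C a, fun t => by simp, by simp, by simp⟩

/-- The algebra generated by the kernels is stable under all LNDs. -/
theorem HD_stable [Algebra.FiniteType ℂ A] : StableAlg (HD A) := by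
  intro E b hb
  refine Algebra.adjoin_induction (p := fun b _ => E.D b ∈ HD A) ?_ ?_ ?_ ?_ hb
  · rintro f ⟨E', hE', hf⟩
    have h1 : PC (fun t => E.expHom t f) f (0 + E.D f) := (pc_const f).expHom E
    rw [zero_add] at h1
    refine h1.mem_of_forall (V := Subalgebra.toSubmodule (HD A)) fun t => ?_
    have h2 : conjD (E.expEquiv t) E'.D (E.expEquiv t f) = 0 := by
      rw [conjD_apply, AlgEquiv.symm_apply_apply, hf, _root_.map_zero]
    exact mem_HD_of_ker (E := E'.conj (E.expEquiv t)) (conjD_ne_zero hE') h2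
  · intro r
    rw [Derivation.map_algebraMap]
    exact Subalgebra.zero_mem _
  · intro x y _ _ hx hy
    rw [_root_.map_add]
    exact Subalgebra.add_mem _ hx hy
  · intro x y hx' hy' hx hy
    rw [Derivation.leibniz]
    exact Subalgebra.add_mem _ (Subalgebra.mul_mem _ hx' hy) (Subalgebra.mul_mem _ hy' hx)

/-- If the coordinate ring is integral over the algebra generated by the kernels, then they are
equal (as soon as some LND is nonzero). -/
theorem HD_eq_top_of_isIntegral [Algebra.FiniteType ℂ A] {n : ℕ} (hn : 0 < n)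
    (htr : Algebra.trdeg ℂ A = n) (hflex : FlexAlg A n) (E : LND A) (hE : E.D ≠ 0)
    (hint : ∀ b : A, IsIntegral (HD A) b) : HD A = ⊤ := by
  have hstab := HD_stable (A := A)
  -- a slice in the algebra
  have hex : ∃ f ∈ HD A, E.D f ≠ 0 := by
    by_contra hcon
    push Not at hcon
    apply hE
    ext b
    rw [Derivation.coe_zero, Pi.zero_apply]
    have h1 : ∀ x, x ∈ HD A → x ∈ E.ker := fun x hx => hcon x hx
    apply E.mem_ker_of_isAlgebraic
    exact isAlgebraic_of_le h1 (hint b).isAlgebraic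
  obtain ⟨f, hf, hEf⟩ := hex
  obtain ⟨r, hrB, hr1, hr2, huB, -⟩ := hstab.exists_slice E hf hEf
  have hpow : ∀ b : A, ∃ M, (E.D r) ^ M * b ∈ HD A := by
    intro b
    obtain ⟨m, hm⟩ := E.nil b
    obtain ⟨M, p, hp⟩ := E.exists_slice_repr rfl hr2 m b hm
    refine ⟨M, ?_⟩
    rw [← hp, aeval_eq_sum_range]
    refine Subalgebra.sum_mem _ fun i _ => ?_
    have h1 : p.coeff i • r ^ i = ((p.coeff i : E.ker) : A) * r ^ i := rfl
    rw [h1]
    exact Subalgebra.mul_mem _ (mem_HD_of_ker hE (p.coeff i).2) (Subalgebra.pow_mem _ hrB _)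
  have hintA : Algebra.IsIntegral (HD A) A := ⟨hint⟩
  have hft : Algebra.FiniteType (HD A) A :=
    Algebra.FiniteType.of_restrictScalars_finiteType ℂ (HD A) A
  have hfin : Module.Finite (HD A) A := Algebra.IsIntegral.finite
  obtain ⟨s, hs⟩ := hfin.fg_top
  choose M hM using hpow
  let N := s.sup M
  have hN : ∀ b : A, (E.D r) ^ N * b ∈ HD A := by
    intro b
    have hb : b ∈ Submodule.span (HD A) (s : Set A) := by rw [hs]; trivial
    refine Submodule.span_induction (p := fun b _ => (E.D r) ^ N * b ∈ HD A) ?_ ?_ ?_ ?_ hb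
    · intro x hx
      have hle : M x ≤ N := Finset.le_sup hx
      obtain ⟨k, hk⟩ := Nat.exists_eq_add_of_le hle
      rw [hk, add_comm, pow_add, mul_assoc]
      exact Subalgebra.mul_mem _ (Subalgebra.pow_mem _ huB _) (hM x)
    · rw [mul_zero]; exact Subalgebra.zero_mem _
    · intro x y _ _ hx hy
      rw [mul_add]; exact Subalgebra.add_mem _ hx hy
    · intro c x _ hx
      have : (E.D r) ^ N * (c • x) = (c : A) * ((E.D r) ^ N * x) := by
        have h : c • x = (c : A) * x := rfl
        rw [h]; ring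
      rw [this]
      exact Subalgebra.mul_mem _ c.2 hx
  exact subalgebra_eq_top_of_stable hn htr hflex hstab (pow_ne_zero N hr1) hN

/-- In transcendence degree two the kernels generate. -/
theorem HD_eq_top_of_two [Algebra.FiniteType ℂ A] (T : TwoLND A) (hflex : FlexAlg A 2) :
    HD A = ⊤ := by
  refine HD_eq_top_of_isIntegral (n := 2) (by norm_num) (by rw [T.htr]; rfl) hflex T.E₁ T.E₁_ne ?_
  intro b
  refine isIntegral_of_le ?_ (T.integral b)
  rw [Algebra.adjoin_le_iff]
  rintro x (rfl | rfl)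
  · exact mem_HD_of_ker T.E₁_ne T.k₁
  · exact mem_HD_of_ker T.E₂_ne T.k₂

end Pool.Agent.RR
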