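import Pool.Agent.RR.Orbits

/-!
# Coefficient sets of iterated exponentials, one-parameter families of automorphisms
-/

set_option autoImplicit false

open Polynomial

namespace Pool.Agent.RR

section general

variable {A : Type*} [CommRing A] [Algebra ℂ A]

/-- all the coefficients of iterated exponentials of `a` -/
def Cset (a : A) : List (LND A) → Set A
  | [] => {a}
  | (E :: L) => {y | ∃ x ∈ Cset a L, ∃ k, y = E.c x k}

/-- the coefficients of nonconstant monomials in the iterated exponentials of `a` -/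
def Cpos (a : A) : List (LND A) → Set A
  | [] => ∅
  | (E :: L) => {y | (∃ x ∈ Cpos a L, ∃ k, y = E.c x k) ∨
      (∃ x ∈ Cset a L, ∃ k, 1 ≤ k ∧ y = E.c x k)}

lemma self_mem_Cset (a : A) (L : List (LND A)) : a ∈ Cset a L := by
  induction L with
  | nil => exact rfl
  | cons E L ih => exact ⟨a, ih, 0, (E.c_zero a).symm⟩

lemma Cset_subset_append_left (a : A) (L L' : List (LND A)) : Cset a L ⊆ Cset a (L ++ L') := by
  induction L with
  | nil => rintro x rfl; exact self_mem_Cset _ _
  | cons E L ih =>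
    rintro y ⟨x, hx, k, rfl⟩
    exact ⟨x, ih hx, k, rfl⟩

lemma Cset_subset_append_right (a : A) (L L' : List (LND A)) : Cset a L' ⊆ Cset a (L ++ L') := by
  induction L with
  | nil => exact subset_rfl
  | cons E L ih =>
    intro y hy
    exact ⟨y, ih hy, 0, (E.c_zero y).symm⟩

lemma Cpos_subset_append_left (a : A) (L L' : List (LND A)) : Cpos a L ⊆ Cpos a (L ++ L') := by
  induction L with
  | nil => rintro x hx; exact absurd hx (Set.notMem_empty x)
  | cons E L ih =>
    rintro y (⟨x, hx, k, rfl⟩ | ⟨x, hx, k, hk, rfl⟩)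
    · exact Or.inl ⟨x, ih hx, k, rfl⟩
    · exact Or.inr ⟨x, Cset_subset_append_left a L L' hx, k, hk, rfl⟩

lemma Cpos_subset_append_right (a : A) (L L' : List (LND A)) : Cpos a L' ⊆ Cpos a (L ++ L') := by
  induction L with
  | nil => exact subset_rfl
  | cons E L ih =>
    intro y hy
    exact Or.inl ⟨y, ih hy, 0, (E.c_zero y).symm⟩

/-- the algebra generated by all coefficients -/
def Calg (a : A) : Subalgebra ℂ A := Algebra.adjoin ℂ (⋃ L, Cset a L)

/-- the ideal generated by all positive coefficients -/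
def Cideal (a : A) : Ideal A := Ideal.span (⋃ L, Cpos a L)

lemma Cset_subset_Calg (a : A) (L : List (LND A)) : Cset a L ⊆ Calg a := fun _ hx =>
  Algebra.subset_adjoin (Set.mem_iUnion.2 ⟨L, hx⟩)

lemma self_mem_Calg (a : A) : a ∈ Calg a := Cset_subset_Calg a [] rfl

lemma Calg_stable (a : A) (E : LND A) : ∀ b ∈ Calg a, E.D b ∈ Calg a := by
  intro b hb
  refine Algebra.adjoin_induction (p := fun b _ => E.D b ∈ Calg a) ?_ ?_ ?_ ?_ hb
  · intro x hx
    obtain ⟨L, hL⟩ := Set.mem_iUnion.1 hx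
    have : E.c x 1 ∈ Cset a (E :: L) := ⟨x, hL, 1, rfl⟩
    have h2 := Cset_subset_Calg a _ this
    simpa [LND.c] using h2
  · intro r
    rw [Derivation.map_algebraMap]
    exact Subalgebra.zero_mem _
  · intro x y _ _ hx hy
    rw [_root_.map_add]
    exact Subalgebra.add_mem _ hx hy
  · intro x y hx' hy' hx hy
    rw [Derivation.leibniz]
    exact Subalgebra.add_mem _ (Subalgebra.mul_mem _ hx' hy) (Subalgebra.mul_mem _ hy' hx)

lemma Cideal_stable (a : A) (E : LND A) : E.Stable (Cideal a) := by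
  intro b hb
  refine Submodule.span_induction (p := fun b _ => E.D b ∈ Cideal a) ?_ ?_ ?_ ?_ hb
  · intro x hx
    obtain ⟨L, hL⟩ := Set.mem_iUnion.1 hx
    have : E.c x 1 ∈ Cpos a (E :: L) := Or.inl ⟨x, hL, 1, rfl⟩
    have h2 : E.c x 1 ∈ Cideal a := Ideal.subset_span (Set.mem_iUnion.2 ⟨_, this⟩)
    simpa [LND.c] using h2
  · simp
  · intro x y _ _ hx hy
    rw [_root_.map_add]
    exact Ideal.add_mem _ hx hy
  · intro f x hx' hx
    rw [smul_eq_mul, Derivation.leibniz, smul_eq_mul, smul_eq_mul]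
    exact Ideal.add_mem _ (Ideal.mul_mem_left _ _ hx) (Ideal.mul_mem_right _ _ hx')

lemma exists_list_of_mem_Calg {a b : A} (hb : b ∈ Calg a) :
    ∃ L, b ∈ Algebra.adjoin ℂ (Cset a L) := by
  refine Algebra.adjoin_induction (p := fun b _ => ∃ L, b ∈ Algebra.adjoin ℂ (Cset a L))
    ?_ ?_ ?_ ?_ hb
  · intro x hx
    obtain ⟨L, hL⟩ := Set.mem_iUnion.1 hx
    exact ⟨L, Algebra.subset_adjoin hL⟩
  · intro r
    exact ⟨[], Subalgebra.algebraMap_mem _ _⟩
  · rintro x y _ _ ⟨L, hL⟩ ⟨L', hL'⟩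
    exact ⟨L ++ L', Subalgebra.add_mem _
      (Algebra.adjoin_mono (Cset_subset_append_left a L L') hL)
      (Algebra.adjoin_mono (Cset_subset_append_right a L L') hL')⟩
  · rintro x y _ _ ⟨L, hL⟩ ⟨L', hL'⟩
    exact ⟨L ++ L', Subalgebra.mul_mem _
      (Algebra.adjoin_mono (Cset_subset_append_left a L L') hL)
      (Algebra.adjoin_mono (Cset_subset_append_right a L L') hL')⟩

lemma exists_list_of_mem_Cideal {a b : A} (hb : b ∈ Cideal a) :
    ∃ L, b ∈ Ideal.span (Cpos a L) := by
  refine Submodule.span_induction (p := fun b _ => ∃ L, b ∈ Ideal.span (Cpos a L))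
    ?_ ?_ ?_ ?_ hb
  · intro x hx
    obtain ⟨L, hL⟩ := Set.mem_iUnion.1 hx
    exact ⟨L, Ideal.subset_span hL⟩
  · exact ⟨[], Submodule.zero_mem _⟩
  · rintro x y _ _ ⟨L, hL⟩ ⟨L', hL'⟩
    exact ⟨L ++ L', Ideal.add_mem _
      (Ideal.span_mono (Cpos_subset_append_left a L L') hL)
      (Ideal.span_mono (Cpos_subset_append_right a L L') hL')⟩
  · rintro f x _ ⟨L, hL⟩
    exact ⟨L, Ideal.mul_mem_left _ _ hL⟩

lemma exists_list_adjoin_eq_top [Algebra.FiniteType ℂ A] {a : A} (h : Calg a = ⊤) :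
    ∃ L, Algebra.adjoin ℂ (Cset a L) = ⊤ := by
  classical
  obtain ⟨s, hs⟩ := (inferInstance : Algebra.FiniteType ℂ A).out
  have key : ∀ t : Finset A, ∃ L, (t : Set A) ⊆ Algebra.adjoin ℂ (Cset a L) := by
    intro t
    induction t using Finset.induction_on with
    | empty => exact ⟨[], by simp⟩
    | insert x t _ ih =>
      obtain ⟨L, hL⟩ := ih
      obtain ⟨L', hL'⟩ := exists_list_of_mem_Calg (a := a) (b := x) (by rw [h]; trivial)
      refine ⟨L ++ L', ?_⟩
      rw [Finset.coe_insert, Set.insert_subset_iff]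
      exact ⟨Algebra.adjoin_mono (Cset_subset_append_right a L L') hL',
        hL.trans (Algebra.adjoin_mono (Cset_subset_append_left a L L'))⟩
  obtain ⟨L, hL⟩ := key s
  refine ⟨L, ?_⟩
  rw [eq_top_iff, ← hs, Algebra.adjoin_le_iff]
  exact hL

/-- one step of the one-variable family -/
noncomputable def stepH (E : LND A) (w : ℕ) : A[X] →+* A[X] :=
  eval₂RingHom (((expand A w : A[X] →ₐ[A] A[X]) : A[X] →+* A[X]).comp (E.psi : A →+* A[X])) X

/-- the one-variable family on functions -/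
noncomputable def H : List (LND A × ℕ) → (A →+* A[X])
  | [] => C
  | ((E, w) :: L) => (stepH E w).comp (H L)

/-- the one-variable family on points -/
noncomputable def fam : List (LND A × ℕ) → ℂ → (A →ₐ[ℂ] ℂ) → (A →ₐ[ℂ] ℂ)
  | [], _, χ => χ
  | ((E, w) :: L), z, χ => fam L z (E.flow (z ^ w) χ)

lemma eval_map_stepH (E : LND A) (w : ℕ) (z : ℂ) (χ : A →ₐ[ℂ] ℂ) (P : A[X]) :
    ((stepH E w P).map (χ : A →+* ℂ)).eval z = (P.map (E.flow (z ^ w) χ : A →+* ℂ)).eval z := by
  have : ((evalRingHom z).comp (mapRingHom (χ : A →+* ℂ))).comp (stepH E w) =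
      (evalRingHom z).comp (mapRingHom (E.flow (z ^ w) χ : A →+* ℂ)) := by
    apply Polynomial.ringHom_ext
    · intro a
      simp only [RingHom.comp_apply, stepH, coe_eval₂RingHom, eval₂_C]
      simp only [coe_mapRingHom, coe_evalRingHom, map_C, eval_C, RingHom.coe_coe]
      rw [map_expand, expand_eval, LND.flow_apply]
      rfl
    · simp [stepH]
  exact congrFun (congrArg DFunLike.coe this) P

lemma fam_apply (L : List (LND A × ℕ)) (z : ℂ) (χ : A →ₐ[ℂ] ℂ) (a : A) :
    fam L z χ a = ((H L a).map (χ : A →+* ℂ)).eval z := by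
  induction L generalizing χ with
  | nil => simp [fam, H]
  | cons p L ih =>
    obtain ⟨E, w⟩ := p
    simp only [fam, H, RingHom.comp_apply]
    rw [ih, eval_map_stepH]

lemma coeff_stepH (E : LND A) {w : ℕ} {P : A[X]} (hw : P.natDegree < w) {j : ℕ} (hj : j < w)
    (k : ℕ) : (stepH E w P).coeff (w * k + j) = E.c (P.coeff j) k := by
  have hw0 : 0 < w := by omega
  rw [stepH, coe_eval₂RingHom, eval₂_eq_sum_range' _ hw, finsetSum_coeff,
    Finset.sum_eq_single j]
  · rw [coeff_mul_X_pow, RingHom.comp_apply]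
    have : (((expand A w : A[X] →ₐ[A] A[X]) : A[X] →+* A[X])
        ((E.psi : A →+* A[X]) (P.coeff j))).coeff (w * k) = (E.psi (P.coeff j)).coeff k := by
      exact coeff_expand_mul' hw0 _ _
    rw [this, LND.coeff_psi]
  · intro i hi hij
    have hi' : i < w := Finset.mem_range.1 hi
    rw [coeff_mul_X_pow']
    split_ifs with h
    · have h1 : (((expand A w : A[X] →ₐ[A] A[X]) : A[X] →+* A[X])
          ((E.psi : A →+* A[X]) (P.coeff i))).coeff (w * k + j - i) =
          if w ∣ (w * k + j - i) then (E.psi (P.coeff i)).coeff ((w * k + j - i) / w) else 0 := by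
        exact coeff_expand hw0 _ _
      rw [RingHom.comp_apply, h1, if_neg]
      intro hdvd
      -- `w ∣ w*k + j - i` forces `i = j`
      obtain ⟨q, hq⟩ := hdvd
      have h2 : w * k + j = w * q + i := by omega
      have h3 := congrArg (fun n => n % w) h2
      simp only [Nat.mul_add_mod] at h3
      rw [Nat.mod_eq_of_lt hj, Nat.mod_eq_of_lt hi'] at h3
      exact hij h3.symm
    · rfl
  · intro h
    exact absurd (Finset.mem_range.2 hj) h

/-- existence of weights realising the coefficient sets -/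
lemma exists_weights (a : A) (L : List (LND A)) :
    ∃ Lw : List (LND A × ℕ), (∀ y ∈ Cset a L, ∃ n, (H Lw a).coeff n = y) ∧
      (∀ y ∈ Cpos a L, ∃ n, 1 ≤ n ∧ (H Lw a).coeff n = y) := by
  induction L with
  | nil =>
    refine ⟨[], ?_, ?_⟩
    · rintro y rfl
      exact ⟨0, by simp [H]⟩
    · intro y hy
      exact absurd hy (Set.notMem_empty y)
  | cons E L ih =>
    obtain ⟨Lw, h1, h2⟩ := ih
    set w := (H Lw a).natDegree + 1 with hw
    have hstep : ∀ j k, j < w → (H ((E, w) :: Lw) a).coeff (w * k + j) =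
        E.c ((H Lw a).coeff j) k := by
      intro j k hj
      simp only [H, RingHom.comp_apply]
      exact coeff_stepH E (by omega) hj k
    have hzero : ∀ j, w ≤ j → ∀ k, E.c ((H Lw a).coeff j) k = 0 := by
      intro j hj k
      rw [coeff_eq_zero_of_natDegree_lt (by omega)]
      simp [LND.c, LND.iter_zero]
    have hlarge : ∃ n, 1 ≤ n ∧ (H ((E, w) :: Lw) a).coeff n = 0 :=
      ⟨(H ((E, w) :: Lw) a).natDegree + 1, by omega, coeff_eq_zero_of_natDegree_lt (by omega)⟩
    refine ⟨(E, w) :: Lw, ?_, ?_⟩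
    · rintro y ⟨x, hx, k, rfl⟩
      obtain ⟨j, rfl⟩ := h1 x hx
      by_cases hj : j < w
      · exact ⟨w * k + j, hstep j k hj⟩
      · rw [hzero j (by omega) k]
        obtain ⟨n, -, hn⟩ := hlarge
        exact ⟨n, hn⟩
    · rintro y (⟨x, hx, k, rfl⟩ | ⟨x, hx, k, hk, rfl⟩)
      · obtain ⟨j, hj1, rfl⟩ := h2 x hx
        by_cases hj : j < w
        · exact ⟨w * k + j, by omega, hstep j k hj⟩
        · rw [hzero j (by omega) k]
          exact hlarge
      · obtain ⟨j, rfl⟩ := h1 x hx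
        by_cases hj : j < w
        · refine ⟨w * k + j, ?_, hstep j k hj⟩
          have : 1 ≤ w * k := Nat.mul_pos (by omega) hk
          omega
        · rw [hzero j (by omega) k]
          exact hlarge

/-- Summary: one family whose coefficients generate the algebra and whose nonconstant coefficients
generate the unit ideal. -/
theorem exists_family [Algebra.FiniteType ℂ A] {a : A} (h : Calg a = ⊤) (h' : Cideal a = ⊤) :
    ∃ Lw : List (LND A × ℕ), Algebra.adjoin ℂ (Set.range (H Lw a).coeff) = ⊤ ∧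
      ∀ χ : A →ₐ[ℂ] ℂ, 0 < ((H Lw a).map (χ : A →+* ℂ)).natDegree := by
  obtain ⟨L, hL⟩ := exists_list_adjoin_eq_top h
  obtain ⟨L', hL'⟩ := exists_list_of_mem_Cideal (a := a) (b := 1) (by rw [h']; trivial)
  obtain ⟨Lw, h1, h2⟩ := exists_weights a (L ++ L')
  refine ⟨Lw, ?_, ?_⟩
  · rw [eq_top_iff, ← hL]
    apply Algebra.adjoin_mono
    intro y hy
    obtain ⟨n, hn⟩ := h1 y (Cset_subset_append_left a L L' hy)
    exact ⟨n, hn⟩
  · intro χ
    by_contra hcon
    have hdeg : ((H Lw a).map (χ : A →+* ℂ)).natDegree = 0 := by omega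
    have hle : Ideal.span (Cpos a L') ≤ RingHom.ker (χ : A →+* ℂ) := by
      rw [Ideal.span_le]
      intro y hy
      obtain ⟨n, hn1, hn⟩ := h2 y (Cpos_subset_append_right a L L' hy)
      have : ((H Lw a).map (χ : A →+* ℂ)).coeff n = 0 :=
        coeff_eq_zero_of_natDegree_lt (by omega)
      rw [coeff_map, hn] at this
      exact this
    have := hle hL'
    rw [RingHom.mem_ker, _root_.map_one] at this
    exact one_ne_zero this

end general

variable {A : Type*} [CommRing A] [IsDomain A] [Algebra ℂ A]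

theorem Cideal_eq_top [Algebra.FiniteType ℂ A] {n : ℕ} (hn : 0 < n)
    (htr : Algebra.trdeg ℂ A = n) (hflex : FlexAlg A n) {a : A} (ha : Transcendental ℂ a) :
    Cideal a = ⊤ := by
  refine ideal_eq_top_of_stable hn htr hflex ?_ (Cideal_stable a)
  obtain ⟨E, hE⟩ := exists_LND_ne_zero hn htr hflex ha
  intro h0
  apply hE
  have h1 : E.c a 1 ∈ Cpos a [E] := Or.inr ⟨a, rfl, 1, le_rfl, rfl⟩
  have h2 : E.c a 1 ∈ Cideal a := Ideal.subset_span (Set.mem_iUnion.2 ⟨_, h1⟩)
  rw [h0, Ideal.mem_bot] at h2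
  simpa [LND.c] using h2

/-- In transcendence degree two the coefficient algebra is everything -/
theorem TwoLND.Calg_eq_top (T : TwoLND A) [Algebra.FiniteType ℂ A] (hflex : FlexAlg A 2) :
    Calg T.a₁ = ⊤ := by
  set A' := Calg T.a₁ with hA'
  have hstab : ∀ E : LND A, ∀ b ∈ A', E.D b ∈ A' := fun E => Calg_stable T.a₁ E
  obtain ⟨n, hn1, hn2⟩ := T.E₂.exists_local_slice T.n₂
  set r := (⇑T.E₂.D)^[n] T.a₁ with hr
  set u := T.E₂.D r with hu
  have hiter : ∀ m, (⇑T.E₂.D)^[m] T.a₁ ∈ A' := by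
    intro m
    induction m with
    | zero => exact self_mem_Calg T.a₁
    | succ m ih => rw [Function.iterate_succ_apply']; exact hstab _ _ ih
  have hrA : r ∈ A' := hiter n
  have huA : u ∈ A' := hstab _ _ hrA
  have hku : ∀ h, T.E₂.D h = 0 → h * u ∈ A' := by
    intro h hh
    have := hstab (T.E₂.replica h hh) r hrA
    exact this
  -- each element is in `A'` after multiplication by a power of `u`
  have hpow : ∀ b : A, ∃ M, u ^ M * b ∈ A' := by
    intro b
    obtain ⟨m, hm⟩ := T.E₂.nil b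
    obtain ⟨M, p, hp⟩ := T.E₂.exists_slice_repr hu.symm hn2 m b hm
    refine ⟨M + 1, ?_⟩
    have : u ^ (M + 1) * b = u * aeval r p := by
      rw [hp, pow_succ]; ring
    rw [this, aeval_eq_sum_range, Finset.mul_sum]
    refine Subalgebra.sum_mem _ fun i _ => ?_
    have h1 : p.coeff i • r ^ i = ((p.coeff i : T.E₂.ker) : A) * r ^ i := rfl
    rw [h1, ← mul_assoc, mul_comm u]
    exact Subalgebra.mul_mem _ (hku _ (p.coeff i).2) (Subalgebra.pow_mem _ hrA _)
  -- integrality
  set f₂ := T.a₂ * u with hf₂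
  have hf₂A : f₂ ∈ A' := hku _ T.k₂
  have ha₂0 : T.a₂ ≠ 0 := by
    intro h
    apply T.n₁
    rw [h, _root_.map_zero]
  have hf₂0 : f₂ ≠ 0 := mul_ne_zero ha₂0 hn1
  have hf₂n : T.E₁.D f₂ ≠ 0 := fun h => T.n₁ (T.E₁.ker_of_mul hf₂0 h).1
  have hf₂k : T.E₂.D f₂ = 0 := by
    rw [hf₂, Derivation.leibniz, hn2, T.k₂]; simp
  have hf₂t : Transcendental ℂ f₂ := by
    intro halg
    obtain ⟨z, hz⟩ := eq_algebraMap_of_isAlgebraic halg
    apply hf₂n
    rw [hz, Derivation.map_algebraMap]
  obtain ⟨χ, hχ⟩ := T.E₁.exists_orb_natDegree hf₂n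
  let T' : TwoLND A := ⟨T.E₁, T.E₂, T.a₁, f₂, T.htr, T.h₁, hf₂t, T.k₁, hf₂k, hf₂n, T.n₂, χ, T.χ₂,
    hχ, T.o₂⟩
  have hint : ∀ b : A, IsIntegral A' b := by
    intro b
    refine isIntegral_of_le ?_ (T'.integral b)
    rw [Algebra.adjoin_le_iff]
    rintro x (rfl | rfl)
    · exact self_mem_Calg T.a₁
    · exact hf₂A
  have hintA : Algebra.IsIntegral A' A := ⟨hint⟩
  have hft : Algebra.FiniteType A' A := Algebra.FiniteType.of_restrictScalars_finiteType ℂ A' A
  have hfin : Module.Finite A' A := Algebra.IsIntegral.finite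
  obtain ⟨s, hs⟩ := hfin.fg_top
  choose M hM using hpow
  let N := s.sup M
  have hN : ∀ b : A, u ^ N * b ∈ A' := by
    intro b
    have hb : b ∈ Submodule.span A' (s : Set A) := by rw [hs]; trivial
    refine Submodule.span_induction (p := fun b _ => u ^ N * b ∈ A') ?_ ?_ ?_ ?_ hb
    · intro x hx
      have hle : M x ≤ N := Finset.le_sup hx
      obtain ⟨k, hk⟩ := Nat.exists_eq_add_of_le hle
      rw [hk, add_comm, pow_add, mul_assoc]
      exact Subalgebra.mul_mem _ (Subalgebra.pow_mem _ huA _) (hM x)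
    · rw [mul_zero]; exact Subalgebra.zero_mem _
    · intro x y _ _ hx hy
      rw [mul_add]; exact Subalgebra.add_mem _ hx hy
    · intro c x _ hx
      have : u ^ N * (c • x) = (c : A) * (u ^ N * x) := by
        have h : c • x = (c : A) * x := rfl
        rw [h]; ring
      rw [this]
      exact Subalgebra.mul_mem _ c.2 hx
  exact subalgebra_eq_top_of_stable (n := 2) (by norm_num) (by rw [T.htr]; rfl) hflex hstab
    (pow_ne_zero N hn1) hN

end Pool.Agent.RR
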