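import Pool.Agent.RR.Inv
import Pool.Agent.RR.Dim2b

/-!
# Complex points, nonconstant kernel elements, existence of the two derivations
-/

set_option autoImplicit false

open Polynomial

namespace Pool.Agent.RR

section points

variable {A : Type*} [CommRing A] [Algebra ℂ A]

/-- a maximal ideal of a finitely generated `ℂ`-algebra is the kernel of a complex point -/
lemma exists_point_of_isMaximal [Algebra.FiniteType ℂ A] (M : Ideal A) [hM : M.IsMaximal] :
    ∃ χ : A →ₐ[ℂ] ℂ, ∀ b, χ b = 0 ↔ b ∈ M := by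
  let _ : Field (A ⧸ M) := Ideal.Quotient.field M
  have _ : Algebra.FiniteType ℂ (A ⧸ M) :=
    Algebra.FiniteType.of_surjective (Ideal.Quotient.mkₐ ℂ M) (Ideal.Quotient.mkₐ_surjective ℂ M)
  have _ : Module.Finite ℂ (A ⧸ M) := finite_of_finite_type_of_isJacobsonRing ℂ (A ⧸ M)
  have hbij : Function.Bijective (algebraMap ℂ (A ⧸ M)) :=
    IsAlgClosed.algebraMap_bijective_of_isIntegral
  let e : ℂ ≃ₐ[ℂ] (A ⧸ M) := AlgEquiv.ofBijective (Algebra.ofId ℂ (A ⧸ M)) hbij
  refine ⟨(e.symm : (A ⧸ M) →ₐ[ℂ] ℂ).comp (Ideal.Quotient.mkₐ ℂ M), fun b => ?_⟩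
  rw [AlgHom.comp_apply, Ideal.Quotient.mkₐ_eq_mk]
  constructor
  · intro h
    rw [← Ideal.Quotient.eq_zero_iff_mem]
    exact (map_eq_zero_iff _ e.symm.injective).1 h
  · intro h
    rw [Ideal.Quotient.eq_zero_iff_mem.2 h, map_zero]

lemma exists_point_ne_zero [IsDomain A] [Algebra.FiniteType ℂ A] {b : A} (hb : b ≠ 0) :
    ∃ χ : A →ₐ[ℂ] ℂ, χ b ≠ 0 := by
  have hJ : IsJacobsonRing A := isJacobsonRing_of_finiteType (A := ℂ)
  have h1 : (⊥ : Ideal A).jacobson = ⊥ := by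
    have := (isJacobsonRing_iff_prime_eq.1 hJ) (⊥ : Ideal A) Ideal.isPrime_bot
    exact this
  have h2 : b ∉ (⊥ : Ideal A).jacobson := by
    rw [h1]; exact hb
  rw [Ideal.jacobson, Ideal.mem_sInf] at h2
  push Not at h2
  obtain ⟨M, ⟨-, hM⟩, hbM⟩ := h2
  obtain ⟨χ, hχ⟩ := exists_point_of_isMaximal M
  exact ⟨χ, fun h => hbM ((hχ b).1 h)⟩

lemma exists_point [Nontrivial A] [Algebra.FiniteType ℂ A] : Nonempty (A →ₐ[ℂ] ℂ) := by
  obtain ⟨M, hM⟩ := Ideal.exists_maximal A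
  obtain ⟨χ, -⟩ := exists_point_of_isMaximal M
  exact ⟨χ⟩

end points

variable {A : Type*} [CommRing A] [IsDomain A] [Algebra ℂ A]

/-- an algebraic element of a domain over `ℂ` is constant -/
lemma eq_algebraMap_of_isAlgebraic {a : A} (ha : IsAlgebraic ℂ a) :
    ∃ z : ℂ, a = algebraMap ℂ A z := by
  have hi : IsIntegral ℂ a := ha.isIntegral
  have h1 := IsAlgClosed.degree_eq_one_of_irreducible ℂ (minpoly.irreducible hi)
  obtain ⟨z, hz⟩ := minpoly.mem_range_of_degree_eq_one ℂ a h1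
  exact ⟨z, hz.symm⟩

lemma trdeg_le_one_of_mem_adjoin {r : A} (hall : ∀ b : A, b ∈ Algebra.adjoin ℂ {r}) :
    Algebra.trdeg ℂ A ≤ 1 := by
  have : Algebra.IsAlgebraic (Algebra.adjoin ℂ ({r} : Set A)) A := by
    refine ⟨fun b => ?_⟩
    exact isAlgebraic_algebraMap (⟨b, hall b⟩ : Algebra.adjoin ℂ ({r} : Set A))
  have h := Algebra.IsAlgebraic.trdeg_le_cardinalMk ℂ ({r} : Set A)
  rwa [Cardinal.mk_singleton] at h

lemma adjoin_slice {E : LND A} (hconst : ∀ a : A, E.D a = 0 → ∃ z : ℂ, a = algebraMap ℂ A z)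
    {r : A} (hn1 : E.D r ≠ 0) (hn2 : E.D (E.D r) = 0) (b : A) :
    b ∈ Algebra.adjoin ℂ {r} := by
  obtain ⟨z, hz⟩ := hconst _ hn2
  have hz0 : z ≠ 0 := by
    rintro rfl
    rw [map_zero] at hz
    exact hn1 hz
  obtain ⟨m, hm⟩ := E.nil b
  obtain ⟨M, p, hp⟩ := E.exists_slice_repr rfl hn2 m b hm
  have h1 : aeval r p ∈ Algebra.adjoin ℂ {r} := by
    rw [aeval_eq_sum_range]
    refine Subalgebra.sum_mem _ fun i _ => ?_
    obtain ⟨y, hy⟩ := hconst _ (p.coeff i).2
    have : p.coeff i • r ^ i = y • r ^ i := by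
      have : p.coeff i • r ^ i = ((p.coeff i : E.ker) : A) * r ^ i := rfl
      rw [this, hy, Algebra.smul_def]
    rw [this]
    have hr : r ∈ Algebra.adjoin ℂ ({r} : Set A) := Algebra.subset_adjoin (Set.mem_singleton r)
    exact Subalgebra.smul_mem _ (Subalgebra.pow_mem _ hr i) y
  have h1' : (algebraMap ℂ A z) ^ M * b ∈ Algebra.adjoin ℂ {r} := by
    rw [← hz, ← hp]; exact h1
  have h2 := Subalgebra.smul_mem _ h1' ((z ^ M)⁻¹)
  have h3 : (z ^ M)⁻¹ • ((algebraMap ℂ A z) ^ M * b) = b := by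
    rw [Algebra.smul_def, ← mul_assoc, ← _root_.map_pow, ← _root_.map_mul,
      inv_mul_cancel₀ (pow_ne_zero _ hz0), _root_.map_one, one_mul]
  rwa [h3] at h2

/-- a nonzero LND in transcendence degree two has a nonconstant kernel element -/
lemma LND.exists_transcendental_ker (htr : Algebra.trdeg ℂ A = 2) (E : LND A) (hE : E.D ≠ 0) :
    ∃ a : A, E.D a = 0 ∧ Transcendental ℂ a := by
  by_contra hcon
  push Not at hcon
  have hconst : ∀ a : A, E.D a = 0 → ∃ z : ℂ, a = algebraMap ℂ A z := by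
    intro a ha
    apply eq_algebraMap_of_isAlgebraic
    by_contra h
    exact hcon a ha h
  have hex : ∃ a, E.D a ≠ 0 := by
    by_contra h
    push Not at h
    exact hE (Derivation.ext h)
  obtain ⟨a, ha⟩ := hex
  obtain ⟨n, hn1, hn2⟩ := E.exists_local_slice ha
  have hle := trdeg_le_one_of_mem_adjoin (fun b => adjoin_slice hconst hn1 hn2 b)
  rw [htr] at hle
  exact absurd hle (by norm_num)

/-- In transcendence degree two, some LND does not kill a given nonconstant function, if the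
algebra is flexible. -/
lemma exists_LND_ne_zero [Algebra.FiniteType ℂ A] {n : ℕ} (hn : 0 < n)
    (htr : Algebra.trdeg ℂ A = n) (hflex : FlexAlg A n) {a : A} (ha : Transcendental ℂ a) :
    ∃ E : LND A, E.D a ≠ 0 := by
  by_contra hcon
  push Not at hcon
  obtain ⟨χ⟩ : Nonempty (A →ₐ[ℂ] ℂ) := exists_point
  obtain ⟨E, f, hdet⟩ := hflex χ
  let E' : ℕ → LND A := fun i => if h : i < n then E ⟨i, h⟩ else E ⟨0, hn⟩
  have hE' : ∀ j : Fin n, E' j = E j := fun j => by simp [E']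
  have hG : ∀ m, G E' m (a - algebraMap ℂ A (χ a)) =
      MvPolynomial.C (a - algebraMap ℂ A (χ a)) := by
    intro m
    induction m with
    | zero => rfl
    | succ m ih =>
      simp only [G, RingHom.comp_apply, ih, stepHom_C]
      have : (E' m).psi (a - algebraMap ℂ A (χ a)) = Polynomial.C (a - algebraMap ℂ A (χ a)) := by
        rw [LND.psi_eq_C_iff]; simp [hcon]
      rw [this, Polynomial.eval₂_C]
  have h0 : a - algebraMap ℂ A (χ a) = 0 := by
    refine Xi_injective htr χ E' f ?_ ?_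
    · simpa only [hE'] using hdet
    · rw [Xi_apply, hG, MvPolynomial.map_C]
      have : (χ : A →+* ℂ) (a - algebraMap ℂ A (χ a)) = 0 := by
        rw [_root_.map_sub]
        change χ a - χ (algebraMap ℂ A (χ a)) = 0
        rw [χ.commutes]
        simp
      rw [this, map_zero]
  apply ha
  rw [sub_eq_zero] at h0
  rw [h0]
  exact isAlgebraic_algebraMap _

/-- existence of a point where the orbit polynomial has full degree -/
lemma LND.exists_orb_natDegree [Algebra.FiniteType ℂ A] (E : LND A) {a : A} (ha : E.D a ≠ 0) :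
    ∃ χ : A →ₐ[ℂ] ℂ, 0 < (E.orb χ a).natDegree := by
  have h0 : 0 < (E.psi a).natDegree := by
    rw [Nat.pos_iff_ne_zero, Ne, LND.natDegree_psi_eq_zero_iff]
    exact ha
  have hlc : (E.psi a).leadingCoeff ≠ 0 := by
    rw [Ne, leadingCoeff_eq_zero]
    intro h
    rw [h] at h0
    simp at h0
  obtain ⟨χ, hχ⟩ := exists_point_ne_zero hlc
  refine ⟨χ, lt_of_lt_of_le h0 ?_⟩
  apply Polynomial.le_natDegree_of_ne_zero
  rw [LND.coeff_orb, ← LND.coeff_psi]
  exact hχ

/-- the two derivations exist on a flexible algebra of transcendence degree two -/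
theorem exists_twoLND [Algebra.FiniteType ℂ A] (htr : Algebra.trdeg ℂ A = 2)
    (hflex : FlexAlg A 2) : Nonempty (TwoLND A) := by
  obtain ⟨χ⟩ : Nonempty (A →ₐ[ℂ] ℂ) := exists_point
  obtain ⟨E, f, hdet⟩ := hflex χ
  have hE0 : (E 0).D ≠ 0 := by
    intro h
    apply hdet
    apply Matrix.det_eq_zero_of_column_eq_zero 0
    intro i
    simp [h]
  obtain ⟨a₁, hk₁, ht₁⟩ := (E 0).exists_transcendental_ker htr hE0
  obtain ⟨E₂, hE₂⟩ := exists_LND_ne_zero (by norm_num) (by rw [htr]; rfl) hflex ht₁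
  have hE₂0 : E₂.D ≠ 0 := by
    intro h
    apply hE₂
    rw [h]; rfl
  obtain ⟨a₂, hk₂, ht₂⟩ := E₂.exists_transcendental_ker htr hE₂0
  have hn₁ : (E 0).D a₂ ≠ 0 := by
    intro h
    apply hE₂
    apply E₂.mem_ker_of_isAlgebraic
    refine isAlgebraic_of_le ?_ ((E 0).ker_algebraic htr hE0 ht₂ h hk₁)
    rw [Algebra.adjoin_le_iff]
    rintro x rfl
    exact hk₂
  obtain ⟨χ₁, hχ₁⟩ := (E 0).exists_orb_natDegree hn₁
  obtain ⟨χ₂, hχ₂⟩ := E₂.exists_orb_natDegree hE₂
  exact ⟨⟨E 0, E₂, a₁, a₂, htr, ht₁, ht₂, hk₁, hk₂, hn₁, hE₂, χ₁, χ₂, hχ₁, hχ₂⟩⟩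

end Pool.Agent.RR
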