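import Mathlib

/-!
# Interpolation by entire functions
-/

set_option autoImplicit false

open Filter Topology

namespace Pool.Agent.RR

/-- one step of the interpolation -/
lemma interp_step (α : ℕ → ℂ) (hinj : Function.Injective α) (k : ℕ) (v : ℂ) :
    ∃ g : ℂ → ℂ, Differentiable ℂ g ∧ (∀ j < k, g (α j) = 0) ∧ g (α k) = v ∧
      ∀ z, ‖z‖ < ‖α k‖ / 2 → ‖g z‖ ≤ (1 / 2 : ℝ) ^ k := by
  set P : ℂ → ℂ := fun z => v * ∏ j ∈ Finset.range k, ((z - α j) / (α k - α j)) with hP
  have hPd : Differentiable ℂ P := by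
    apply Differentiable.const_mul
    apply Differentiable.fun_finsetProd
    intro i _
    exact (differentiable_id.sub_const _).div_const _
  have hP0 : ∀ j < k, P (α j) = 0 := by
    intro j hj
    simp only [hP]
    rw [Finset.prod_eq_zero (Finset.mem_range.2 hj) (by simp), mul_zero]
  have hPk : P (α k) = v := by
    simp only [hP]
    rw [Finset.prod_eq_one, mul_one]
    intro j hj
    apply div_self
    rw [sub_ne_zero]
    intro h
    have := hinj h
    have := Finset.mem_range.1 hj
    omega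
  by_cases h0 : α k = 0
  · refine ⟨P, hPd, hP0, hPk, ?_⟩
    intro z hz
    rw [h0, norm_zero, zero_div] at hz
    exact absurd hz (not_lt.2 (norm_nonneg z))
  · obtain ⟨B, hB⟩ : ∃ B : ℝ, ∀ z ∈ Metric.closedBall (0 : ℂ) (‖α k‖ / 2), ‖P z‖ ≤ B :=
      (isCompact_closedBall _ _).exists_bound_of_continuousOn hPd.continuous.continuousOn
    have hB0 : 0 ≤ B := (norm_nonneg _).trans (hB 0 (by simp; positivity))
    obtain ⟨m, hm⟩ : ∃ m : ℕ, B * (1 / 2 : ℝ) ^ m ≤ (1 / 2 : ℝ) ^ k := by
      have h1 : Tendsto (fun m : ℕ => B * (1 / 2 : ℝ) ^ m) atTop (𝓝 (B * 0)) :=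
        (tendsto_pow_atTop_nhds_zero_of_lt_one (by norm_num) (by norm_num)).const_mul B
      rw [mul_zero] at h1
      have h2 : ∀ᶠ m : ℕ in atTop, B * (1 / 2 : ℝ) ^ m < (1 / 2 : ℝ) ^ k :=
        h1.eventually_lt_const (by positivity)
      obtain ⟨m, hm⟩ := h2.exists
      exact ⟨m, hm.le⟩
    refine ⟨fun z => P z * (z / α k) ^ m, ?_, ?_, ?_, ?_⟩
    · exact hPd.mul ((differentiable_id.div_const _).pow m)
    · intro j hj
      simp only [hP0 j hj, zero_mul]
    · simp only [hPk, div_self h0, one_pow, mul_one]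
    · intro z hz
      rw [norm_mul, norm_pow, norm_div]
      refine le_trans ?_ hm
      have h1 : ‖z‖ / ‖α k‖ ≤ 1 / 2 := by
        rw [div_le_iff₀ (norm_pos_iff.2 h0)]
        linarith
      apply mul_le_mul
      · exact hB z (by simpa using hz.le)
      · exact pow_le_pow_left₀ (by positivity) h1 m
      · positivity
      · exact hB0

/-- **Interpolation**: an entire function with prescribed values on a discrete sequence. -/
theorem exists_entire_interp (α : ℕ → ℂ) (hinj : Function.Injective α)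
    (hα : Tendsto (fun k => ‖α k‖) atTop atTop) (t : ℕ → ℂ) :
    ∃ h : ℂ → ℂ, Differentiable ℂ h ∧ ∀ k, h (α k) = t k := by
  choose g hgd hg0 hgk hgb using interp_step α hinj
  -- partial sums
  let S : ℕ → (ℂ → ℂ) := fun n => Nat.rec (fun _ => 0) (fun k Sk => fun z =>
    Sk z + g k (t k - Sk (α k)) z) n
  have hS0 : S 0 = fun _ => 0 := rfl
  have hSs : ∀ k z, S (k + 1) z = S k z + g k (t k - S k (α k)) z := fun k z => rfl
  set G : ℕ → ℂ → ℂ := fun k => g k (t k - S k (α k)) with hG
  have hGd : ∀ k, Differentiable ℂ (G k) := fun k => hgd _ _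
  have hGb : ∀ k z, ‖z‖ < ‖α k‖ / 2 → ‖G k z‖ ≤ (1 / 2 : ℝ) ^ k := fun k => hgb _ _
  have hG0 : ∀ k j, j < k → G k (α j) = 0 := fun k => hg0 _ _
  have hGk : ∀ k, G k (α k) = t k - S k (α k) := fun k => hgk _ _
  have hSsum : ∀ n z, S n z = ∑ k ∈ Finset.range n, G k z := by
    intro n z
    induction n with
    | zero => simp [hS0]
    | succ n ih => rw [hSs, ih, Finset.sum_range_succ]
  have hfin : ∀ R : ℝ, ∃ K, ∀ k, K ≤ k → 2 * R < ‖α k‖ := by
    intro R
    have := (hα.eventually_gt_atTop (2 * R))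
    rw [eventually_atTop] at this
    exact this
  have hu : Summable (fun k : ℕ => (1 / 2 : ℝ) ^ k) :=
    summable_geometric_of_lt_one (by norm_num) (by norm_num)
  have hsumm : ∀ z, Summable (fun k => G k z) := by
    intro z
    obtain ⟨K, hK⟩ := hfin ‖z‖
    refine Summable.of_norm_bounded_eventually_nat hu ?_
    filter_upwards [eventually_ge_atTop K] with k hk
    apply hGb
    have := hK k hk
    linarith
  refine ⟨fun z => ∑' k, G k z, ?_, ?_⟩
  · intro z₀
    obtain ⟨K, hK⟩ := hfin (‖z₀‖ + 1)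
    set U := Metric.ball (0 : ℂ) (‖z₀‖ + 1) with hU
    have h1 : DifferentiableOn ℂ (fun z => ∑' k, G (k + K) z) U := by
      refine Complex.differentiableOn_tsum_of_summable_norm (u := fun k => (1 / 2 : ℝ) ^ (k + K))
        ?_ (fun k => (hGd _).differentiableOn) Metric.isOpen_ball ?_
      · exact (summable_nat_add_iff K).2 hu
      · intro k w hw
        apply hGb
        have := hK (k + K) (by omega)
        have hw' : ‖w‖ < ‖z₀‖ + 1 := by simpa [hU] using hw
        linarith
    have h2 : (fun z => ∑' k, G k z) =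
        fun z => (∑ k ∈ Finset.range K, G k z) + ∑' k, G (k + K) z := by
      funext z
      exact ((hsumm z).sum_add_tsum_nat_add K).symm
    rw [h2]
    have hz₀ : z₀ ∈ U := by simp [hU]
    apply DifferentiableAt.add
    · apply DifferentiableAt.fun_sum
      intro i _
      exact (hGd i) z₀
    · exact (h1 z₀ hz₀).differentiableAt (Metric.isOpen_ball.mem_nhds hz₀)
  · intro k
    have h1 : ∑' j, G j (α k) = ∑ j ∈ Finset.range (k + 1), G j (α k) := by
      apply tsum_eq_sum
      intro j hj
      apply hG0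
      rw [Finset.mem_range] at hj
      omega
    change ∑' j, G j (α k) = t k
    rw [h1, Finset.sum_range_succ, ← hSsum, hGk]
    ring

end Pool.Agent.RR
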