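import Mathlib

/-!
# Jacobian criterion for algebraic independence (characteristic zero, polynomials over `ℂ`)
-/

set_option autoImplicit false

open MvPolynomial

namespace Pool.Agent.RR

/-- chain rule for `pderiv` of a composite polynomial -/
lemma pderiv_aeval {σ : Type*} {n : ℕ} (f : Fin n → MvPolynomial σ ℂ) (P : MvPolynomial (Fin n) ℂ)
    (j : σ) :
    pderiv j (aeval f P) = ∑ i, aeval f (pderiv i P) * pderiv j (f i) := by
  classical
  induction P using MvPolynomial.induction_on with
  | C a => simp
  | add p q hp hq =>
    simp only [map_add, hp, hq, add_mul, Finset.sum_add_distrib]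
  | mul_X p k hp =>
    simp only [map_mul, aeval_X, Derivation.leibniz, smul_eq_mul, hp, pderiv_X, map_add, add_mul,
      Finset.sum_add_distrib]
    rw [Finset.mul_sum]
    have h1 : ∑ x, (aeval f) p * (aeval f) (Pi.single (M := fun _ => MvPolynomial (Fin n) ℂ) x 1 k) *
        pderiv j (f x) = aeval f p * pderiv j (f k) := by
      rw [Finset.sum_eq_single k]
      · simp
      · intro b _ hb
        rw [Pi.single_eq_of_ne (Ne.symm hb)]
        simp
      · intro h; exact absurd (Finset.mem_univ k) h
    rw [h1]
    congr 1
    refine Finset.sum_congr rfl fun i _ => ?_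
    ring

/-- total degree of a partial derivative drops -/
lemma totalDegree_pderiv_lt {n : ℕ} (P : MvPolynomial (Fin n) ℂ) (i : Fin n)
    (h : 0 < P.totalDegree) : (pderiv i P).totalDegree < P.totalDegree := by
  classical
  rw [totalDegree, Finset.sup_lt_iff h]
  intro m hm
  rw [mem_support_iff] at hm
  have hco : coeff m (pderiv i P) = coeff (m + Finsupp.single i 1) P * (m i + 1) := by
    exact coeff_pderiv ..
  have hne : coeff (m + Finsupp.single i 1) P ≠ 0 := by
    intro h0
    rw [hco, h0, zero_mul] at hm
    exact hm rfl
  have hle := le_totalDegree (mem_support_iff.2 hne)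
  have : (m + Finsupp.single i 1).sum (fun _ e => e) = m.sum (fun _ e => e) + 1 := by
    rw [Finsupp.sum_add_index' (fun _ => rfl) (fun _ _ _ => rfl), Finsupp.sum_single_index rfl]
  rw [this] at hle
  omega

/-- if all partial derivatives vanish the polynomial is constant -/
lemma eq_C_of_pderiv_eq_zero {n : ℕ} (P : MvPolynomial (Fin n) ℂ) (h : ∀ i, pderiv i P = 0) :
    P = C (coeff 0 P) := by
  classical
  ext m
  rw [coeff_C]
  split_ifs with hm
  · rw [hm]
  · obtain ⟨i, hi⟩ : ∃ i, m i ≠ 0 := by
      by_contra hcon
      push Not at hcon
      exact hm (by ext i; simp [hcon i])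
    have hm' : m - Finsupp.single i 1 + Finsupp.single i 1 = m := by
      ext j
      by_cases hj : j = i
      · subst hj; simp; omega
      · simp [Finsupp.single_apply, Ne.symm hj]
    have := congrArg (coeff (m - Finsupp.single i 1)) (h i)
    have hco : coeff (m - Finsupp.single i 1) (pderiv i P) =
        coeff (m - Finsupp.single i 1 + Finsupp.single i 1) P *
          (((m - Finsupp.single i 1 : Fin n →₀ ℕ) i : ℂ) + 1) := coeff_pderiv ..
    rw [hco, hm', coeff_zero] at this
    rcases mul_eq_zero.1 this with h1 | h1
    · exact h1
    · exfalso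
      have : (((m - Finsupp.single i 1 : Fin n →₀ ℕ) i + 1 : ℕ) : ℂ) = 0 := by
        push_cast; exact h1
      exact (Nat.cast_ne_zero.2 (Nat.succ_ne_zero _)) this

/-- **Jacobian criterion.** -/
theorem algebraicIndependent_of_jacobian {σ : Type*} {n : ℕ} (f : Fin n → MvPolynomial σ ℂ)
    (j : Fin n → σ) (x : σ → ℂ)
    (hdet : (Matrix.of fun i k : Fin n => eval x (pderiv (j k) (f i))).det ≠ 0) :
    AlgebraicIndependent ℂ f := by
  classical
  rw [algebraicIndependent_iff]
  -- strong induction on the total degree
  suffices H : ∀ N : ℕ, ∀ P : MvPolynomial (Fin n) ℂ, P.totalDegree = N → aeval f P = 0 → P = 0 from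
    fun P hP => H _ P rfl hP
  intro N
  induction N using Nat.strong_induction_on with
  | _ N ih =>
    intro P hN hP
    by_cases hpos : 0 < P.totalDegree
    · have hder : ∀ i, pderiv i P = 0 := by
        -- the vector `(∂_i P)(f)` is killed by the Jacobian matrix
        let M : Matrix (Fin n) (Fin n) (MvPolynomial σ ℂ) :=
          Matrix.of fun i k => pderiv (j k) (f i)
        have hM : M.det ≠ 0 := by
          intro h0
          apply hdet
          have : (Matrix.of fun i k : Fin n => eval x (pderiv (j k) (f i))) =
              (eval x).mapMatrix M := by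
            ext i k; simp [M]
          rw [this, ← RingHom.map_det, h0, map_zero]
        have hvec : Matrix.vecMul (fun i => aeval f (pderiv i P)) M = 0 := by
          ext1 k
          have := pderiv_aeval f P (j k)
          rw [hP, map_zero] at this
          rw [Matrix.vecMul, dotProduct]
          simpa [M] using this.symm
        have hz : (fun i => aeval f (pderiv i P)) = 0 := by
          by_contra hne
          exact hM (Matrix.exists_vecMul_eq_zero_iff.1 ⟨_, hne, hvec⟩)
        intro i
        exact ih _ (hN ▸ totalDegree_pderiv_lt P i hpos) _ rfl (congrFun hz i)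
      have hC := eq_C_of_pderiv_eq_zero P hder
      rw [hC, totalDegree_C] at hpos
      exact absurd hpos (lt_irrefl _)
    · have h0 : P.totalDegree = 0 := by omega
      rw [totalDegree_eq_zero_iff_eq_C] at h0
      rw [h0, algHom_C] at hP
      have : coeff 0 P = 0 := by
        have := C_injective σ ℂ (hP.trans (map_zero C).symm)
        exact this
      rw [h0, this, map_zero]

end Pool.Agent.RR
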