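import Pool.Agent.RR.LND
import Pool.Agent.RR.Jac

/-!
# Flexible algebras have no invariant ideals
-/

set_option autoImplicit false

open MvPolynomial

namespace Pool.Agent.RR

variable {A : Type*} [CommRing A] [Algebra ℂ A]

/-- the substitution `C a ↦ ∑ (D^k a/k!) X_m^k`, `X_i ↦ X_i` -/
noncomputable def stepHom (E : LND A) (m : ℕ) : MvPolynomial ℕ A →+* MvPolynomial ℕ A :=
  MvPolynomial.eval₂Hom
    ((Polynomial.eval₂RingHom (MvPolynomial.C : A →+* MvPolynomial ℕ A)
      (MvPolynomial.X m)).comp (E.psi : A →+* Polynomial A)) MvPolynomial.X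

/-- iterated exponential in the derivations `E 0, …, E (m-1)` -/
noncomputable def G (E : ℕ → LND A) : ℕ → (A →+* MvPolynomial ℕ A)
  | 0 => MvPolynomial.C
  | (m + 1) => (stepHom (E m) m).comp (G E m)

lemma stepHom_C (E : LND A) (m : ℕ) (a : A) :
    stepHom E m (C a) = Polynomial.eval₂ (C : A →+* MvPolynomial ℕ A) (X m) (E.psi a) := by
  simp [stepHom]

lemma stepHom_X (E : LND A) (m i : ℕ) : stepHom E m (X i) = X i := by
  simp [stepHom]

/-- an ideal is invariant under an LND -/
def LND.Stable (E : LND A) (J : Ideal A) : Prop := ∀ b ∈ J, E.D b ∈ J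

lemma LND.Stable.c_mem {E : LND A} {J : Ideal A} (h : E.Stable J) {b : A} (hb : b ∈ J) (k : ℕ) :
    E.c b k ∈ J := by
  have : (⇑E.D)^[k] b ∈ J := by
    induction k with
    | zero => exact hb
    | succ k ih => rw [Function.iterate_succ_apply']; exact h _ ih
  rw [LND.c, Algebra.smul_def]
  exact J.mul_mem_left _ this

lemma stepHom_mem {E : LND A} {J : Ideal A} (h : E.Stable J) (m : ℕ) {P : MvPolynomial ℕ A}
    (hP : P ∈ Ideal.map (C : A →+* MvPolynomial ℕ A) J) :
    stepHom E m P ∈ Ideal.map (C : A →+* MvPolynomial ℕ A) J := by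
  have : Ideal.map (C : A →+* MvPolynomial ℕ A) J ≤
      Ideal.comap (stepHom E m) (Ideal.map (C : A →+* MvPolynomial ℕ A) J) := by
    rw [Ideal.map_le_iff_le_comap]
    intro b hb
    rw [Ideal.mem_comap, Ideal.mem_comap, stepHom_C, Polynomial.eval₂_eq_sum_range]
    refine Ideal.sum_mem _ fun k _ => Ideal.mul_mem_right _ _ ?_
    rw [LND.coeff_psi]
    exact Ideal.mem_map_of_mem _ (h.c_mem hb k)
  exact this hP

lemma G_mem {E : ℕ → LND A} {J : Ideal A} (h : ∀ i, (E i).Stable J) (m : ℕ) {b : A} (hb : b ∈ J) :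
    G E m b ∈ Ideal.map (C : A →+* MvPolynomial ℕ A) J := by
  induction m with
  | zero => exact Ideal.mem_map_of_mem _ hb
  | succ m ih => exact stepHom_mem (h m) m ih

/-- the linear part of `P` in the variable `X_i`, together with the constant term -/
noncomputable def lin (i : ℕ) : MvPolynomial ℕ A →+* TrivSqZeroExt A A :=
  MvPolynomial.eval₂Hom (TrivSqZeroExt.inlHom A A)
    (fun j => if j = i then TrivSqZeroExt.inr 1 else 0)

lemma lin_C (i : ℕ) (a : A) : lin i (C a) = TrivSqZeroExt.inl a := by simp [lin]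

lemma lin_X (i j : ℕ) : lin (A := A) i (X j) = if j = i then TrivSqZeroExt.inr 1 else 0 := by
  simp [lin]

lemma lin_fst (i : ℕ) (P : MvPolynomial ℕ A) : (lin i P).fst = constantCoeff P := by
  induction P using MvPolynomial.induction_on with
  | C a => simp [lin_C]
  | add p q hp hq => rw [map_add, TrivSqZeroExt.fst_add, hp, hq, map_add]
  | mul_X p k hp =>
    rw [map_mul, TrivSqZeroExt.fst_mul, hp, lin_X]
    split_ifs <;> simp

lemma lin_snd (i : ℕ) (P : MvPolynomial ℕ A) :
    (lin i P).snd = constantCoeff (pderiv i P) := by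
  induction P using MvPolynomial.induction_on with
  | C a => simp [lin_C]
  | add p q hp hq => rw [map_add, TrivSqZeroExt.snd_add, hp, hq, map_add, map_add]
  | mul_X p k hp =>
    rw [map_mul, TrivSqZeroExt.snd_mul, hp, lin_X, lin_fst, Derivation.leibniz, pderiv_X]
    by_cases hk : k = i
    · subst hk
      simp
    · rw [if_neg hk, Pi.single_eq_of_ne (Ne.symm (Ne.symm hk))]
      simp

lemma lin_stepHom_of_ne (E : LND A) {m i : ℕ} (h : m ≠ i) (P : MvPolynomial ℕ A) :
    lin i (stepHom E m P) = lin i P := by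
  have : (lin (A := A) i).comp (stepHom E m) = lin i := by
    refine MvPolynomial.ringHom_ext ?_ ?_
    · intro a
      rw [RingHom.comp_apply, stepHom_C, Polynomial.hom_eval₂, lin_X, if_neg h,
        Polynomial.eval₂_at_zero, LND.coeff_psi, LND.c_zero]
      rfl
    · intro j
      rw [RingHom.comp_apply, stepHom_X]
  exact congrFun (congrArg DFunLike.coe this) P

lemma eval₂_inl_inr (q : Polynomial A) :
    Polynomial.eval₂ (TrivSqZeroExt.inlHom A A) (TrivSqZeroExt.inr 1) q =
      TrivSqZeroExt.inl (q.coeff 0) + TrivSqZeroExt.inr (q.coeff 1) := by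
  induction q using Polynomial.induction_on' with
  | add p q hp hq =>
    rw [Polynomial.eval₂_add, hp, hq, Polynomial.coeff_add, Polynomial.coeff_add,
      TrivSqZeroExt.inl_add, TrivSqZeroExt.inr_add]
    abel
  | monomial n a =>
    rw [Polynomial.eval₂_monomial, Polynomial.coeff_monomial, Polynomial.coeff_monomial]
    match n with
    | 0 => simp
    | 1 =>
      ext <;> simp
    | (n + 2) =>
      have : (TrivSqZeroExt.inr (1 : A) : TrivSqZeroExt A A) ^ (n + 2) = 0 := by
        rw [pow_add, sq, TrivSqZeroExt.inr_mul_inr, mul_zero]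
      rw [this, mul_zero, if_neg (by omega), if_neg (by omega)]
      simp

lemma constantCoeff_stepHom (E : LND A) (m : ℕ) (P : MvPolynomial ℕ A) :
    constantCoeff (stepHom E m P) = constantCoeff P := by
  have : (constantCoeff : MvPolynomial ℕ A →+* A).comp (stepHom E m) = constantCoeff := by
    refine MvPolynomial.ringHom_ext ?_ ?_
    · intro a
      rw [RingHom.comp_apply, stepHom_C, Polynomial.hom_eval₂, constantCoeff_X,
        Polynomial.eval₂_at_zero, LND.coeff_psi, LND.c_zero]
      rfl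
    · intro j
      rw [RingHom.comp_apply, stepHom_X]
  exact congrFun (congrArg DFunLike.coe this) P

lemma lin_stepHom_snd (E : LND A) (m : ℕ) (P : MvPolynomial ℕ A) :
    (lin m (stepHom E m P)).snd = E.D (constantCoeff P) + (lin m P).snd := by
  induction P using MvPolynomial.induction_on with
  | C a =>
    rw [stepHom_C, Polynomial.hom_eval₂, lin_X, if_pos rfl]
    have h1 : (lin (A := A) m).comp C = TrivSqZeroExt.inlHom A A := by
      ext a <;> simp [lin_C]
    rw [h1, eval₂_inl_inr, lin_C]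
    simp [LND.coeff_psi, LND.c]
  | add p q hp hq =>
    simp only [map_add, TrivSqZeroExt.snd_add, hp, hq]
    abel
  | mul_X p k hp =>
    have e1 : lin m (stepHom E m (p * X k)) = lin m (stepHom E m p) * lin m (X k) := by
      rw [map_mul, stepHom_X, map_mul]
    have e2 : lin m (p * X k) = lin m p * lin m (X k) := map_mul _ _ _
    have e3 : constantCoeff (p * X k : MvPolynomial ℕ A) = 0 := by
      rw [map_mul, constantCoeff_X, mul_zero]
    rw [e1, e2, e3, map_zero, zero_add, TrivSqZeroExt.snd_mul, TrivSqZeroExt.snd_mul,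
      lin_fst, lin_fst, lin_X, constantCoeff_stepHom]
    split_ifs <;> simp [lin_fst]

lemma constantCoeff_G (E : ℕ → LND A) (m : ℕ) (b : A) : constantCoeff (G E m b) = b := by
  induction m with
  | zero => simp [G]
  | succ m ih => simp only [G, RingHom.comp_apply, constantCoeff_stepHom, ih]

lemma lin_G_snd_of_le (E : ℕ → LND A) {m i : ℕ} (h : m ≤ i) (b : A) :
    (lin i (G E m b)).snd = 0 := by
  induction m with
  | zero => simp [G, lin_C]
  | succ m ih =>
    simp only [G, RingHom.comp_apply]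
    rw [lin_stepHom_of_ne _ (by omega : m ≠ i)]
    exact ih (by omega)

lemma lin_G_snd_of_lt (E : ℕ → LND A) {m i : ℕ} (h : i < m) (b : A) :
    (lin i (G E m b)).snd = (E i).D b := by
  induction m with
  | zero => omega
  | succ m ih =>
    simp only [G, RingHom.comp_apply]
    by_cases hi : i = m
    · subst hi
      rw [lin_stepHom_snd, constantCoeff_G, lin_G_snd_of_le E le_rfl, add_zero]
    · rw [lin_stepHom_of_ne _ (by omega : m ≠ i)]
      exact ih (by omega)

lemma constantCoeff_pderiv_G (E : ℕ → LND A) {m i : ℕ} (h : i < m) (b : A) :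
    constantCoeff (pderiv i (G E m b)) = (E i).D b := by
  rw [← lin_snd, lin_G_snd_of_lt E h]

lemma G_algebraMap (E : ℕ → LND A) (m : ℕ) (z : ℂ) :
    G E m (algebraMap ℂ A z) = C (algebraMap ℂ A z) := by
  induction m with
  | zero => rfl
  | succ m ih =>
    simp only [G, RingHom.comp_apply, ih, stepHom_C]
    have : (E m).psi (algebraMap ℂ A z) = Polynomial.C (algebraMap ℂ A z) := by
      rw [LND.psi_eq_C_iff]; simp
    rw [this, Polynomial.eval₂_C]

/-- the orbit polynomial of a point under `n` derivations -/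
noncomputable def Xi (E : ℕ → LND A) (n : ℕ) (χ : A →ₐ[ℂ] ℂ) : A →ₐ[ℂ] MvPolynomial ℕ ℂ where
  toRingHom := (MvPolynomial.map (χ : A →+* ℂ)).comp (G E n)
  commutes' z := by
    simp only [RingHom.toMonoidHom_eq_coe, OneHom.toFun_eq_coe, MonoidHom.toOneHom_coe,
      MonoidHom.coe_coe, RingHom.comp_apply, G_algebraMap, map_C]
    rw [MvPolynomial.algebraMap_eq]
    congr 1
    exact χ.commutes z

lemma Xi_apply (E : ℕ → LND A) (n : ℕ) (χ : A →ₐ[ℂ] ℂ) (b : A) :
    Xi E n χ b = MvPolynomial.map (χ : A →+* ℂ) (G E n b) := rfl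

/-- `n` derivations and `n` functions with nonvanishing Jacobian at `χ`, where `n` is the
transcendence degree: the orbit map is injective -/
lemma Xi_injective [IsDomain A] {n : ℕ} (htr : Algebra.trdeg ℂ A = n) (χ : A →ₐ[ℂ] ℂ)
    (E : ℕ → LND A) (f : Fin n → A)
    (hdet : (Matrix.of fun i j : Fin n => χ ((E j).D (f i))).det ≠ 0) {b : A}
    (hb : Xi E n χ b = 0) : b = 0 := by
  classical
  have hF : AlgebraicIndependent ℂ (fun i => Xi E n χ (f i)) := by
    refine algebraicIndependent_of_jacobian _ (fun k : Fin n => (k : ℕ)) 0 ?_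
    convert hdet using 3
    ext i k
    rw [Xi_apply, pderiv_map, eval_map, ← constantCoeff_pderiv_G E k.2 (f i)]
    have : eval₂ (χ : A →+* ℂ) 0 (pderiv (k : ℕ) (G E n (f i))) =
        χ (constantCoeff (pderiv (k : ℕ) (G E n (f i)))) := by
      rw [MvPolynomial.eval₂_zero_apply]
      rfl
    rw [this]
  have hf : AlgebraicIndependent ℂ f := AlgebraicIndependent.of_comp (Xi E n χ) hF
  have hbas : IsTranscendenceBasis ℂ f := by
    refine hf.isTranscendenceBasis_of_lift_trdeg_le_of_finite ?_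
    rw [htr]
    simp
  by_contra hb0
  obtain ⟨r, hr0, s, hs⟩ := (hbas.isAlgebraic.1 b).exists_nonzero_dvd
    (mem_nonZeroDivisors_of_ne_zero hb0)
  obtain ⟨P, hP⟩ := (Algebra.adjoin_range_eq_range_aeval ℂ f ▸ r.2 :
    (r : A) ∈ (aeval f : MvPolynomial (Fin n) ℂ →ₐ[ℂ] A).range)
  have hP' : aeval f P = (r : A) := hP
  have hs' : (r : A) = b * s := hs
  have hXr : Xi E n χ (r : A) = 0 := by rw [hs', map_mul, hb, zero_mul]
  have hP0 : aeval (fun i => Xi E n χ (f i)) P = 0 := by
    rw [← hXr, ← hP']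
    have : (aeval (fun i => Xi E n χ (f i)) : MvPolynomial (Fin n) ℂ →ₐ[ℂ] MvPolynomial ℕ ℂ) =
        (Xi E n χ).comp (aeval f) := by
      apply MvPolynomial.algHom_ext
      intro i
      simp
    rw [this]
    rfl
  have : P = 0 := hF.eq_zero_of_aeval_eq_zero _ hP0
  apply hr0
  apply Subtype.ext
  rw [← hP', this, map_zero]
  rfl

/-- pointwise flexibility: at each complex point there are `n` LNDs and `n` functions with
nonvanishing Jacobian -/
def FlexAlg (A : Type*) [CommRing A] [Algebra ℂ A] (n : ℕ) : Prop :=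
  ∀ χ : A →ₐ[ℂ] ℂ, ∃ (E : Fin n → LND A) (f : Fin n → A),
    (Matrix.of fun i j : Fin n => χ ((E j).D (f i))).det ≠ 0

/-- a maximal ideal of a finitely generated `ℂ`-algebra is the kernel of a complex point -/
lemma exists_point_of_ne_top [Algebra.FiniteType ℂ A] {J : Ideal A} (hJ : J ≠ ⊤) :
    ∃ χ : A →ₐ[ℂ] ℂ, ∀ b ∈ J, χ b = 0 := by
  obtain ⟨M, hM, hJM⟩ := Ideal.exists_le_maximal J hJ
  letI : Field (A ⧸ M) := Ideal.Quotient.field M
  haveI : Algebra.FiniteType ℂ (A ⧸ M) :=
    Algebra.FiniteType.of_surjective (Ideal.Quotient.mkₐ ℂ M) (Ideal.Quotient.mkₐ_surjective ℂ M)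
  haveI : Module.Finite ℂ (A ⧸ M) := finite_of_finite_type_of_isJacobsonRing ℂ (A ⧸ M)
  have hbij : Function.Bijective (algebraMap ℂ (A ⧸ M)) :=
    IsAlgClosed.algebraMap_bijective_of_isIntegral
  let e : ℂ ≃ₐ[ℂ] (A ⧸ M) := AlgEquiv.ofBijective (Algebra.ofId ℂ (A ⧸ M)) hbij
  refine ⟨(e.symm : (A ⧸ M) →ₐ[ℂ] ℂ).comp (Ideal.Quotient.mkₐ ℂ M), fun b hb => ?_⟩
  have : Ideal.Quotient.mkₐ ℂ M b = 0 := by
    rw [Ideal.Quotient.mkₐ_eq_mk]
    exact Ideal.Quotient.eq_zero_iff_mem.2 (hJM hb)
  rw [AlgHom.comp_apply, this, map_zero]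

/-- every element of `A` which vanishes at the whole orbit of a point is zero; in terms of ideals:
a nonzero ideal stable under all LNDs is everything. -/
theorem ideal_eq_top_of_stable [IsDomain A] [Algebra.FiniteType ℂ A] {n : ℕ} (hn : 0 < n)
    (htr : Algebra.trdeg ℂ A = n) (hflex : FlexAlg A n) {J : Ideal A} (hJ0 : J ≠ ⊥)
    (hJ : ∀ E : LND A, E.Stable J) : J = ⊤ := by
  by_contra hJt
  obtain ⟨χ, hχ⟩ := exists_point_of_ne_top hJt
  obtain ⟨E, f, hdet⟩ := hflex χ
  let E' : ℕ → LND A := fun i => if h : i < n then E ⟨i, h⟩ else E ⟨0, hn⟩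
  have hE' : ∀ j : Fin n, E' j = E j := fun j => by simp [E']
  obtain ⟨b, hbJ, hb0⟩ := Submodule.exists_mem_ne_zero_of_ne_bot hJ0
  apply hb0
  refine Xi_injective htr χ E' f ?_ ?_
  · simpa only [hE'] using hdet
  · rw [Xi_apply]
    have h1 := G_mem (E := E') (J := J) (fun i => hJ _) n hbJ
    have h2 : Ideal.map (C : A →+* MvPolynomial ℕ A) J ≤
        RingHom.ker (MvPolynomial.map (σ := ℕ) (χ : A →+* ℂ)) := by
      rw [Ideal.map_le_iff_le_comap]
      intro c hc
      rw [Ideal.mem_comap, RingHom.mem_ker, map_C]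
      have : (χ : A →+* ℂ) c = 0 := hχ c hc
      rw [this, map_zero]
    exact h2 h1

/-- The conductor argument: a subalgebra stable under all LNDs which contains a nonzero ideal is
everything. -/
theorem subalgebra_eq_top_of_stable [IsDomain A] [Algebra.FiniteType ℂ A] {n : ℕ} (hn : 0 < n)
    (htr : Algebra.trdeg ℂ A = n) (hflex : FlexAlg A n) {B : Subalgebra ℂ A}
    (hB : ∀ E : LND A, ∀ b ∈ B, E.D b ∈ B) {c : A} (hc0 : c ≠ 0) (hc : ∀ b, c * b ∈ B) :
    B = ⊤ := by
  let J : Ideal A :=
    { carrier := {c | ∀ b, c * b ∈ B}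
      add_mem' := fun {x y} hx hy b => by rw [add_mul]; exact B.add_mem (hx b) (hy b)
      zero_mem' := fun b => by rw [zero_mul]; exact B.zero_mem
      smul_mem' := fun d x hx b => by
        have := hx (d * b)
        rw [smul_eq_mul]
        convert this using 1
        ring }
  have hJ : J = ⊤ := by
    refine ideal_eq_top_of_stable hn htr hflex ?_ ?_
    · intro h
      apply hc0
      have : c ∈ J := hc
      rw [h] at this
      exact this
    · intro E x hx b
      have h1 := hB E _ (hx b)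
      rw [Derivation.leibniz, smul_eq_mul, smul_eq_mul] at h1
      have h2 := hx (E.D b)
      have : E.D x * b = (x * E.D b + b * E.D x) - x * E.D b := by ring
      rw [this]
      exact B.sub_mem h1 h2
  rw [eq_top_iff]
  intro b _
  have h1 : (1 : A) ∈ J := by rw [hJ]; trivial
  have := h1 b
  rwa [one_mul] at this

end Pool.Agent.RR
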