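import Mathlib

/-!
# Locally nilpotent derivations: exponential, kernels, slices
-/

set_option autoImplicit false

open Polynomial Finset

namespace Pool.Agent.RR

variable {A : Type*} [CommRing A] [Algebra ℂ A]

/-- A locally nilpotent derivation (bundled). -/
structure LND (A : Type*) [CommRing A] [Algebra ℂ A] where
  /-- the derivation -/
  D : Derivation ℂ A A
  /-- local nilpotency -/
  nil : ∀ a : A, ∃ n : ℕ, (⇑D)^[n] a = 0

namespace LND

variable (E : LND A)

/-- the divided power coefficients `D^j a / j!` -/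
noncomputable def c (a : A) (j : ℕ) : A := ((j.factorial : ℂ)⁻¹) • ((⇑E.D)^[j] a)

lemma iter_add (a b : A) (j : ℕ) : (⇑E.D)^[j] (a + b) = (⇑E.D)^[j] a + (⇑E.D)^[j] b := by
  induction j generalizing a b with
  | zero => rfl
  | succ j ih => simp [Function.iterate_succ_apply, ih]

lemma iter_smul (r : ℂ) (a : A) (j : ℕ) : (⇑E.D)^[j] (r • a) = r • (⇑E.D)^[j] a := by
  induction j generalizing a with
  | zero => rfl
  | succ j ih => simp [Function.iterate_succ_apply, ih]

lemma iter_zero (j : ℕ) : (⇑E.D)^[j] (0 : A) = 0 := by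
  induction j with
  | zero => rfl
  | succ j ih => simp [Function.iterate_succ_apply, ih]

lemma iter_eq_zero_of_le {a : A} {n m : ℕ} (h : (⇑E.D)^[n] a = 0) (hnm : n ≤ m) :
    (⇑E.D)^[m] a = 0 := by
  obtain ⟨k, rfl⟩ := Nat.exists_eq_add_of_le hnm
  rw [add_comm, Function.iterate_add_apply, h, iter_zero]

lemma iter_sum {ι : Type*} (s : Finset ι) (f : ι → A) (j : ℕ) :
    (⇑E.D)^[j] (∑ i ∈ s, f i) = ∑ i ∈ s, (⇑E.D)^[j] (f i) := by
  classical
  induction s using Finset.induction_on with
  | empty => simp [iter_zero]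
  | insert i s hi ih => rw [Finset.sum_insert hi, iter_add, ih, Finset.sum_insert hi]

/-- general Leibniz rule -/
lemma iter_mul (a b : A) (n : ℕ) :
    (⇑E.D)^[n] (a * b) =
      ∑ ij ∈ antidiagonal n, n.choose ij.1 • ((⇑E.D)^[ij.1] a * (⇑E.D)^[ij.2] b) := by
  induction n with
  | zero => simp
  | succ n ih =>
    rw [Function.iterate_succ_apply', ih, map_sum,
      Finset.sum_antidiagonal_choose_succ_nsmul
        (fun i j => (⇑E.D)^[i] a * (⇑E.D)^[j] b) n]
    rw [← Finset.sum_add_distrib]
    refine Finset.sum_congr rfl fun ij hij => ?_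
    rw [map_nsmul, Derivation.leibniz, smul_eq_mul, smul_eq_mul, smul_add,
      ← Function.iterate_succ_apply' (⇑E.D) ij.2 b, ← Function.iterate_succ_apply' (⇑E.D) ij.1 a]
    have hsym : n.choose ij.2 = n.choose ij.1 := by
      have h := mem_antidiagonal.1 hij
      rw [← h]
      rw [Nat.choose_symm_add]
    rw [hsym, mul_comm ((⇑E.D)^[ij.2] b)]

lemma c_zero (a : A) : E.c a 0 = a := by simp [c]

lemma c_add (a b : A) (j : ℕ) : E.c (a + b) j = E.c a j + E.c b j := by
  simp [c, iter_add]

lemma c_mul (a b : A) (n : ℕ) :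
    E.c (a * b) n = ∑ ij ∈ antidiagonal n, E.c a ij.1 * E.c b ij.2 := by
  unfold c
  rw [iter_mul, Finset.smul_sum]
  refine Finset.sum_congr rfl fun ij hij => ?_
  have h := mem_antidiagonal.1 hij
  rw [smul_mul_smul_comm, ← Nat.cast_smul_eq_nsmul ℂ, smul_smul]
  congr 1
  have h1 : (n.factorial : ℂ) = (n.choose ij.1 : ℂ) * (ij.1.factorial * ij.2.factorial) := by
    have := Nat.add_choose_mul_factorial_mul_factorial ij.1 ij.2
    rw [h] at this
    have hs : n.choose ij.2 = n.choose ij.1 := by
      rw [← h, Nat.choose_symm_add]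
    rw [hs] at this
    rw [← this]
    push_cast
    ring
  have h2 : (ij.1.factorial : ℂ) ≠ 0 := by exact_mod_cast ij.1.factorial_ne_zero
  have h3 : (ij.2.factorial : ℂ) ≠ 0 := by exact_mod_cast ij.2.factorial_ne_zero
  have h4 : (n.factorial : ℂ) ≠ 0 := by exact_mod_cast n.factorial_ne_zero
  have h5 : (n.choose ij.1 : ℂ) ≠ 0 := by
    intro h5
    rw [h5, zero_mul] at h1
    exact h4 h1
  rw [h1]
  field_simp

lemma c_eq_zero_of_le {a : A} {n m : ℕ} (h : (⇑E.D)^[n] a = 0) (hnm : n ≤ m) :
    E.c a m = 0 := by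
  simp [c, E.iter_eq_zero_of_le h hnm]

/-- the underlying function of the exponential -/
noncomputable def psiFun (a : A) : A[X] :=
  by classical exact ∑ j ∈ range (Nat.find (E.nil a)), monomial j (E.c a j)

lemma coeff_psiFun (a : A) (j : ℕ) : (E.psiFun a).coeff j = E.c a j := by
  classical
  unfold psiFun
  rw [finsetSum_coeff]
  simp only [coeff_monomial]
  rw [Finset.sum_ite_eq']
  split_ifs with h
  · rfl
  · rw [mem_range, not_lt] at h
    exact (E.c_eq_zero_of_le (Nat.find_spec (E.nil a)) h).symm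

/-- the exponential `a ↦ ∑ (D^j a / j!) X^j` as an algebra homomorphism `A → A[X]` -/
noncomputable def psi : A →ₐ[ℂ] A[X] where
  toFun := E.psiFun
  map_one' := by
    ext j
    rw [coeff_psiFun, coeff_one]
    cases j with
    | zero => simp [c]
    | succ j => simp [c, Function.iterate_succ_apply, iter_zero]
  map_mul' a b := by
    ext j
    rw [coeff_psiFun, coeff_mul, c_mul]
    simp [coeff_psiFun]
  map_zero' := by
    ext j
    rw [coeff_psiFun]
    simp [c, iter_zero]
  map_add' a b := by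
    ext j
    rw [coeff_psiFun, coeff_add, coeff_psiFun, coeff_psiFun, c_add]
  commutes' r := by
    ext j
    rw [coeff_psiFun]
    cases j with
    | zero => simp [c, Polynomial.algebraMap_apply]
    | succ j => simp [c, Polynomial.algebraMap_apply, Function.iterate_succ_apply]

@[simp] lemma coeff_psi (a : A) (j : ℕ) : (E.psi a).coeff j = E.c a j := E.coeff_psiFun a j

lemma psi_eq_C_iff (a : A) : E.psi a = C a ↔ E.D a = 0 := by
  constructor
  · intro h
    have h1 : (E.psi a).coeff 1 = 0 := by rw [h, coeff_C]; simp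
    simpa [c] using h1
  · intro h
    ext j
    rw [coeff_psi, coeff_C]
    cases j with
    | zero => simp [c]
    | succ j => simp [c, Function.iterate_succ_apply, h, iter_zero]

lemma psi_injective : Function.Injective E.psi := by
  intro a b h
  have := congrArg (fun p => Polynomial.coeff p 0) h
  simpa [c_zero] using this

section Domain

variable [IsDomain A]

lemma natDegree_psi_eq_zero_iff (a : A) : (E.psi a).natDegree = 0 ↔ E.D a = 0 := by
  rw [← psi_eq_C_iff]
  constructor
  · intro h
    rw [eq_C_of_natDegree_eq_zero h, coeff_psi, c_zero]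
  · intro h
    rw [h, natDegree_C]

/-- kernels of locally nilpotent derivations are factorially closed -/
lemma ker_of_mul {a b : A} (hab : a * b ≠ 0) (h : E.D (a * b) = 0) : E.D a = 0 ∧ E.D b = 0 := by
  have ha : a ≠ 0 := left_ne_zero_of_mul hab
  have hb : b ≠ 0 := right_ne_zero_of_mul hab
  have ha' : E.psi a ≠ 0 := fun h0 => ha (E.psi_injective (by rw [h0, map_zero]))
  have hb' : E.psi b ≠ 0 := fun h0 => hb (E.psi_injective (by rw [h0, map_zero]))
  rw [← natDegree_psi_eq_zero_iff, map_mul, natDegree_mul ha' hb'] at h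
  rw [← natDegree_psi_eq_zero_iff, ← natDegree_psi_eq_zero_iff]
  omega

end Domain

/-- the kernel as a subalgebra -/
def ker : Subalgebra ℂ A where
  carrier := {a | E.D a = 0}
  mul_mem' {a b} ha hb := by
    simp only [Set.mem_ofPred_eq] at *
    simp [Derivation.leibniz, ha, hb]
  add_mem' {a b} ha hb := by
    simp only [Set.mem_ofPred_eq] at *
    simp [ha, hb]
  algebraMap_mem' r := by simp

@[simp] lemma mem_ker {a : A} : a ∈ E.ker ↔ E.D a = 0 := Iff.rfl

/-- kernels are algebraically closed -/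
lemma mem_ker_of_isAlgebraic [IsDomain A] {a : A} (h : IsAlgebraic E.ker a) : E.D a = 0 := by
  obtain ⟨p, hp0, hp⟩ := h
  have hinj : Function.Injective (algebraMap E.ker A) := Subtype.coe_injective
  have key : (p.map (algebraMap E.ker A)).comp (E.psi a) = 0 := by
    have h1 : E.psi (aeval a p) = (p.map (algebraMap E.ker A)).comp (E.psi a) := by
      rw [Polynomial.comp, Polynomial.eval₂_map, Polynomial.aeval_def, Polynomial.eval₂_eq_sum,
        Polynomial.eval₂_eq_sum, Polynomial.sum, Polynomial.sum, map_sum]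
      refine Finset.sum_congr rfl fun i _ => ?_
      rw [map_mul, map_pow]
      congr 1
      exact (E.psi_eq_C_iff _).2 (p.coeff i).2
    rw [← h1, hp, map_zero]
  rcases Polynomial.comp_eq_zero_iff.1 key with h1 | h1
  · exact absurd ((Polynomial.map_eq_zero_iff hinj).1 h1) hp0
  · rw [← psi_eq_C_iff]
    have := h1.2
    rwa [coeff_psi, c_zero] at this

/-! ### slices -/

lemma iter_ker_mul {w : A} (hw : E.D w = 0) (x : A) (n : ℕ) :
    (⇑E.D)^[n] (w * x) = w * (⇑E.D)^[n] x := by
  induction n generalizing x with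
  | zero => rfl
  | succ n ih =>
    rw [Function.iterate_succ_apply, Function.iterate_succ_apply, ← ih]
    congr 1
    simp [Derivation.leibniz, hw]

lemma c_ker_mul {w : A} (hw : E.D w = 0) (x : A) (n : ℕ) :
    E.c (w * x) n = w * E.c x n := by
  simp [c, E.iter_ker_mul hw]

lemma iter_eq_factorial_smul_c (a : A) (n : ℕ) :
    (⇑E.D)^[n] a = (n.factorial : ℂ) • E.c a n := by
  have : (n.factorial : ℂ) ≠ 0 := by exact_mod_cast n.factorial_ne_zero
  rw [c, smul_smul, mul_inv_cancel₀ this, one_smul]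

lemma D_c (a : A) (n : ℕ) : E.D (E.c a n) = ((n + 1 : ℕ) : ℂ) • E.c a (n + 1) := by
  rw [c, Derivation.map_smul, ← Function.iterate_succ_apply' (⇑E.D),
    iter_eq_factorial_smul_c, smul_smul, Nat.factorial_succ]
  congr 1
  have : (n.factorial : ℂ) ≠ 0 := by exact_mod_cast n.factorial_ne_zero
  push_cast
  field_simp

lemma c_slice_pow {r u : A} (hr : E.D r = u) (hu : E.D u = 0) (n : ℕ) :
    E.c (r ^ n) n = u ^ n := by
  have h1 : E.psi r = C u * X + C r := by
    ext j
    rw [coeff_psi]
    match j with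
    | 0 => simp [c]
    | 1 => simp [c, hr]
    | (j + 2) =>
      have : (⇑E.D)^[j + 2] r = 0 := by
        rw [Function.iterate_add_apply]
        simp [Function.iterate_succ_apply, hr, hu, iter_zero]
      simp [c, this, coeff_X, coeff_C]
  rw [← coeff_psi, map_pow, h1]
  have := Polynomial.coeff_pow_of_natDegree_le (p := C u * X + C r) (n := 1) (m := n)
    (by compute_degree)
  rw [mul_one] at this
  rw [this]
  simp

/-- localized slice theorem -/
lemma exists_slice_repr {r u : A} (hr : E.D r = u) (hu : E.D u = 0) (n : ℕ) :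
    ∀ b : A, (⇑E.D)^[n] b = 0 →
      ∃ (M : ℕ) (p : Polynomial E.ker), aeval r p = u ^ M * b := by
  induction n with
  | zero =>
    intro b hb
    exact ⟨0, 0, by simpa using hb.symm⟩
  | succ n ih =>
    intro b hb
    have hw : E.D (E.c b n) = 0 := by
      rw [D_c, E.c_eq_zero_of_le hb le_rfl, smul_zero]
    have hun : E.D (u ^ n) = 0 := by
      rw [Derivation.leibniz_pow, hu]; simp
    have hb' : (⇑E.D)^[n] (u ^ n * b - E.c b n * r ^ n) = 0 := by
      rw [sub_eq_add_neg, ← neg_mul, iter_add, E.iter_ker_mul hun,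
        E.iter_ker_mul (w := -E.c b n) (by simp [hw]), iter_eq_factorial_smul_c,
        iter_eq_factorial_smul_c, c_slice_pow E hr hu]
      rw [mul_smul_comm, mul_smul_comm, ← smul_add]
      have : u ^ n * E.c b n + -E.c b n * u ^ n = 0 := by ring
      rw [this, smul_zero]
    obtain ⟨M, p, hp⟩ := ih _ hb'
    have hker : u ^ M * E.c b n ∈ E.ker := by
      rw [mem_ker, Derivation.leibniz, hw, Derivation.leibniz_pow, hu]; simp
    refine ⟨M + n, p + C (⟨u ^ M * E.c b n, hker⟩ : E.ker) * X ^ n, ?_⟩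
    · simp only [_root_.map_add, _root_.map_mul, _root_.map_pow, aeval_X, aeval_C, hp]
      change u ^ M * (u ^ n * b - E.c b n * r ^ n) + (u ^ M * E.c b n) * r ^ n = _
      ring

lemma exists_local_slice {a : A} (ha : E.D a ≠ 0) :
    ∃ n : ℕ, E.D ((⇑E.D)^[n] a) ≠ 0 ∧ E.D (E.D ((⇑E.D)^[n] a)) = 0 := by
  classical
  let m := Nat.find (E.nil a)
  have hm : (⇑E.D)^[m] a = 0 := Nat.find_spec (E.nil a)
  have hmin : ∀ k < m, (⇑E.D)^[k] a ≠ 0 := fun k hk => Nat.find_min (E.nil a) hk
  have hm2 : 2 ≤ m := by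
    by_contra hlt
    have : m ≤ 1 := by omega
    exact ha (by simpa using E.iter_eq_zero_of_le hm this)
  refine ⟨m - 2, ?_, ?_⟩
  · rw [← Function.iterate_succ_apply' (⇑E.D)]
    exact hmin _ (by omega)
  · rw [← Function.iterate_succ_apply' (⇑E.D), ← Function.iterate_succ_apply' (⇑E.D)]
    have : (m - 2).succ.succ = m := by omega
    rw [this, hm]

/-! ### flows on complex points -/

lemma c_c (a : A) (i j : ℕ) :
    E.c (E.c a i) j = (((i + j).choose i : ℕ) : ℂ) • E.c a (i + j) := by
  have hi : (i.factorial : ℂ) ≠ 0 := by exact_mod_cast i.factorial_ne_zero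
  have hj : (j.factorial : ℂ) ≠ 0 := by exact_mod_cast j.factorial_ne_zero
  have hij : ((i + j).factorial : ℂ) ≠ 0 := by exact_mod_cast (i + j).factorial_ne_zero
  unfold c
  rw [iter_smul, ← Function.iterate_add_apply, smul_smul, smul_smul, add_comm j i]
  congr 1
  have := Nat.add_choose_mul_factorial_mul_factorial i j
  have h2 : (((i + j).choose j : ℕ) : ℂ) * i.factorial * j.factorial = (i + j).factorial := by
    exact_mod_cast this
  have h3 : (i + j).choose i = (i + j).choose j := Nat.choose_symm_add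
  rw [h3]
  field_simp
  rw [← h2]
  ring

/-- the orbit map `A → ℂ[T]` of a point -/
noncomputable def orb (χ : A →ₐ[ℂ] ℂ) : A →ₐ[ℂ] ℂ[X] := (Polynomial.mapAlgHom χ).comp E.psi

lemma coeff_orb (χ : A →ₐ[ℂ] ℂ) (a : A) (j : ℕ) : (E.orb χ a).coeff j = χ (E.c a j) := by
  simp [orb]

/-- the flow on the complex points -/
noncomputable def flow (t : ℂ) (χ : A →ₐ[ℂ] ℂ) : A →ₐ[ℂ] ℂ :=
  (Polynomial.aeval t).comp (E.orb χ)

lemma flow_apply (t : ℂ) (χ : A →ₐ[ℂ] ℂ) (a : A) : E.flow t χ a = (E.orb χ a).eval t := by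
  simp [flow, Polynomial.aeval_def, eval₂_eq_eval_map]

lemma flow_ker {a : A} (ha : E.D a = 0) (t : ℂ) (χ : A →ₐ[ℂ] ℂ) : E.flow t χ a = χ a := by
  have : E.orb χ a = C (χ a) := by
    rw [orb, AlgHom.comp_apply, (E.psi_eq_C_iff a).2 ha]
    simp
  rw [flow_apply, this, eval_C]

lemma flow_zero (χ : A →ₐ[ℂ] ℂ) : E.flow 0 χ = χ := by
  ext a
  rw [flow_apply, ← coeff_zero_eq_eval_zero, coeff_orb, c_zero]

lemma orb_flow (t : ℂ) (χ : A →ₐ[ℂ] ℂ) (a : A) :
    E.orb (E.flow t χ) a = taylor t (E.orb χ a) := by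
  ext i
  rw [coeff_orb, flow_apply, taylor_coeff]
  congr 1
  ext j
  rw [coeff_orb, hasseDeriv_coeff, coeff_orb, c_c, add_comm i j]
  simp

lemma flow_flow (s t : ℂ) (χ : A →ₐ[ℂ] ℂ) : E.flow s (E.flow t χ) = E.flow (s + t) χ := by
  ext a
  rw [flow_apply, orb_flow, taylor_eval, flow_apply]

/-- replica `h • D` of a locally nilpotent derivation, `h` in the kernel -/
noncomputable def replica (h : A) (hh : E.D h = 0) : LND A where
  D := h • E.D
  nil a := by
    have key : ∀ n : ℕ, (⇑(h • E.D))^[n] a = h ^ n * (⇑E.D)^[n] a := by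
      intro n
      induction n with
      | zero => simp
      | succ n ih =>
        rw [Function.iterate_succ_apply', ih, Function.iterate_succ_apply']
        have hn : E.D (h ^ n) = 0 := by rw [Derivation.leibniz_pow, hh]; simp
        simp only [Derivation.coe_smul, Pi.smul_apply, smul_eq_mul, Derivation.leibniz, hn,
          mul_zero, add_zero]
        ring
    obtain ⟨n, hn⟩ := E.nil a
    exact ⟨n, by rw [key, hn, mul_zero]⟩

end LND

end Pool.Agent.RR
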