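import Pool.Agent.RR.Points

/-!
# Same orbit criterion and lying over
-/

set_option autoImplicit false

open Polynomial

namespace Pool.Agent.RR

variable {A : Type*} [CommRing A] [Algebra ℂ A]

namespace LND

variable (E : LND A)

lemma psi_slice {r u : A} (hr : E.D r = u) (hu : E.D u = 0) : E.psi r = C u * X + C r := by
  ext j
  rw [coeff_psi]
  match j with
  | 0 => simp [c]
  | 1 => simp [c, hr]
  | (j + 2) =>
    have : (⇑E.D)^[j + 2] r = 0 := by
      rw [Function.iterate_add_apply]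
      simp [Function.iterate_succ_apply, hr, hu, iter_zero]
    simp [c, this, coeff_X, coeff_C]

lemma flow_slice {r u : A} (hr : E.D r = u) (hu : E.D u = 0) (t : ℂ) (χ : A →ₐ[ℂ] ℂ) :
    E.flow t χ r = χ r + t * χ u := by
  rw [flow_apply, orb, AlgHom.comp_apply, psi_slice E hr hu]
  simp
  ring

/-- two points with the same kernel values are on the same orbit, if `u ≠ 0` there. -/
lemma exists_flow_eq {r u : A} (hr : E.D r = u) (hu : E.D u = 0) {χ χ' : A →ₐ[ℂ] ℂ}
    (hχ : ∀ h, E.D h = 0 → χ h = χ' h) (hne : χ u ≠ 0) : ∃ t : ℂ, E.flow t χ = χ' := by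
  refine ⟨(χ' r - χ r) / χ u, ?_⟩
  set t := (χ' r - χ r) / χ u with ht
  have hker : ∀ h, E.D h = 0 → E.flow t χ h = χ' h := fun h hh => by
    rw [E.flow_ker hh, hχ h hh]
  have hr' : E.flow t χ r = χ' r := by
    rw [E.flow_slice hr hu, ht]
    field_simp
    ring
  ext b
  obtain ⟨m, hm⟩ := E.nil b
  obtain ⟨M, p, hp⟩ := E.exists_slice_repr hr hu m b hm
  have key : ∀ θ : A →ₐ[ℂ] ℂ, θ (aeval r p) = ∑ i ∈ Finset.range (p.natDegree + 1),
      θ ((p.coeff i : E.ker) : A) * θ r ^ i := by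
    intro θ
    rw [aeval_eq_sum_range, _root_.map_sum]
    refine Finset.sum_congr rfl fun i _ => ?_
    have : p.coeff i • r ^ i = ((p.coeff i : E.ker) : A) * r ^ i := rfl
    rw [this, _root_.map_mul, _root_.map_pow]
  have h1 : E.flow t χ (aeval r p) = χ' (aeval r p) := by
    rw [key, key, hr']
    refine Finset.sum_congr rfl fun i _ => ?_
    rw [hker _ (p.coeff i).2]
  rw [hp, _root_.map_mul, _root_.map_mul, _root_.map_pow, _root_.map_pow, hker u hu] at h1
  have hne' : χ' u ≠ 0 := by rw [← hχ u hu]; exact hne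
  exact mul_left_cancel₀ (pow_ne_zero _ hne') h1

/-- lying over along an orbit -/
lemma exists_eval_eq [IsDomain A] (htr : Algebra.trdeg ℂ A = 2) (hE : E.D ≠ 0) {a : A}
    (ha : Transcendental ℂ a) (haE : E.D a = 0) (κ : A →ₐ[ℂ] ℂ[X]) (hκ : 0 < (κ a).natDegree)
    (χ : A →ₐ[ℂ] ℂ) : ∃ t : ℂ, ∀ h, E.D h = 0 → (κ h).eval t = χ h := by
  let φ : E.ker →ₐ[ℂ] ℂ[X] := κ.comp E.ker.val
  let _ : Algebra E.ker ℂ[X] := φ.toRingHom.toAlgebra
  have halg : ∀ h : E.ker, algebraMap E.ker ℂ[X] h = κ h := fun _ => rfl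
  have hinj : Function.Injective (algebraMap E.ker ℂ[X]) := by
    rw [injective_iff_map_eq_zero]
    intro h hh
    apply Subtype.ext
    exact eq_zero_of_map_eq_zero κ hκ (E.ker_algebraic htr hE ha haE h.2) hh
  have hint : Algebra.IsIntegral E.ker ℂ[X] := by
    refine ⟨fun q => ?_⟩
    obtain ⟨P, hPm, hP⟩ := isIntegral_poly hκ q
    let ι : Algebra.adjoin ℂ {κ a} →+* φ.toRingHom.range :=
      { toFun := fun s => ⟨s, by
          have hle : Algebra.adjoin ℂ {κ a} ≤ φ.range := by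
            rw [Algebra.adjoin_le_iff]
            rintro x rfl
            exact ⟨⟨a, haE⟩, rfl⟩
          exact hle s.2⟩
        map_one' := rfl
        map_mul' := fun _ _ => rfl
        map_zero' := rfl
        map_add' := fun _ _ => rfl }
    have hlifts : P.map ι ∈ Polynomial.lifts (φ.toRingHom.rangeRestrict) := by
      rw [Polynomial.lifts_iff_coeff_lifts]
      intro n
      obtain ⟨x, hx⟩ := φ.toRingHom.rangeRestrict_surjective ((P.map ι).coeff n)
      exact ⟨x, hx⟩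
    obtain ⟨Q, hQ, -, hQm⟩ := Polynomial.lifts_and_natDegree_eq_and_monic hlifts (hPm.map ι)
    refine ⟨Q, hQm, ?_⟩
    have h1 : eval₂ φ.toRingHom q Q = eval₂ (φ.toRingHom.range.subtype) q (P.map ι) := by
      rw [← hQ, eval₂_map]
      rfl
    have h2 : eval₂ (φ.toRingHom.range.subtype) q (P.map ι) = 0 := by
      rw [eval₂_map]
      exact hP
    exact h1.trans h2
  let P : Ideal E.ker := RingHom.ker (χ.comp E.ker.val : E.ker →ₐ[ℂ] ℂ)
  have hsurj : Function.Surjective (χ.comp E.ker.val : E.ker →ₐ[ℂ] ℂ) := by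
    intro z
    exact ⟨algebraMap ℂ E.ker z, AlgHom.commutes _ z⟩
  have hPmax : P.IsMaximal := RingHom.ker_isMaximal_of_surjective
    (χ.comp E.ker.val : E.ker →ₐ[ℂ] ℂ) hsurj
  obtain ⟨Q, hQmax, hQ⟩ := Ideal.exists_ideal_over_maximal_of_isIntegral (S := ℂ[X]) P
    (by rw [(RingHom.injective_iff_ker_eq_bot _).1 hinj]; exact bot_le)
  obtain ⟨ψ, hψ⟩ := exists_point_of_isMaximal Q
  refine ⟨ψ X, fun h hh => ?_⟩
  have h1 : ∀ q : ℂ[X], ψ q = q.eval (ψ X) := by
    intro q
    have : ψ = aeval (ψ X) := by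
      ext
      simp
    rw [this]
    simp [aeval_def, eval₂_eq_eval_map]
  rw [← h1]
  have h2 : (⟨h, hh⟩ : E.ker) - algebraMap ℂ E.ker (χ h) ∈ P := by
    rw [RingHom.mem_ker]
    rw [_root_.map_sub, AlgHom.commutes]
    exact sub_self _
  rw [← hQ, Ideal.mem_comap, ← hψ, _root_.map_sub, _root_.map_sub] at h2
  have h3 : ψ (algebraMap E.ker ℂ[X] (algebraMap ℂ E.ker (χ h))) = χ h := by
    have : algebraMap E.ker ℂ[X] (algebraMap ℂ E.ker (χ h)) = algebraMap ℂ ℂ[X] (χ h) :=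
      AlgHom.commutes φ _
    rw [this, AlgHom.commutes]
    rfl
  rw [h3, sub_eq_zero] at h2
  exact h2

end LND

end Pool.Agent.RR
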