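import Mathlib

/-!
# A quantitative selection lemma for polynomials on the unit disc
-/

set_option autoImplicit false

open Polynomial MeasureTheory

namespace Pool.Agent.RR

lemma prod_lower {s : Multiset ℂ} {ρ : ℝ} (hρ : 0 < ρ) {z : ℂ} (hz : ‖z‖ ≤ 1)
    (hr : ∀ r ∈ s, ρ ≤ ‖z - r‖) :
    (ρ / (1 + ρ)) ^ s.card * (s.map (fun a ↦ max 1 ‖a‖)).prod ≤ (s.map (fun r => ‖z - r‖)).prod := by
  induction s using Multiset.induction_on with
  | empty => simp
  | cons a s ih =>
    have h1 := ih (fun r hr' => hr r (Multiset.mem_cons_of_mem hr'))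
    have h2 := hr a (Multiset.mem_cons_self a s)
    rw [Multiset.card_cons, Multiset.map_cons, Multiset.map_cons, Multiset.prod_cons,
      Multiset.prod_cons]
    have h3 : ρ / (1 + ρ) * max 1 ‖a‖ ≤ ‖z - a‖ := by
      have h4 : max 1 ‖a‖ ≤ 1 + ‖z - a‖ := by
        apply max_le
        · linarith [norm_nonneg (z - a)]
        · have : ‖a‖ ≤ ‖z‖ + ‖z - a‖ := by
            have := norm_sub_le z (z - a)
            rwa [sub_sub_cancel] at this
          linarith
      have h5 : ρ / (1 + ρ) * (1 + ‖z - a‖) ≤ ‖z - a‖ := by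
        rw [div_mul_eq_mul_div, div_le_iff₀ (by linarith)]
        nlinarith
      refine le_trans ?_ h5
      exact mul_le_mul_of_nonneg_left h4 (by positivity)
    have h6 : 0 ≤ (ρ / (1 + ρ)) ^ s.card * (s.map (fun a ↦ max 1 ‖a‖)).prod := by
      have : 0 ≤ (s.map (fun a ↦ max 1 ‖a‖)).prod := by
        apply Multiset.prod_nonneg
        intro x hx
        obtain ⟨y, -, rfl⟩ := Multiset.mem_map.1 hx
        exact le_trans zero_le_one (le_max_left _ _)
      positivity
    calc (ρ / (1 + ρ)) ^ (s.card + 1) * (max 1 ‖a‖ * (s.map (fun a ↦ max 1 ‖a‖)).prod)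
        = (ρ / (1 + ρ) * max 1 ‖a‖) * ((ρ / (1 + ρ)) ^ s.card *
            (s.map (fun a ↦ max 1 ‖a‖)).prod) := by rw [pow_succ]; ring
      _ ≤ ‖z - a‖ * (s.map (fun r => ‖z - r‖)).prod := by
          apply mul_le_mul h3 h1 h6 (norm_nonneg _)

lemma eval_lower {p : ℂ[X]} {ρ : ℝ} (hρ : 0 < ρ) {z : ℂ} (hz : ‖z‖ ≤ 1)
    (hr : ∀ r ∈ p.roots, ρ ≤ ‖z - r‖) (n : ℕ) {d : ℕ} (hd : p.natDegree ≤ d) :
    (ρ / (2 * (1 + ρ))) ^ d * ‖p.coeff n‖ ≤ ‖p.eval z‖ := by
  have h1 := p.norm_coeff_le_choose_mul_mahlerMeasure n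
  have h2 : ((p.natDegree.choose n : ℕ) : ℝ) ≤ 2 ^ d := by
    have h3 : p.natDegree.choose n ≤ 2 ^ p.natDegree := by
      by_cases hn : n ≤ p.natDegree
      · rw [← Nat.sum_range_choose]
        exact Finset.single_le_sum (f := fun m => p.natDegree.choose m)
          (fun _ _ => Nat.zero_le _) (Finset.mem_range.2 (by omega))
      · rw [Nat.choose_eq_zero_of_lt (by omega)]; positivity
    have h4 : 2 ^ p.natDegree ≤ 2 ^ d := Nat.pow_le_pow_right (by norm_num) hd
    exact_mod_cast h3.trans h4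
  have hM : 0 ≤ p.mahlerMeasure := Polynomial.mahlerMeasure_nonneg p
  have h5 : ‖p.coeff n‖ ≤ 2 ^ d * p.mahlerMeasure :=
    h1.trans (mul_le_mul_of_nonneg_right h2 hM)
  have h6 : ‖p.eval z‖ = ‖p.leadingCoeff‖ * (p.roots.map (fun r => ‖z - r‖)).prod := by
    rw [(IsAlgClosed.splits p).eval_eq_prod_roots, norm_mul]
    congr 1
    induction p.roots using Multiset.induction_on with
    | empty => simp
    | cons a s ih => simp [ih]
  have h7 := prod_lower hρ hz hr
  have h8 : (ρ / (1 + ρ)) ^ d * p.mahlerMeasure ≤ ‖p.eval z‖ := by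
    rw [h6, Polynomial.mahlerMeasure_eq_leadingCoeff_mul_prod_roots]
    have h9 : (ρ / (1 + ρ)) ^ d ≤ (ρ / (1 + ρ)) ^ p.roots.card := by
      apply pow_le_pow_of_le_one
      · positivity
      · rw [div_le_one (by linarith)]; linarith
      · exact (Polynomial.card_roots' p).trans hd
    have h10 : 0 ≤ (p.roots.map (fun a ↦ max 1 ‖a‖)).prod := by
      apply Multiset.prod_nonneg
      intro x hx
      obtain ⟨y, -, rfl⟩ := Multiset.mem_map.1 hx
      exact le_trans zero_le_one (le_max_left _ _)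
    calc (ρ / (1 + ρ)) ^ d * (‖p.leadingCoeff‖ * (p.roots.map (fun a ↦ max 1 ‖a‖)).prod)
        = ‖p.leadingCoeff‖ * ((ρ / (1 + ρ)) ^ d * (p.roots.map (fun a ↦ max 1 ‖a‖)).prod) := by
          ring
      _ ≤ ‖p.leadingCoeff‖ *
          ((ρ / (1 + ρ)) ^ p.roots.card * (p.roots.map (fun a ↦ max 1 ‖a‖)).prod) := by
          gcongr
      _ ≤ _ := mul_le_mul_of_nonneg_left h7 (norm_nonneg _)
  calc (ρ / (2 * (1 + ρ))) ^ d * ‖p.coeff n‖
      ≤ (ρ / (2 * (1 + ρ))) ^ d * (2 ^ d * p.mahlerMeasure) := by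
        apply mul_le_mul_of_nonneg_left h5; positivity
    _ = (ρ / (1 + ρ)) ^ d * p.mahlerMeasure := by
        rw [← mul_assoc, ← mul_pow]
        congr 2
        field_simp
    _ ≤ _ := h8

/-- the radii of the excluded discs -/
noncomputable def rad (d k : ℕ) : ℝ := (1 / 2) ^ (k + 1) / (d + 1)

lemma rad_pos (d k : ℕ) : 0 < rad d k := by unfold rad; positivity

/-- the constants of the selection lemma -/
noncomputable def eta (d k : ℕ) : ℝ := (rad d k / (2 * (1 + rad d k))) ^ d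

lemma eta_pos (d k : ℕ) : 0 < eta d k := by
  have := rad_pos d k
  unfold eta; positivity

theorem exists_good_param (d : ℕ) (p : ℕ → ℂ[X]) (hp : ∀ k, (p k).natDegree ≤ d)
    {ι : Type*} [Countable ι] (q : ι → ℂ[X]) (hq : ∀ j, q j ≠ 0) :
    ∃ z : ℂ, ‖z‖ ≤ 1 ∧ (∀ k n, eta d k * ‖(p k).coeff n‖ ≤ ‖(p k).eval z‖) ∧
      ∀ j, (q j).eval z ≠ 0 := by
  classical
  set B₁ : ℕ → Set ℂ := fun k => ⋃ r ∈ (p k).roots.toFinset, Metric.ball r (rad d k) with hB₁
  set B₂ : ι → Set ℂ := fun j => ((q j).roots.toFinset : Set ℂ) with hB₂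
  have hv₁ : ∀ k, volume (B₁ k) ≤ ENNReal.ofReal ((1 / 4) ^ (k + 1)) * NNReal.pi := by
    intro k
    have h1 : volume (B₁ k) ≤ ∑ r ∈ (p k).roots.toFinset, volume (Metric.ball r (rad d k)) :=
      measure_biUnion_finset_le _ _
    refine h1.trans ?_
    simp only [Complex.volume_ball]
    rw [Finset.sum_const, nsmul_eq_mul, ← mul_assoc]
    gcongr
    have hcard : (p k).roots.toFinset.card ≤ d :=
      (Multiset.toFinset_card_le _).trans ((Polynomial.card_roots' _).trans (hp k))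
    rw [← ENNReal.ofReal_pow (rad_pos d k).le, ← ENNReal.ofReal_natCast,
      ← ENNReal.ofReal_mul (by positivity)]
    apply ENNReal.ofReal_le_ofReal
    have h2 : (((p k).roots.toFinset.card : ℕ) : ℝ) ≤ d := by exact_mod_cast hcard
    have h3 : (0 : ℝ) ≤ d := by positivity
    have h4 : (((p k).roots.toFinset.card : ℕ) : ℝ) * rad d k ^ 2 ≤ (d : ℝ) * rad d k ^ 2 := by
      apply mul_le_mul_of_nonneg_right h2; positivity
    have h5 : (d : ℝ) * rad d k ^ 2 = (1 / 4 : ℝ) ^ (k + 1) * ((d : ℝ) / ((d : ℝ) + 1) ^ 2) := by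
      unfold rad
      have : ((1 : ℝ) / 4) = (1 / 2) ^ 2 := by norm_num
      rw [this, ← pow_mul, mul_comm 2 (k + 1), pow_mul]
      field_simp
    have h6 : (1 / 4 : ℝ) ^ (k + 1) * ((d : ℝ) / ((d : ℝ) + 1) ^ 2) ≤ (1 / 4 : ℝ) ^ (k + 1) * 1 := by
      apply mul_le_mul_of_nonneg_left _ (by positivity)
      rw [div_le_one (by positivity)]
      nlinarith
    rw [h5] at h4
    rw [mul_one] at h6
    exact h4.trans h6
  have hv₂ : volume (⋃ j, B₂ j) = 0 := by
    apply Set.Countable.measure_zero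
    apply Set.countable_iUnion
    intro j
    exact (Finset.finite_toSet _).countable
  have hv : volume ((⋃ k, B₁ k) ∪ ⋃ j, B₂ j) < volume (Metric.closedBall (0 : ℂ) 1) := by
    have h1 : volume (⋃ k, B₁ k) ≤ ENNReal.ofReal (1 / 3) * NNReal.pi := by
      refine (measure_iUnion_le _).trans ((ENNReal.tsum_le_tsum hv₁).trans ?_)
      rw [ENNReal.tsum_mul_right]
      gcongr
      rw [← ENNReal.ofReal_tsum_of_nonneg (fun n => by positivity)]
      · apply ENNReal.ofReal_le_ofReal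
        have : ∑' n : ℕ, ((1 : ℝ) / 4) ^ (n + 1) = 1 / 3 := by
          simp_rw [pow_succ]
          rw [tsum_mul_right, tsum_geometric_of_lt_one (by norm_num) (by norm_num)]
          norm_num
        rw [this]
      · simp_rw [pow_succ]
        exact (summable_geometric_of_lt_one (by norm_num) (by norm_num)).mul_right _
    calc volume ((⋃ k, B₁ k) ∪ ⋃ j, B₂ j) ≤ volume (⋃ k, B₁ k) + volume (⋃ j, B₂ j) :=
          measure_union_le _ _
      _ ≤ ENNReal.ofReal (1 / 3) * NNReal.pi := by rw [hv₂, add_zero]; exact h1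
      _ < volume (Metric.closedBall (0 : ℂ) 1) := by
          rw [Complex.volume_closedBall, ENNReal.ofReal_one, one_pow]
          apply ENNReal.mul_lt_mul_left
          · exact ENNReal.coe_ne_zero.2 NNReal.pi_ne_zero
          · exact ENNReal.coe_ne_top
          · rw [← ENNReal.ofReal_one]
            exact (ENNReal.ofReal_lt_ofReal_iff (by norm_num)).2 (by norm_num)
  obtain ⟨z, hz1, hz2⟩ : ∃ z ∈ Metric.closedBall (0 : ℂ) 1, z ∉ (⋃ k, B₁ k) ∪ ⋃ j, B₂ j := by
    by_contra hcon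
    push Not at hcon
    exact absurd (measure_mono (fun z hz => hcon z hz)) (not_le.2 hv)
  have hz : ‖z‖ ≤ 1 := by simpa using hz1
  refine ⟨z, hz, ?_, ?_⟩
  · intro k n
    refine eval_lower (rad_pos d k) hz ?_ n (hp k)
    intro r hr
    by_contra hlt
    push Not at hlt
    apply hz2
    left
    refine Set.mem_iUnion.2 ⟨k, ?_⟩
    refine Set.mem_iUnion₂.2 ⟨r, Multiset.mem_toFinset.2 hr, ?_⟩
    rw [Metric.mem_ball, dist_eq_norm]
    exact hlt
  · intro j hj
    apply hz2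
    right
    refine Set.mem_iUnion.2 ⟨j, ?_⟩
    simp only [hB₂, Finset.mem_coe, Multiset.mem_toFinset]
    exact (Polynomial.mem_roots (hq j)).2 hj

end Pool.Agent.RR
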