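import Pool.Agent.RR.DimTwoHD

/-!
# Locally nilpotent representations of `sl₂`
-/

set_option autoImplicit false

open Polynomial

namespace Pool.Agent.RR

/-- A representation of `sl₂` on which `e` and `f` are locally nilpotent. -/
structure SlRep (V : Type*) [AddCommGroup V] [Module ℂ V] where
  /-- raising operator -/
  e : V →ₗ[ℂ] V
  /-- lowering operator -/
  f : V →ₗ[ℂ] V
  /-- weight operator -/
  h : V →ₗ[ℂ] V
  ef : ∀ v, e (f v) = f (e v) + h v
  he : ∀ v, h (e v) = e (h v) + (2 : ℂ) • e v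
  hf : ∀ v, h (f v) = f (h v) - (2 : ℂ) • f v
  ne : ∀ v, ∃ n : ℕ, (⇑e)^[n] v = 0
  nf : ∀ v, ∃ n : ℕ, (⇑f)^[n] v = 0

namespace SlRep

variable {V : Type*} [AddCommGroup V] [Module ℂ V] (T : SlRep V)

/-- exchange the roles of `e` and `f` -/
def swap : SlRep V where
  e := T.f
  f := T.e
  h := -T.h
  ef v := by rw [LinearMap.neg_apply, T.ef]; abel
  he v := by rw [LinearMap.neg_apply, LinearMap.neg_apply, _root_.map_neg, T.hf]; abel
  hf v := by rw [LinearMap.neg_apply, LinearMap.neg_apply, _root_.map_neg, T.he]; abel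
  ne := T.nf
  nf := T.ne

/-- polynomials in `h` -/
noncomputable def ph (p : ℂ[X]) : V →ₗ[ℂ] V := aeval T.h p

lemma ph_mul (p q : ℂ[X]) (v : V) : T.ph (p * q) v = T.ph p (T.ph q v) := by
  simp [ph]

lemma ph_add (p q : ℂ[X]) (v : V) : T.ph (p + q) v = T.ph p v + T.ph q v := by
  simp [ph]

lemma ph_one (v : V) : T.ph 1 v = v := by simp [ph]

lemma ph_X_sub_C (c : ℂ) (v : V) : T.ph (X - C c) v = T.h v - c • v := by
  simp [ph]

lemma ph_comm (p q : ℂ[X]) (v : V) : T.ph p (T.ph q v) = T.ph q (T.ph p v) := by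
  rw [← ph_mul, ← ph_mul, mul_comm]

/-- a polynomial in `h` moved past `e` -/
lemma ph_e (p : ℂ[X]) (v : V) : T.ph p (T.e v) = T.e (T.ph (p.comp (X + C 2)) v) := by
  induction p using Polynomial.induction_on' generalizing v with
  | add p q hp hq => rw [ph_add, add_comp, ph_add, hp, hq, _root_.map_add]
  | monomial n a =>
    rw [← C_mul_X_pow_eq_monomial, mul_comp, C_comp, pow_comp, X_comp, ph_mul, ph_mul]
    have hC : ∀ w, T.ph (C a) w = a • w := fun w => by simp [ph]
    rw [hC, hC, map_smul]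
    congr 1
    induction n generalizing v with
    | zero => simp [ph_one]
    | succ n ih =>
      rw [pow_succ, ph_mul, pow_succ, ph_mul, ← ih]
      congr 1
      simp only [ph, aeval_X, aeval_C, _root_.map_add, LinearMap.add_apply, T.he]
      simp

lemma exists_ph_e (p : ℂ[X]) : ∃ q : ℂ[X], ∀ v, T.ph p (T.e v) = T.e (T.ph q v) :=
  ⟨_, T.ph_e p⟩

/-- a polynomial in `h` moved past `e`, in the other direction -/
lemma e_ph (p : ℂ[X]) (v : V) : T.e (T.ph p v) = T.ph (p.comp (X - C 2)) (T.e v) := by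
  rw [ph_e, comp_assoc]
  simp

lemma ph_e_iter (p : ℂ[X]) (n : ℕ) (v : V) :
    ∃ u, T.ph p ((⇑T.e)^[n] v) = (⇑T.e)^[n] u := by
  induction n generalizing p with
  | zero => exact ⟨_, rfl⟩
  | succ n ih =>
    rw [Function.iterate_succ_apply', ph_e]
    obtain ⟨u, hu⟩ := ih (p.comp (X + C 2))
    exact ⟨u, by rw [hu, Function.iterate_succ_apply']⟩

lemma iter_zero (n : ℕ) : (⇑T.e)^[n] (0 : V) = 0 := by
  induction n with
  | zero => rfl
  | succ n ih => rw [Function.iterate_succ_apply', ih, _root_.map_zero]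

lemma iter_smul (n : ℕ) (c : ℂ) (v : V) : (⇑T.e)^[n] (c • v) = c • (⇑T.e)^[n] v := by
  induction n with
  | zero => rfl
  | succ n ih => rw [Function.iterate_succ_apply', ih, Function.iterate_succ_apply', map_smul]

lemma iter_sub (n : ℕ) (v w : V) :
    (⇑T.e)^[n] (v - w) = (⇑T.e)^[n] v - (⇑T.e)^[n] w := by
  induction n with
  | zero => rfl
  | succ n ih => simp only [Function.iterate_succ_apply', ih, _root_.map_sub]

/-- `e f^{m+1} = f^{m+1} e + (m+1) f^m (h - m)` -/
lemma e_f_iter (m : ℕ) (v : V) : T.e ((⇑T.f)^[m + 1] v) =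
    (⇑T.f)^[m + 1] (T.e v) + ((m : ℂ) + 1) • (⇑T.f)^[m] (T.h v - (m : ℂ) • v) := by
  induction m generalizing v with
  | zero => simp [T.ef]
  | succ m ih =>
    rw [Function.iterate_succ_apply, ih (T.f v), T.ef, T.hf]
    have h1 : ∀ x y : V, (⇑T.f)^[m + 1] (x + y) = (⇑T.f)^[m + 1] x + (⇑T.f)^[m + 1] y := by
      intro x y
      have := T.swap.iter_sub (m + 1) x (-y)
      have h2 := T.swap.iter_smul (m + 1) (-1) y
      simp only [swap] at this h2
      rw [sub_neg_eq_add] at this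
      rw [this, ← neg_one_smul ℂ y, h2, neg_one_smul, sub_neg_eq_add]
    have h3 : T.f (T.h v) - (2 : ℂ) • T.f v - (m : ℂ) • T.f v =
        T.f (T.h v - ((m : ℂ) + 2) • v) := by
      rw [_root_.map_sub, map_smul, add_smul]
      abel
    rw [h1, h3, ← Function.iterate_succ_apply, ← Function.iterate_succ_apply, add_assoc]
    congr 1
    have h4 : ∀ c : ℂ, (⇑T.f)^[m + 1] (T.h v - c • v) =
        (⇑T.f)^[m + 1] (T.h v) - c • (⇑T.f)^[m + 1] v := by
      intro c
      have := T.swap.iter_sub (m + 1) (T.h v) (c • v)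
      have h2 := T.swap.iter_smul (m + 1) c v
      simp only [swap] at this h2
      rw [this, h2]
    rw [Nat.succ_eq_add_one, h4, h4]
    push_cast
    module

/-- the polynomials `X (X - 1) ⋯ (X - m + 1)` -/
noncomputable def fall (m : ℕ) : ℂ[X] := ∏ j ∈ Finset.range m, (X - C (j : ℂ))

lemma fall_succ (m : ℕ) : fall (m + 1) = fall m * (X - C (m : ℂ)) := by
  rw [fall, Finset.prod_range_succ, fall]

/-- weights of vectors killed by `f e` -/
lemma ph_fall {w : V} (hw : T.f (T.e w) = 0) {m : ℕ} (hm : (⇑T.f)^[m] w = 0) :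
    T.ph (fall m) w = 0 := by
  induction m generalizing w with
  | zero =>
    rw [Function.iterate_zero, id_eq] at hm
    rw [hm, _root_.map_zero]
  | succ m ih =>
    have h1 := T.e_f_iter m w
    have h0 : (⇑T.f)^[m + 1] (T.e w) = 0 := by
      rw [Function.iterate_succ_apply, hw]
      exact T.swap.iter_zero m
    rw [hm, _root_.map_zero, h0, zero_add] at h1
    have h2 : (⇑T.f)^[m] (T.h w - (m : ℂ) • w) = 0 := by
      refine (smul_eq_zero.1 h1.symm).resolve_left ?_
      exact_mod_cast Nat.succ_ne_zero m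
    rw [fall_succ, ph_mul, ph_X_sub_C]
    refine ih ?_ h2
    have h3 : T.e (T.h w) = T.h (T.e w) - (2 : ℂ) • T.e w := by rw [T.he]; abel
    have h4 : T.f (T.h (T.e w)) = T.h (T.f (T.e w)) + (2 : ℂ) • T.f (T.e w) := by
      rw [T.hf]; abel
    rw [_root_.map_sub, _root_.map_sub, h3, _root_.map_sub, h4, map_smul, map_smul, map_smul, hw]
    simp

lemma swap_ph (p : ℂ[X]) (v : V) : T.swap.ph p v = T.ph (p.comp (-X)) v := by
  have : aeval (-T.h) p = aeval T.h (p.comp (-X)) := by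
    rw [aeval_comp]
    simp
  exact congrFun (congrArg DFunLike.coe this) v

lemma isCoprime_linear {a b : ℂ} (h : a ≠ b) : IsCoprime (X - C a) (X - C b) :=
  isCoprime_X_sub_C_of_isUnit_sub (sub_ne_zero.2 h).isUnit

lemma eq_zero_of_coprime {p q : ℂ[X]} (h : IsCoprime p q) {v : V} (hp : T.ph p v = 0)
    (hq : T.ph q v = 0) : v = 0 := by
  obtain ⟨a, b, hab⟩ := h
  rw [← T.ph_one v, ← hab, ph_add, ph_mul, ph_mul, hp, hq, _root_.map_zero, _root_.map_zero,
    add_zero]

/-- `ker (f e) = ker e` -/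
lemma e_eq_zero {v : V} (hv : T.f (T.e v) = 0) : T.e v = 0 := by
  obtain ⟨m, hm⟩ := T.nf v
  have h1 := T.ph_fall hv hm
  have h2 : T.ph ((fall m).comp (X - C 2)) (T.e v) = 0 := by
    rw [← e_ph, h1, _root_.map_zero]
  obtain ⟨n, hn⟩ := T.ne (T.e v)
  have h3 : T.swap.ph (fall n) (T.e v) = 0 := by
    refine T.swap.ph_fall ?_ hn
    change T.e (T.f (T.e v)) = 0
    rw [hv, _root_.map_zero]
  rw [swap_ph] at h3
  refine T.eq_zero_of_coprime ?_ h2 h3
  rw [fall, fall, prod_comp, prod_comp]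
  refine IsCoprime.prod_left fun i _ => IsCoprime.prod_right fun j _ => ?_
  rw [sub_comp, X_comp, C_comp, sub_comp, X_comp, C_comp]
  have h4 : (X : ℂ[X]) - C 2 - C (i : ℂ) = X - C ((2 : ℂ) + i) := by rw [C_add]; ring
  have h5 : -(X : ℂ[X]) - C (j : ℂ) = -(X - C (-(j : ℂ))) := by rw [C_neg]; ring
  rw [h4, h5]
  refine (isCoprime_linear ?_).neg_right
  intro h
  have h6 : ((2 + i + j : ℕ) : ℂ) = 0 := by
    push_cast
    rw [h]
    ring
  have h7 := Nat.cast_eq_zero.1 h6
  omega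

/-- `f (im e^{a+1}) ⊆ im e^a` -/
lemma f_im (a : ℕ) (u : V) : ∃ w, T.f ((⇑T.e)^[a + 1] u) = (⇑T.e)^[a] w := by
  have h := T.swap.e_f_iter a u
  simp only [swap, LinearMap.neg_apply] at h
  refine ⟨T.e (T.f u) + ((a : ℂ) + 1) • (-T.h u - (a : ℂ) • u), ?_⟩
  rw [h, Function.iterate_succ_apply]
  have h1 : ∀ x y : V, (⇑T.e)^[a] (x + y) = (⇑T.e)^[a] x + (⇑T.e)^[a] y := by
    intro x y
    have := T.iter_sub a x (-y)
    have h2 := T.iter_smul a (-1) y
    rw [sub_neg_eq_add] at this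
    rw [this, ← neg_one_smul ℂ y, h2, neg_one_smul, sub_neg_eq_add]
  rw [h1, iter_smul]

lemma f_iter_im (b a : ℕ) (u : V) :
    ∃ w, (⇑T.f)^[b] ((⇑T.e)^[a + b] u) = (⇑T.e)^[a] w := by
  induction b generalizing a u with
  | zero => exact ⟨u, rfl⟩
  | succ b ih =>
    obtain ⟨w, hw⟩ := ih (a + 1) u
    rw [Function.iterate_succ_apply', show a + (b + 1) = a + 1 + b by ring, hw]
    exact T.f_im a w

/-- `im e^n ∩ ker f^n = 0` -/
lemma eq_zero_of_iter {n : ℕ} {u : V} (h : (⇑T.f)^[n] ((⇑T.e)^[n] u) = 0) :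
    (⇑T.e)^[n] u = 0 := by
  suffices H : ∀ k, k ≤ n → (⇑T.f)^[k] ((⇑T.e)^[n] u) = 0 → (⇑T.e)^[n] u = 0 from
    H n le_rfl h
  intro k
  induction k with
  | zero => exact fun _ h0 => h0
  | succ k ih =>
    intro hk h0
    refine ih (by omega) ?_
    obtain ⟨a, ha⟩ := Nat.exists_eq_add_of_le hk
    obtain ⟨w, hw⟩ := T.f_iter_im k (a + 1) u
    have hn : a + 1 + k = n := by omega
    rw [hn] at hw
    rw [Function.iterate_succ_apply', hw] at h0
    rw [hw, Function.iterate_succ_apply']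
    rw [Function.iterate_succ_apply'] at h0
    exact T.e_eq_zero h0

/-- `e^n f^n w = n! h (h-1) ⋯ (h-n+1) w` for `w` in the kernel of `e` -/
lemma e_iter_f_iter {w : V} (hw : T.e w = 0) (n : ℕ) :
    (⇑T.e)^[n] ((⇑T.f)^[n] w) = (n.factorial : ℂ) • T.ph (fall n) w := by
  induction n generalizing w with
  | zero => simp [fall, ph_one]
  | succ n ih =>
    rw [Function.iterate_succ_apply, e_f_iter, hw]
    have h0 : (⇑T.f)^[n + 1] (0 : V) = 0 := T.swap.iter_zero (n + 1)
    rw [h0, zero_add, iter_smul, ih]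
    · rw [fall_succ, ph_mul, ph_X_sub_C, smul_smul, Nat.factorial_succ]
      push_cast
      rfl
    · have h3 : T.e (T.h w) = T.h (T.e w) - (2 : ℂ) • T.e w := by rw [T.he]; abel
      rw [_root_.map_sub, map_smul, h3, hw]
      simp

lemma fall_dvd {k m : ℕ} (h : k ≤ m) :
    fall m = fall k * ∏ j ∈ Finset.Ico k m, (X - C (j : ℂ)) := by
  rw [fall, fall, Finset.prod_range_mul_prod_Ico _ h]

lemma e_ph_ker {w : V} (hw : T.e w = 0) (p : ℂ[X]) : T.e (T.ph p w) = 0 := by
  rw [e_ph, hw, _root_.map_zero]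

/-- vectors of `ker e ∩ im e^k` come from `im e^k f^k` -/
lemma exists_lift {k : ℕ} {v : V} (hv : (⇑T.e)^[k + 1] v = 0) :
    ∃ a : ℂ[X], (⇑T.e)^[k] v = (⇑T.e)^[k] ((⇑T.f)^[k] (T.ph a ((⇑T.e)^[k] v))) := by
  set y := (⇑T.e)^[k] v with hy
  have hey : T.e y = 0 := by rw [hy, ← Function.iterate_succ_apply' (⇑T.e) k v, hv]
  obtain ⟨m₀, hm₀⟩ := T.nf y
  obtain ⟨m, hkm, hm⟩ : ∃ m, k ≤ m ∧ (⇑T.f)^[m] y = 0 := by
    refine ⟨k + m₀, by omega, ?_⟩
    rw [Function.iterate_add_apply, hm₀]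
    exact T.swap.iter_zero k
  have h1 : T.ph (fall m) y = 0 := T.ph_fall (by rw [hey, _root_.map_zero]) hm
  set Q : ℂ[X] := ∏ j ∈ Finset.Ico k m, (X - C (j : ℂ)) with hQ
  have hcop : IsCoprime (fall k) Q := by
    refine IsCoprime.prod_left fun i hi => IsCoprime.prod_right fun j hj => ?_
    refine isCoprime_linear ?_
    rw [Finset.mem_range] at hi
    rw [Finset.mem_Ico] at hj
    intro h
    have := Nat.cast_injective h
    omega
  -- the part of small weight vanishes
  have h2 : T.ph Q y = 0 := by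
    have h3 : T.e (T.ph Q y) = 0 := T.e_ph_ker hey Q
    have h4 : T.ph (fall k) (T.ph Q y) = 0 := by rw [← ph_mul, ← fall_dvd hkm, h1]
    have h5 := T.e_iter_f_iter h3 k
    rw [h4, smul_zero] at h5
    have h6 : (⇑T.f)^[k] (T.ph Q y) = 0 := T.swap.eq_zero_of_iter (n := k) (u := T.ph Q y) h5
    obtain ⟨u, hu⟩ := T.ph_e_iter Q k v
    rw [← hy] at hu
    rw [hu] at h6 ⊢
    exact T.eq_zero_of_iter h6
  obtain ⟨a, b, hab⟩ := hcop
  refine ⟨C ((k.factorial : ℂ)⁻¹) * a, ?_⟩
  rw [T.e_iter_f_iter (T.e_ph_ker hey _)]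
  have h7 : y = T.ph (fall k) (T.ph a y) := by
    conv_lhs => rw [← T.ph_one y, ← hab, ph_add, T.ph_mul b Q, h2, _root_.map_zero, add_zero,
      mul_comm, ph_mul]
  have h8 : T.ph (C ((k.factorial : ℂ)⁻¹)) (T.ph a y) = ((k.factorial : ℂ)⁻¹) • T.ph a y := by
    simp [ph]
  rw [ph_mul, h8, map_smul, ← h7, smul_smul, mul_inv_cancel₀, one_smul]
  exact_mod_cast Nat.factorial_ne_zero k

/-- **A subrepresentation containing the kernel of `e` is everything.** -/
theorem eq_top (S : Submodule ℂ V) (hSe : ∀ v ∈ S, T.e v ∈ S) (hSf : ∀ v ∈ S, T.f v ∈ S)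
    (hker : ∀ v, T.e v = 0 → v ∈ S) : S = ⊤ := by
  have hSh : ∀ v ∈ S, T.h v ∈ S := by
    intro v hv
    have : T.h v = T.e (T.f v) - T.f (T.e v) := by rw [T.ef]; abel
    rw [this]
    exact S.sub_mem (hSe _ (hSf _ hv)) (hSf _ (hSe _ hv))
  have hSp : ∀ (p : ℂ[X]), ∀ v ∈ S, T.ph p v ∈ S := by
    intro p v hv
    induction p using Polynomial.induction_on' with
    | add p q hp hq => rw [ph_add]; exact S.add_mem hp hq
    | monomial n a =>
      rw [← C_mul_X_pow_eq_monomial, ph_mul]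
      have hC : ∀ w, T.ph (C a) w = a • w := fun w => by simp [ph]
      rw [hC]
      refine S.smul_mem _ ?_
      induction n with
      | zero => simpa [ph_one] using hv
      | succ n ih =>
        rw [pow_succ', ph_mul]
        have hX : ∀ w, T.ph X w = T.h w := fun w => by simp [ph]
        rw [hX]
        exact hSh _ ih
  have hSfi : ∀ n, ∀ v ∈ S, (⇑T.f)^[n] v ∈ S := by
    intro n v hv
    induction n with
    | zero => exact hv
    | succ n ih => rw [Function.iterate_succ_apply']; exact hSf _ ih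
  have key : ∀ k : ℕ, ∀ v, (⇑T.e)^[k] v = 0 → v ∈ S := by
    intro k
    induction k with
    | zero => intro v hv; rw [Function.iterate_zero, id_eq] at hv; rw [hv]; exact S.zero_mem
    | succ k ih =>
      intro v hv
      obtain ⟨a, ha⟩ := T.exists_lift hv
      have hy : (⇑T.e)^[k] v ∈ S := by
        apply hker
        rw [← Function.iterate_succ_apply' (⇑T.e) k v, hv]
      have hs := hSfi k _ (hSp a _ hy)
      have h1 : (⇑T.e)^[k] (v - (⇑T.f)^[k] (T.ph a ((⇑T.e)^[k] v))) = 0 := by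
        rw [iter_sub, ← ha, sub_self]
      have h2 := S.add_mem (ih _ h1) hs
      rwa [sub_add_cancel] at h2
  rw [eq_top_iff]
  intro v _
  obtain ⟨n, hn⟩ := T.ne v
  exact key n v hn

end SlRep

variable {A : Type*} [CommRing A] [IsDomain A] [Algebra ℂ A]

/-- If there is a nontrivial action of `sl₂` by derivations, with locally nilpotent `e` and `f`,
then the kernels generate. -/
theorem HD_eq_top_of_sl2 [Algebra.FiniteType ℂ A] (E F : LND A) (hE : E.D ≠ 0)
    (h1 : ⁅⁅E.D, F.D⁆, E.D⁆ = (2 : ℂ) • E.D) (h2 : ⁅⁅E.D, F.D⁆, F.D⁆ = -((2 : ℂ) • F.D)) :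
    HD A = ⊤ := by
  let T : SlRep A :=
    { e := (E.D : A →ₗ[ℂ] A)
      f := (F.D : A →ₗ[ℂ] A)
      h := (⁅E.D, F.D⁆ : Derivation ℂ A A)
      ef := fun v => by
        simp only [Derivation.coeFn_coe, Derivation.commutator_apply]
        abel
      he := fun v => by
        have := congrArg (fun d : Derivation ℂ A A => d v) h1
        simp only [Derivation.commutator_apply (D1 := ⁅E.D, F.D⁆), Derivation.smul_apply] at this
        simp only [Derivation.coeFn_coe]
        rw [← this]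
        abel
      hf := fun v => by
        have := congrArg (fun d : Derivation ℂ A A => d v) h2
        simp only [Derivation.commutator_apply (D1 := ⁅E.D, F.D⁆), Derivation.neg_apply,
          Derivation.smul_apply] at this
        simp only [Derivation.coeFn_coe]
        rw [sub_eq_add_neg, ← this]
        abel
      ne := E.nil
      nf := F.nil }
  have hst := HD_stable (A := A)
  have := T.eq_top (Subalgebra.toSubmodule (HD A)) (fun v hv => hst E v hv)
    (fun v hv => hst F v hv) (fun v hv => mem_HD_of_ker hE hv)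
  rw [← Algebra.toSubmodule_eq_top]
  exact this

end Pool.Agent.RR
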