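import Pool.Agent.RR.Conj

/-!
# A family of LNDs stable under small conjugations spans the tangent space
-/

set_option autoImplicit false

open Polynomial Topology

namespace Pool.Agent.RR

variable {A : Type*} [CommRing A] [Algebra ℂ A]

/-- polynomial curves with prescribed value and derivative at `0` -/
def PC (F : ℂ → A) (a b : A) : Prop :=
  ∃ P : A[X], (∀ t, F t = P.eval (algebraMap ℂ A t)) ∧ P.coeff 0 = a ∧ P.coeff 1 = b

lemma PC.linear {F : ℂ → A} {a b : A} (hF : PC F a b) (θ : A →ₗ[ℂ] A) :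
    PC (fun t => θ (F t)) (θ a) (θ b) := by
  obtain ⟨P, hP, h0, h1⟩ := hF
  refine ⟨∑ j ∈ Finset.range (P.natDegree + 2), monomial j (θ (P.coeff j)), fun t => ?_, ?_, ?_⟩
  · simp only [hP]
    rw [eval_eq_sum_range' (Nat.lt_succ_of_lt (Nat.lt_succ_self P.natDegree)), _root_.map_sum,
      eval_finsetSum]
    refine Finset.sum_congr rfl fun j _ => ?_
    rw [eval_monomial]
    have h : ∀ c : A, c * (algebraMap ℂ A t) ^ j = t ^ j • c := fun c => by
      rw [Algebra.smul_def, _root_.map_pow, mul_comm]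
    rw [h, h, map_smul]
  · rw [finsetSum_coeff, Finset.sum_eq_single 0]
    · rw [coeff_monomial, if_pos rfl, h0]
    · intro j _ hj
      rw [coeff_monomial, if_neg hj]
    · intro h
      exact absurd (Finset.mem_range.2 (by omega)) h
  · rw [finsetSum_coeff, Finset.sum_eq_single 1]
    · rw [coeff_monomial, if_pos rfl, h1]
    · intro j _ hj
      rw [coeff_monomial, if_neg hj]
    · intro h
      exact absurd (Finset.mem_range.2 (by omega)) h

lemma coeff_zero_eval₂_psi (E : LND A) (P : A[X]) :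
    (P.eval₂ (E.psi : A →+* A[X]) X).coeff 0 = P.coeff 0 := by
  rw [← P.divX_mul_X_add, eval₂_add, eval₂_mul, eval₂_X, eval₂_C, coeff_add, coeff_add,
    mul_coeff_zero, mul_coeff_zero, coeff_X_zero, mul_zero, mul_zero, zero_add, zero_add,
    coeff_C_zero]
  exact (E.coeff_psi _ 0).trans (E.c_zero _)

lemma coeff_one_eval₂_psi (E : LND A) (P : A[X]) :
    (P.eval₂ (E.psi : A →+* A[X]) X).coeff 1 = P.coeff 1 + E.D (P.coeff 0) := by
  conv_lhs => rw [← P.divX_mul_X_add]
  rw [eval₂_add, eval₂_mul, eval₂_X, eval₂_C, coeff_add, coeff_mul_X, coeff_zero_eval₂_psi,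
    coeff_divX, zero_add]
  congr 1
  have := E.coeff_psi (P.coeff 0) 1
  simpa [LND.c] using this

lemma PC.expHom {F : ℂ → A} {a b : A} (hF : PC F a b) (E : LND A) :
    PC (fun t => E.expHom t (F t)) a (b + E.D a) := by
  obtain ⟨P, hP, h0, h1⟩ := hF
  refine ⟨P.eval₂ (E.psi : A →+* A[X]) X, fun t => ?_, ?_, ?_⟩
  · have key : (E.expHom t : A →+* A).comp (evalRingHom (algebraMap ℂ A t)) =
        (evalRingHom (algebraMap ℂ A t)).comp (eval₂RingHom (E.psi : A →+* A[X]) X) := by
      apply Polynomial.ringHom_ext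
      · intro c
        simp only [RingHom.comp_apply, coe_evalRingHom, eval_C, coe_eval₂RingHom, eval₂_C]
        exact E.expHom_apply t c
      · simp only [RingHom.comp_apply, coe_evalRingHom, eval_X, coe_eval₂RingHom, eval₂_X]
        exact (E.expHom t).commutes t
    simp only [hP]
    exact congrFun (congrArg DFunLike.coe key) P
  · rw [coeff_zero_eval₂_psi, h0]
  · rw [coeff_one_eval₂_psi, h0, h1]

lemma coeff_zero_comp_neg_X (P : A[X]) : (P.comp (-X)).coeff 0 = P.coeff 0 := by
  rw [coeff_zero_eq_eval_zero, eval_comp, eval_neg, eval_X, neg_zero, ← coeff_zero_eq_eval_zero]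

lemma coeff_one_comp_neg_X (P : A[X]) : (P.comp (-X)).coeff 1 = -P.coeff 1 := by
  conv_lhs => rw [← P.divX_mul_X_add]
  rw [add_comp, mul_comp, X_comp, C_comp, coeff_add, mul_neg, coeff_neg, coeff_mul_X,
    coeff_zero_comp_neg_X, coeff_divX, zero_add, coeff_C_ne_zero one_ne_zero, add_zero]

lemma PC.expHom_neg (E : LND A) (a : A) : PC (fun t => E.expHom (-t) a) a (-E.D a) := by
  refine ⟨(E.psi a).comp (-X), fun t => ?_, ?_, ?_⟩
  · simp only [eval_comp, eval_neg, eval_X, LND.expHom_apply, _root_.map_neg]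
  · rw [coeff_zero_comp_neg_X, LND.coeff_psi, LND.c_zero]
  · rw [coeff_one_comp_neg_X, LND.coeff_psi]
    simp [LND.c]

lemma PC.functional {F : ℂ → A} {a b : A} (hF : PC F a b) (θ : A →ₗ[ℂ] ℂ) :
    ∃ P : ℂ[X], (∀ t, θ (F t) = P.eval t) ∧ P.coeff 0 = θ a ∧ P.coeff 1 = θ b := by
  obtain ⟨P, hP, h0, h1⟩ := hF
  refine ⟨∑ j ∈ Finset.range (P.natDegree + 2), monomial j (θ (P.coeff j)), fun t => ?_, ?_, ?_⟩
  · simp only [hP]
    rw [eval_eq_sum_range' (Nat.lt_succ_of_lt (Nat.lt_succ_self P.natDegree)), _root_.map_sum,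
      eval_finsetSum]
    refine Finset.sum_congr rfl fun j _ => ?_
    rw [eval_monomial]
    have h : ∀ c : A, c * (algebraMap ℂ A t) ^ j = t ^ j • c := fun c => by
      rw [Algebra.smul_def, _root_.map_pow, mul_comm]
    rw [h, map_smul, smul_eq_mul, mul_comm]
  · rw [finsetSum_coeff, Finset.sum_eq_single 0]
    · rw [coeff_monomial, if_pos rfl, h0]
    · intro j _ hj
      rw [coeff_monomial, if_neg hj]
    · intro h
      exact absurd (Finset.mem_range.2 (by omega)) h
  · rw [finsetSum_coeff, Finset.sum_eq_single 1]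
    · rw [coeff_monomial, if_pos rfl, h1]
    · intro j _ hj
      rw [coeff_monomial, if_neg hj]
    · intro h
      exact absurd (Finset.mem_range.2 (by omega)) h

lemma poly_eq_zero_of_eventually {P : ℂ[X]} (h : ∀ᶠ t in 𝓝 (0 : ℂ), P.eval t = 0) : P = 0 := by
  apply Polynomial.eq_zero_of_infinite_isRoot
  exact infinite_of_mem_nhds 0 h

lemma poly_eq_zero_of_forall {P : ℂ[X]} (h : ∀ t : ℂ, P.eval t = 0) : P = 0 :=
  poly_eq_zero_of_eventually (Filter.Eventually.of_forall h)

variable [IsDomain A] [Algebra.FiniteType ℂ A]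

/-- products of exponentials -/
noncomputable def phi : List (LND A × ℂ) → (A ≃ₐ[ℂ] A)
  | [] => AlgEquiv.refl
  | ((E, t) :: L) => (E.expEquiv t).trans (phi L)

lemma phi_cons (E : LND A) (t : ℂ) (L : List (LND A × ℂ)) (b : A) :
    phi ((E, t) :: L) b = phi L (E.expHom t b) := rfl

lemma phi_cons_symm (E : LND A) (t : ℂ) (L : List (LND A × ℂ)) (b : A) :
    (phi ((E, t) :: L)).symm b = E.expHom (-t) ((phi L).symm b) := rfl

lemma phi_append (L L' : List (LND A × ℂ)) : phi (L ++ L') = (phi L).trans (phi L') := by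
  induction L with
  | nil => rfl
  | cons p L ih =>
    obtain ⟨E, t⟩ := p
    rw [List.cons_append, phi, ih]
    rfl

lemma conjD_phi_append (L L' : List (LND A × ℂ)) (δ : Derivation ℂ A A) :
    conjD (phi (L ++ L')) δ = conjD (phi L') (conjD (phi L) δ) := by
  rw [phi_append, conjD_trans]

lemma conjD_phi_cons (E : LND A) (t : ℂ) (L : List (LND A × ℂ)) (δ : Derivation ℂ A A) :
    conjD (phi ((E, t) :: L)) δ = conjD (phi L) (conjD (E.expEquiv t) δ) := by
  rw [phi, conjD_trans]

/-- the linear functional on derivations -/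
noncomputable def ell {N : ℕ} (χ : A →ₐ[ℂ] ℂ) (x : Fin N → A) (w : Fin N → ℂ)
    (δ : Derivation ℂ A A) : ℂ := ∑ i, w i * χ (δ (x i))

/-- the curve obtained by conjugation -/
lemma exists_poly_conj {N : ℕ} (χ : A →ₐ[ℂ] ℂ) (x : Fin N → A) (w : Fin N → ℂ) (E : LND A)
    (δ : Derivation ℂ A A) (L : List (LND A × ℂ)) :
    ∃ P : ℂ[X], (∀ t, ell χ x w (conjD (phi ((E, t) :: L)) δ) = P.eval t) ∧
      P.coeff 1 = ell χ x w (conjD (phi L) ⁅E.D, δ⁆) := by
  have h : ∀ i : Fin N, ∃ P : ℂ[X],
      (∀ t, χ (conjD (phi ((E, t) :: L)) δ (x i)) = P.eval t) ∧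
      P.coeff 1 = χ (conjD (phi L) ⁅E.D, δ⁆ (x i)) := by
    intro i
    have h1 := ((PC.expHom_neg E ((phi L).symm (x i))).linear (δ : A →ₗ[ℂ] A)).expHom E
    obtain ⟨P, hP, -, hP1⟩ := h1.functional
      ((χ.comp (phi L : A →ₐ[ℂ] A)).toLinearMap : A →ₗ[ℂ] ℂ)
    refine ⟨P, fun t => ?_, ?_⟩
    · rw [← hP]
      rfl
    · rw [hP1, conjD_apply, Derivation.commutator_apply]
      simp only [_root_.map_neg, Derivation.coeFn_coe]
      change χ (phi L (-(δ (E.D ((phi L).symm (x i)))) + E.D (δ ((phi L).symm (x i))))) = _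
      congr 2
      ring
  choose P hP hP1 using h
  refine ⟨∑ i, C (w i) * P i, fun t => ?_, ?_⟩
  · rw [eval_finsetSum]
    unfold ell
    refine Finset.sum_congr rfl fun i _ => ?_
    rw [eval_mul, eval_C, hP]
  · rw [finsetSum_coeff]
    unfold ell
    refine Finset.sum_congr rfl fun i _ => ?_
    rw [coeff_C_mul, hP1]

/-- scaling of the times in a list -/
noncomputable def scale (z : ℂ) (L : List (LND A × ℂ)) : List (LND A × ℂ) :=
  L.map fun p => (p.1, p.2 * z)

lemma polyCurve_phi_scale (L : List (LND A × ℂ)) {F : ℂ → A} (hF : PolyCurve F) :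
    PolyCurve fun z => phi (scale z L) (F z) := by
  induction L generalizing F with
  | nil => exact hF
  | cons p L ih =>
    obtain ⟨E, t⟩ := p
    have : (fun z => phi (scale z ((E, t) :: L)) (F z)) =
        fun z => phi (scale z L) (E.expHom (t * z) (F z)) := rfl
    rw [this]
    exact ih (hF.expHom_mul E t)

lemma polyCurve_phi_scale_symm (L : List (LND A × ℂ)) (b : A) :
    PolyCurve fun z => (phi (scale z L)).symm b := by
  induction L with
  | nil => exact polyCurve_const b
  | cons p L ih =>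
    obtain ⟨E, t⟩ := p
    have : (fun z => (phi (scale z ((E, t) :: L))).symm b) =
        fun z => E.expHom (-t * z) ((phi (scale z L)).symm b) := by
      funext z
      rw [neg_mul]
      rfl
    rw [this]
    exact ih.expHom_mul E (-t)

lemma phi_scale_zero (L : List (LND A × ℂ)) : phi (scale 0 L) = AlgEquiv.refl := by
  induction L with
  | nil => rfl
  | cons p L ih =>
    obtain ⟨E, t⟩ := p
    have : phi (scale 0 ((E, t) :: L)) = (E.expEquiv (t * 0)).trans (phi (scale 0 L)) := rfl
    rw [this, ih, mul_zero]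
    ext b
    exact E.expHom_zero b

lemma scale_one (L : List (LND A × ℂ)) : scale 1 L = L := by
  unfold scale
  simp

/-- a function vanishing on the orbit of a point under the exponentials is zero -/
lemma eq_zero_of_orbit {n : ℕ} (hn : 0 < n) (htr : Algebra.trdeg ℂ A = n) (hflex : FlexAlg A n)
    (χ : A →ₐ[ℂ] ℂ) {b : A} (hb : ∀ L, χ (phi L b) = 0) : b = 0 := by
  let J : Ideal A :=
    { carrier := {b | ∀ L, χ (phi L b) = 0}
      add_mem' := fun {x y} hx hy L => by rw [_root_.map_add, _root_.map_add, hx L, hy L, add_zero]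
      zero_mem' := fun L => by rw [_root_.map_zero, _root_.map_zero]
      smul_mem' := fun c x hx L => by
        rw [smul_eq_mul, _root_.map_mul, _root_.map_mul, hx L, mul_zero] }
  by_contra hb0
  have hJ : J = ⊤ := by
    refine ideal_eq_top_of_stable hn htr hflex ?_ ?_
    · intro h
      apply hb0
      have : b ∈ J := hb
      rw [h] at this
      exact this
    · intro E c hc L
      have h1 : PC (fun t => E.expHom t c) c (0 + E.D c) := by
        have : PC (fun _ : ℂ => c) c 0 := ⟨C c, fun t => by simp, by simp, by simp [coeff_C]⟩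
        exact this.expHom E
      obtain ⟨P, hP, -, hP1⟩ := h1.functional
        ((χ.comp (phi L : A →ₐ[ℂ] A)).toLinearMap : A →ₗ[ℂ] ℂ)
      have hP0 : P = 0 := by
        apply poly_eq_zero_of_forall
        intro t
        rw [← hP]
        exact hc ((E, t) :: L)
      rw [hP0, coeff_zero, zero_add] at hP1
      exact hP1.symm
  have h1 : (1 : A) ∈ J := by rw [hJ]; trivial
  have h2 : χ (1 : A) = 0 := by
    have h3 := h1 []
    have h4 : phi ([] : List (LND A × ℂ)) (1 : A) = 1 := rfl
    rwa [h4] at h3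
  rw [_root_.map_one] at h2
  exact one_ne_zero h2

/-- **Spanning by conjugates.** A nonempty family of nonzero LNDs which is stable under small
conjugations by exponentials spans, at each point, all the values of LNDs. -/
theorem span_of_app {n : ℕ} (hn : 2 ≤ n) (htr : Algebra.trdeg ℂ A = n) (hflex : FlexAlg A n)
    {N : ℕ} (χ : A →ₐ[ℂ] ℂ) (x : Fin N → A) (w : Fin N → ℂ) (App : LND A → Prop)
    (hstar : ∀ E, App E → ∀ E' : LND A, ∀ᶠ t in 𝓝 (0 : ℂ), App (E.conj (E'.expEquiv t)))
    {E₁ : LND A} (hE₁ : App E₁) (hE₁0 : E₁.D ≠ 0) (hw : ∀ E, App E → ell χ x w E.D = 0)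
    (E₀ : LND A) : ell χ x w E₀.D = 0 := by
  have hn0 : 0 < n := by omega
  by_contra hE₀
  -- step 1
  have c1 : ∀ (L : List (LND A × ℂ)) (E : LND A), App E → ell χ x w (conjD (phi L) E.D) = 0 := by
    intro L
    induction L with
    | nil => exact fun E hE => hw E hE
    | cons p L ih =>
      obtain ⟨E', t⟩ := p
      intro E hE
      obtain ⟨P, hP, -⟩ := exists_poly_conj χ x w E' E.D L
      have hP0 : P = 0 := by
        apply poly_eq_zero_of_eventually
        filter_upwards [hstar E hE E'] with s hs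
        have h1 := ih _ hs
        rw [LND.conj_D] at h1
        rw [← hP, conjD_phi_cons]
        exact h1
      rw [hP, hP0, eval_zero]
  -- the space of derivations all of whose conjugates are killed
  let NN : Derivation ℂ A A → Prop := fun δ => ∀ L, ell χ x w (conjD (phi L) δ) = 0
  have hNE₁ : NN E₁.D := fun L => c1 L E₁ hE₁
  have hNconj : ∀ δ, NN δ → ∀ L, NN (conjD (phi L) δ) := by
    intro δ hδ L L'
    rw [← conjD_phi_append]
    exact hδ _
  have hNbr : ∀ δ, NN δ → ∀ E : LND A, NN ⁅E.D, δ⁆ := by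
    intro δ hδ E L
    obtain ⟨P, hP, hP1⟩ := exists_poly_conj χ x w E δ L
    have hP0 : P = 0 := by
      apply poly_eq_zero_of_forall
      intro t
      rw [← hP]
      exact hδ _
    rw [← hP1, hP0, coeff_zero]
  -- step 3
  have c3 : ∀ δ, NN δ → ∀ (E : LND A) (f : A), E.D f = 0 → ∀ L,
      χ (phi L (δ f)) * ell χ x w (conjD (phi L) E.D) = 0 := by
    intro δ hδ E f hf L
    have h1 := hNbr δ hδ (E.replica f hf) L
    have h2 := hNbr δ hδ E L
    have h3 : ell χ x w (conjD (phi L) ⁅(E.replica f hf).D, δ⁆) =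
        χ (phi L f) * ell χ x w (conjD (phi L) ⁅E.D, δ⁆) -
          χ (phi L (δ f)) * ell χ x w (conjD (phi L) E.D) := by
      unfold ell
      rw [Finset.mul_sum, Finset.mul_sum, ← Finset.sum_sub_distrib]
      refine Finset.sum_congr rfl fun i _ => ?_
      have h4 : conjD (phi L) ⁅(E.replica f hf).D, δ⁆ (x i) =
          phi L f * conjD (phi L) ⁅E.D, δ⁆ (x i) - phi L (δ f) * conjD (phi L) E.D (x i) := by
        simp only [conjD_apply, Derivation.commutator_apply, LND.replica, Derivation.coe_smul,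
          Pi.smul_apply, smul_eq_mul, Derivation.leibniz]
        simp only [← _root_.map_mul, ← _root_.map_sub]
        congr 1
        ring
      rw [h4, _root_.map_sub, _root_.map_mul, _root_.map_mul]
      ring
    rw [h1, h2, mul_zero, zero_sub] at h3
    exact neg_eq_zero.1 h3.symm
  -- step 4
  have c4 : ∀ δ, NN δ → ∀ f, E₀.D f = 0 → δ f = 0 := by
    intro δ hδ f hf
    apply eq_zero_of_orbit hn0 htr hflex χ
    intro L
    obtain ⟨P, hP⟩ := (polyCurve_phi_scale L (polyCurve_const (δ f))).functional χ.toLinearMap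
    have hQ : ∀ i, ∃ Q : ℂ[X], ∀ z, χ (conjD (phi (scale z L)) E₀.D (x i)) = Q.eval z := by
      intro i
      have h1 := polyCurve_phi_scale L
        ((polyCurve_phi_scale_symm L (x i)).linear (E₀.D : A →ₗ[ℂ] A))
      obtain ⟨Q, hQ⟩ := h1.functional χ.toLinearMap
      exact ⟨Q, fun z => (hQ z)⟩
    choose Q hQ using hQ
    have hmul : P * ∑ i, C (w i) * Q i = 0 := by
      apply poly_eq_zero_of_forall
      intro z
      have h1 := c3 δ hδ E₀ f hf (scale z L)
      rw [eval_mul, ← hP, eval_finsetSum]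
      have h2 : ell χ x w (conjD (phi (scale z L)) E₀.D) = ∑ i, (C (w i) * Q i).eval z := by
        unfold ell
        refine Finset.sum_congr rfl fun i _ => ?_
        rw [eval_mul, eval_C, hQ]
      rw [← h2]
      exact h1
    have hQ0 : (∑ i, C (w i) * Q i) ≠ 0 := by
      intro h
      apply hE₀
      have h2 : ell χ x w (conjD (phi (scale 0 L)) E₀.D) = ∑ i, (C (w i) * Q i).eval 0 := by
        unfold ell
        refine Finset.sum_congr rfl fun i _ => ?_
        rw [eval_mul, eval_C, hQ]
      rw [phi_scale_zero, conjD_refl, ← eval_finsetSum, h, eval_zero] at h2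
      exact h2
    have hP0 : P = 0 := (mul_eq_zero.1 hmul).resolve_right hQ0
    have h3 := hP 1
    rw [scale_one, hP0, eval_zero] at h3
    exact h3
  -- a nonconstant element of the kernel of `E₀`
  have hE₀0 : E₀.D ≠ 0 := by
    intro h
    apply hE₀
    unfold ell
    simp [h]
  obtain ⟨f₀, hf₀, hf₀t⟩ := E₀.exists_transcendental_ker' hn htr hE₀0
  have c5 : ∀ (S : List (LND A)), ∀ y ∈ Cset f₀ S, ∀ L, E₁.D ((phi L).symm y) = 0 := by
    intro S
    induction S with
    | nil =>
      rintro y rfl L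
      have h1 := c4 _ (hNconj _ hNE₁ L) y hf₀
      rw [conjD_apply] at h1
      exact (map_eq_zero_iff _ (phi L).injective).1 h1
    | cons E S ih =>
      rintro y ⟨z, hz, k, rfl⟩ L
      apply eq_of_points
      intro χ'
      rw [_root_.map_zero]
      -- the polynomial
      let θ : A →ₗ[ℂ] ℂ := χ'.toLinearMap ∘ₗ (E₁.D : A →ₗ[ℂ] A) ∘ₗ
        ((phi L).symm : A →ₐ[ℂ] A).toLinearMap
      set m := (E.psi z).natDegree + k + 1 with hm
      have h1 : ∀ t : ℂ, (∑ j ∈ Finset.range m, C (θ (E.c z j)) * X ^ j).eval t = 0 := by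
        intro t
        have h2 := ih z hz (L ++ [(E, -t)])
        have h3 : (phi (L ++ [(E, -t)])).symm z = (phi L).symm (E.expHom t z) := by
          rw [phi_append]
          change (phi L).symm (E.expHom (-(-t)) z) = _
          rw [neg_neg]
        rw [h3, E.expHom_eq_sum t z (m := m) (by omega)] at h2
        have h4 : θ (∑ j ∈ Finset.range m, t ^ j • E.c z j) = 0 := by
          change χ' (E₁.D ((phi L).symm (∑ j ∈ Finset.range m, t ^ j • E.c z j))) = 0
          rw [h2, _root_.map_zero]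
        rw [eval_finsetSum, ← h4, _root_.map_sum]
        refine Finset.sum_congr rfl fun j _ => ?_
        rw [map_smul, eval_mul, eval_C, eval_pow, eval_X, smul_eq_mul, mul_comm]
      have h2 := poly_eq_zero_of_forall h1
      have h3 := congrArg (fun P => Polynomial.coeff P k) h2
      simp only [finsetSum_coeff, coeff_C_mul_X_pow, coeff_zero] at h3
      rw [Finset.sum_ite_eq] at h3
      rw [if_pos (Finset.mem_range.2 (by omega))] at h3
      exact h3
  -- the contradiction
  obtain ⟨g, hg, hEg⟩ := StableAlg.exists_ne_zero hn0 htr hflex (B := Calg f₀)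
    (fun E => Calg_stable f₀ E) (self_mem_Calg f₀) hf₀t E₁ hE₁0
  apply hEg
  have hle : Calg f₀ ≤ E₁.ker := by
    unfold Calg
    rw [Algebra.adjoin_le_iff]
    intro y hy
    obtain ⟨S, hS⟩ := Set.mem_iUnion.1 hy
    exact c5 S y hS []
  exact hle hg

end Pool.Agent.RR
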