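import Pool.Agent.RR.Fam

/-!
# Subalgebras stable under all locally nilpotent derivations, in any dimension
-/

set_option autoImplicit false

open Polynomial

namespace Pool.Agent.RR

variable {A : Type*} [CommRing A] [IsDomain A] [Algebra ℂ A]

/-- a subalgebra stable under all LNDs -/
def StableAlg (B : Subalgebra ℂ A) : Prop := ∀ E : LND A, ∀ b ∈ B, E.D b ∈ B

lemma StableAlg.iter {B : Subalgebra ℂ A} (hB : StableAlg B) (E : LND A) {b : A} (hb : b ∈ B)
    (m : ℕ) : (⇑E.D)^[m] b ∈ B := by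
  induction m with
  | zero => exact hb
  | succ m ih => rw [Function.iterate_succ_apply']; exact hB E _ ih

/-- a stable subalgebra contains a local slice of each LND which does not kill it -/
lemma StableAlg.exists_slice {B : Subalgebra ℂ A} (hB : StableAlg B) (E : LND A) {f : A}
    (hf : f ∈ B) (hEf : E.D f ≠ 0) :
    ∃ r ∈ B, E.D r ≠ 0 ∧ E.D (E.D r) = 0 ∧ E.D r ∈ B ∧ ∀ k, E.D k = 0 → k * E.D r ∈ B := by
  obtain ⟨n, hn1, hn2⟩ := E.exists_local_slice hEf
  refine ⟨_, hB.iter E hf n, hn1, hn2, hB E _ (hB.iter E hf n), fun k hk => ?_⟩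
  exact hB (E.replica k hk) _ (hB.iter E hf n)

/-- **No nonzero LND kills a nonconstant stable subalgebra.** -/
theorem StableAlg.exists_ne_zero [Algebra.FiniteType ℂ A] {n : ℕ} (hn : 0 < n)
    (htr : Algebra.trdeg ℂ A = n) (hflex : FlexAlg A n) {B : Subalgebra ℂ A} (hB : StableAlg B)
    {f : A} (hfB : f ∈ B) (hf : Transcendental ℂ f) (E : LND A) (hE : E.D ≠ 0) :
    ∃ g ∈ B, E.D g ≠ 0 := by
  by_contra hcon
  push Not at hcon
  obtain ⟨E', hE'⟩ := exists_LND_ne_zero hn htr hflex hf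
  obtain ⟨r, hrB, hr1, hr2, huB, hk⟩ := hB.exists_slice E' hfB hE'
  have hker : ∀ k, E'.D k = 0 → E.D k = 0 := by
    intro k hk0
    have h1 := hcon _ (hk k hk0)
    rw [Derivation.leibniz, hcon _ huB, smul_zero, zero_add, smul_eq_mul] at h1
    exact (mul_eq_zero.1 h1).resolve_left hr1
  apply hE
  apply Derivation.ext
  intro b
  rw [Derivation.coe_zero, Pi.zero_apply]
  obtain ⟨m, hm⟩ := E'.nil b
  obtain ⟨M, p, hp⟩ := E'.exists_slice_repr rfl hr2 m b hm
  have h1 : E.D (aeval r p) = 0 := by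
    rw [aeval_eq_sum_range, _root_.map_sum]
    refine Finset.sum_eq_zero fun i _ => ?_
    have h2 : p.coeff i • r ^ i = ((p.coeff i : E'.ker) : A) * r ^ i := rfl
    rw [h2, Derivation.leibniz, Derivation.leibniz_pow, hcon r hrB, hker _ (p.coeff i).2]
    simp
  rw [hp, Derivation.leibniz, Derivation.leibniz_pow, hcon _ huB] at h1
  simp only [smul_zero, add_zero, smul_eq_mul, mul_zero] at h1
  exact (mul_eq_zero.1 h1).resolve_left (pow_ne_zero _ hr1)

/-- the algebra generated by the kernels of the nonzero LNDs -/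
def HD (A : Type*) [CommRing A] [Algebra ℂ A] : Subalgebra ℂ A :=
  Algebra.adjoin ℂ {f : A | ∃ E : LND A, E.D ≠ 0 ∧ E.D f = 0}

/-- **A nonconstant stable subalgebra is everything**, if the kernels generate. -/
theorem StableAlg.eq_top [Algebra.FiniteType ℂ A] {n : ℕ} (hn : 0 < n)
    (htr : Algebra.trdeg ℂ A = n) (hflex : FlexAlg A n) (hHD : HD A = ⊤) {B : Subalgebra ℂ A}
    (hB : StableAlg B) {f : A} (hfB : f ∈ B) (hf : Transcendental ℂ f) : B = ⊤ := by
  classical
  -- finitely many kernel elements generate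
  have hfin : ∃ s : Finset A, (∀ x ∈ s, ∃ E : LND A, E.D ≠ 0 ∧ E.D x = 0) ∧
      Algebra.adjoin ℂ (s : Set A) = ⊤ := by
    obtain ⟨s, hs⟩ := (inferInstance : Algebra.FiniteType ℂ A).out
    have key : ∀ t : Finset A, ∃ s' : Finset A, (∀ x ∈ s', ∃ E : LND A, E.D ≠ 0 ∧ E.D x = 0) ∧
        (t : Set A) ⊆ Algebra.adjoin ℂ (s' : Set A) := by
      intro t
      induction t using Finset.induction_on with
      | empty => exact ⟨∅, by simp, by simp⟩
      | insert x t _ ih =>
        obtain ⟨s₁, h1, h2⟩ := ih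
        have hx : x ∈ HD A := by rw [hHD]; trivial
        obtain ⟨s₂, hs₂, hx₂⟩ : ∃ s₂ : Finset A,
            (∀ x ∈ s₂, ∃ E : LND A, E.D ≠ 0 ∧ E.D x = 0) ∧ x ∈ Algebra.adjoin ℂ (s₂ : Set A) := by
          refine Algebra.adjoin_induction (p := fun x _ => ∃ s₂ : Finset A,
            (∀ x ∈ s₂, ∃ E : LND A, E.D ≠ 0 ∧ E.D x = 0) ∧ x ∈ Algebra.adjoin ℂ (s₂ : Set A))
            ?_ ?_ ?_ ?_ hx
          · intro y hy
            refine ⟨{y}, ?_, Algebra.subset_adjoin (by simp)⟩
            intro z hz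
            rw [Finset.mem_singleton] at hz
            rw [hz]
            exact hy
          · intro z
            exact ⟨∅, by simp, Subalgebra.algebraMap_mem _ z⟩
          · rintro y z _ _ ⟨a, ha, hya⟩ ⟨b, hb, hzb⟩
            refine ⟨a ∪ b, ?_, ?_⟩
            · intro w hw
              rcases Finset.mem_union.1 hw with h | h
              · exact ha w h
              · exact hb w h
            · exact Subalgebra.add_mem _ (Algebra.adjoin_mono (by simp) hya)
                (Algebra.adjoin_mono (by simp) hzb)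
          · rintro y z _ _ ⟨a, ha, hya⟩ ⟨b, hb, hzb⟩
            refine ⟨a ∪ b, ?_, ?_⟩
            · intro w hw
              rcases Finset.mem_union.1 hw with h | h
              · exact ha w h
              · exact hb w h
            · exact Subalgebra.mul_mem _ (Algebra.adjoin_mono (by simp) hya)
                (Algebra.adjoin_mono (by simp) hzb)
        refine ⟨s₁ ∪ s₂, ?_, ?_⟩
        · intro w hw
          rcases Finset.mem_union.1 hw with h | h
          · exact h1 w h
          · exact hs₂ w h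
        · rw [Finset.coe_insert, Set.insert_subset_iff]
          exact ⟨Algebra.adjoin_mono (by simp) hx₂,
            h2.trans (Algebra.adjoin_mono (by simp))⟩
    obtain ⟨s', h1, h2⟩ := key s
    refine ⟨s', h1, ?_⟩
    rw [eq_top_iff, ← hs, Algebra.adjoin_le_iff]
    exact h2
  obtain ⟨s, hs1, hs2⟩ := hfin
  -- the multipliers
  have hu : ∀ x ∈ s, ∃ u : A, u ≠ 0 ∧ ∀ j : ℕ, u * x ^ j ∈ B := by
    intro x hx
    obtain ⟨E, hE, hEx⟩ := hs1 x hx
    obtain ⟨g, hgB, hg⟩ := hB.exists_ne_zero hn htr hflex hfB hf E hE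
    obtain ⟨r, -, hr1, -, -, hk⟩ := hB.exists_slice E hgB hg
    refine ⟨E.D r, hr1, fun j => ?_⟩
    rw [mul_comm]
    apply hk
    rw [Derivation.leibniz_pow, hEx]
    simp
  choose! u hu0 huB using hu
  have hc0 : ∏ x ∈ s, u x ≠ 0 := Finset.prod_ne_zero_iff.2 hu0
  refine subalgebra_eq_top_of_stable hn htr hflex hB hc0 fun b => ?_
  have hb : b ∈ Submodule.span ℂ ((Submonoid.closure (s : Set A) : Submonoid A) : Set A) := by
    rw [← Algebra.adjoin_eq_span, hs2]
    trivial
  refine Submodule.span_induction (p := fun b _ => (∏ x ∈ s, u x) * b ∈ B) ?_ ?_ ?_ ?_ hb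
  · intro m hm
    obtain ⟨α, -, rfl⟩ := Submonoid.mem_closure_finset.1 hm
    rw [← Finset.prod_mul_distrib]
    exact Subalgebra.prod_mem _ fun x hx => huB x hx _
  · rw [mul_zero]; exact Subalgebra.zero_mem _
  · intro x y _ _ hx hy
    rw [mul_add]; exact Subalgebra.add_mem _ hx hy
  · intro z x _ hx
    rw [mul_smul_comm]
    exact Subalgebra.smul_mem _ hx z

theorem Calg_eq_top_of_HD [Algebra.FiniteType ℂ A] {n : ℕ} (hn : 0 < n)
    (htr : Algebra.trdeg ℂ A = n) (hflex : FlexAlg A n) (hHD : HD A = ⊤) {a : A}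
    (ha : Transcendental ℂ a) : Calg a = ⊤ :=
  StableAlg.eq_top hn htr hflex hHD (fun E => Calg_stable a E) (self_mem_Calg a) ha

/-- a nonzero LND in transcendence degree at least two has a nonconstant kernel element -/
lemma LND.exists_transcendental_ker' {n : ℕ} (hn : 2 ≤ n) (htr : Algebra.trdeg ℂ A = n)
    (E : LND A) (hE : E.D ≠ 0) : ∃ a : A, E.D a = 0 ∧ Transcendental ℂ a := by
  by_contra hcon
  push Not at hcon
  have hconst : ∀ a : A, E.D a = 0 → ∃ z : ℂ, a = algebraMap ℂ A z := by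
    intro a ha
    apply eq_algebraMap_of_isAlgebraic
    by_contra h
    exact hcon a ha h
  have hex : ∃ a, E.D a ≠ 0 := by
    by_contra h
    push Not at h
    exact hE (Derivation.ext h)
  obtain ⟨a, ha⟩ := hex
  obtain ⟨m, hn1, hn2⟩ := E.exists_local_slice ha
  have hle := trdeg_le_one_of_mem_adjoin (fun b => adjoin_slice hconst hn1 hn2 b)
  rw [htr] at hle
  have : n ≤ 1 := by exact_mod_cast hle
  omega

/-- a kernel element `a` with the property that the derivation does not vanish at the points where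
`a` is nonzero -/
lemma LND.exists_good_ker {n : ℕ} (hn : 2 ≤ n) (htr : Algebra.trdeg ℂ A = n)
    (E : LND A) (hE : E.D ≠ 0) : ∃ a : A, E.D a = 0 ∧ Transcendental ℂ a ∧
      ∀ χ : A →ₐ[ℂ] ℂ, χ a ≠ 0 → ∃ b, χ (E.D b) ≠ 0 := by
  have hex : ∃ a, E.D a ≠ 0 := by
    by_contra h
    push Not at h
    exact hE (Derivation.ext h)
  obtain ⟨a, ha⟩ := hex
  obtain ⟨m, hn1, hn2⟩ := E.exists_local_slice ha
  by_cases h : Transcendental ℂ (E.D ((⇑E.D)^[m] a))
  · exact ⟨_, hn2, h, fun χ hχ => ⟨_, hχ⟩⟩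
  · obtain ⟨a', ha'1, ha'2⟩ := E.exists_transcendental_ker' hn htr hE
    refine ⟨a', ha'1, ha'2, fun χ _ => ⟨(⇑E.D)^[m] a, ?_⟩⟩
    obtain ⟨z, hz⟩ := eq_algebraMap_of_isAlgebraic (not_not.1 h)
    rw [hz, AlgHom.commutes]
    intro h0
    apply hn1
    have h0' : z = 0 := h0
    rw [hz, h0', _root_.map_zero]

end Pool.Agent.RR
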